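import Pool.Agent.Lib.MP_72e2e6_nt.P3.E2.Spec

/-!
# MP_72e2e6_nt, theorem T3p, the case `p = 2`: base change and homomorphisms of fields
-/

namespace Pool.Agent.MP72P

open WeierstrassCurve
open Pool.Agent.MP72W (pmap)
open Pool.Agent.MP72V

open scoped Classical

private theorem bas_map {R S : Type} [CommRing R] [CommRing S] (φ : R →+* S)
    (W : WeierstrassCurve R) (hW : IsN2 W) : IsN2 (W.map φ) where
  a1 := by rw [WeierstrassCurve.map_a₁, hW.a1, map_one]
  a3 := by rw [WeierstrassCurve.map_a₃, hW.a3, map_zero]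
  a4 := by rw [WeierstrassCurve.map_a₄, hW.a4, map_zero]
  a6 := by
    rw [WeierstrassCurve.map_a₆]
    exact hW.a6.map φ

private theorem bas_fr {K : Type} [Field K] (p : ℕ) [Fact p.Prime] [CharP K p]
    (W : WeierstrassCurve K) (j : ℕ) : fr p W j = W.map (iterateFrobenius K p j) := by
  ext <;> simp [fr, iterateFrobenius_def]

theorem tBasT : S_BasT := by
  refine ⟨?_, ?_⟩
  · intro K _ h2 W hW L _ _
    refine ⟨?_, bas_map (algebraMap K L) W hW, rfl, rfl, rfl, ?_⟩
    · have h3 : (2 : L) = algebraMap K L 2 := (map_ofNat (algebraMap K L) 2).symm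
      rw [h3, h2, map_zero]
    · intro S M _ _ _ _ _ _ _ _ f
      refine ⟨?_, ?_, ?_, ?_⟩
      · rintro P x y ⟨h, rfl⟩
        exact ⟨_, rfl⟩
      · exact Affine.Point.map_injective (W' := W) f
      · intro P
        rcases P with _ | ⟨x, y, h⟩
        · exact ⟨(map_zero f).symm, (map_zero f).symm⟩
        · exact ⟨rfl, rfl⟩
      · rintro P x y ⟨h, rfl⟩
        have h4 : (W⁄L).toAffine.Nonsingular x y :=
          (Affine.baseChange_nonsingular W f.injective x y).mp h
        exact ⟨.some x y h4, ⟨h4, rfl⟩, rfl⟩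
  · intro K _ p _ _ W hW
    refine ⟨fun j => ⟨?_, bas_fr p W j⟩, ?_⟩
    · rw [bas_fr]
      exact bas_map _ W hW
    · intro i j
      ext <;> simp [fr, ← pow_mul, ← pow_add]

end Pool.Agent.MP72P
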