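import Pool.Agent.Lib.MP_72e2e6_nt.P3.E2.Spec

/-!
# MP_72e2e6_nt, theorem T3p, the case `p = 2`: the interface

The statements of `WP/El2/Ifc.lean` (for the number `2`) imply the statements of `P3/E2/Spec.lean` (for a prime
number `p` with `p = 2`).
-/

namespace Pool.Agent.MP72P

open WeierstrassCurve
open Pool.Agent.MP72W (pmap)
open Pool.Agent.MP72V

open scoped Classical

theorem cFrT (h : S_Fr2) : S_FrT := by
  intro p _ hp
  subst hp
  exact h

theorem cVhT (h : S_Vh2) : S_VhT := by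
  intro p _ hp
  subst hp
  exact h

theorem cItT (h : S_It2) : S_ItT := by
  intro p _ hp
  subst hp
  exact h

theorem cRkT (h : S_Rk2) : S_RkT := by
  intro p _ hp
  subst hp
  exact h

private theorem cnv_wt {K : Type} [Field K] (W : WeierstrassCurve K) {L : Type} [Field L]
    [Algebra K L] (k : ℕ) (R : Pt 2 W k L) (w : Pt 2 W k L → L) :
    IsWt2 W k R w ↔ IsWtT 2 W k R w :=
  ⟨fun h => ⟨h.ne, h.add, h.gen, h.ker⟩, fun h => ⟨h.ne, h.add, h.gen, h.ker⟩⟩

theorem cWtT (h : S_Wt2) : S_WtT := by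
  intro p _ hp
  subst hp
  intro K _ _ W hW L _ _ _ k R hR
  obtain ⟨w, hw⟩ := h K W hW L k R hR
  exact ⟨w, (cnv_wt W k R w).1 hw⟩

theorem cWtcT (h : S_Wtc2) : S_WtcT := by
  intro p _ hp
  subst hp
  intro K _ _ W hW L _ _ _ k R hR w hw S M _ _ _ _ _ _ _ _ f R' hR' w' hw' m hm P
  exact h K W hW L k R hR w ((cnv_wt W k R w).2 hw) S M f R' hR' w' ((cnv_wt W k R' w').2 hw') m
    hm P

theorem cUnWT (h : S_UnW2) : S_UnWT := by
  intro p _ hp
  subst hp
  intro K _ _ hK W hW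
  obtain ⟨m, av₀, h1, h2⟩ := h K hK W hW
  refine ⟨m, av₀, h1, fun J av hav k => ⟨(h2 J av hav k).1, ?_⟩⟩
  intro v hv hne Q ϖ R₀ hLF R hR w hw P hP
  exact (h2 J av hav k).2 v hv hne Q ϖ R₀ hLF R hR w ((cnv_wt W k R w).2 hw) P hP

theorem cLoWT (h : S_LoW2) : S_LoWT := by
  intro p _ hp
  subst hp
  exact h

theorem cENT (h : S_EN2) : S_ENT := by
  intro p _ hp
  subst hp
  exact h

end Pool.Agent.MP72P
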