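import Pool.Agent.Lib.MP_72e2e6_nt.P3.E2.Spec

/-!
# MP_72e2e6_nt, theorem T3p, the case `p = 2`, part E: DscV, the descent (helper69)
-/

namespace Pool.Agent.MP72P

set_option autoImplicit false

open WeierstrassCurve
open Pool.Agent.MP72W (pmap)
open Pool.Agent.MP72V

open scoped Classical

section pm

variable {K S L M : Type} [Field K] (W : WeierstrassCurve K) [Field S] [Field L] [Field M]
  [Algebra K S] [Algebra K L] [Algebra K M] [Algebra S L] [Algebra S M]
  [IsScalarTower K S L] [IsScalarTower K S M]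

private theorem dv_add (I : DecidableEq L) (J : DecidableEq M) (f : L →ₐ[S] M)
    (P Q : (W⁄L).toAffine.Point) : pmap W f (P + Q) = pmap W f P + pmap W f Q := by
  obtain rfl : I = fun a b => Classical.propDecidable (a = b) := Subsingleton.elim _ _
  obtain rfl : J = fun a b => Classical.propDecidable (a = b) := Subsingleton.elim _ _
  exact map_add (pmap W f) P Q

private theorem dv_sub (I : DecidableEq L) (J : DecidableEq M) (f : L →ₐ[S] M)
    (P Q : (W⁄L).toAffine.Point) : pmap W f (P - Q) = pmap W f P - pmap W f Q := by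
  obtain rfl : I = fun a b => Classical.propDecidable (a = b) := Subsingleton.elim _ _
  obtain rfl : J = fun a b => Classical.propDecidable (a = b) := Subsingleton.elim _ _
  exact map_sub (pmap W f) P Q

private theorem dv_nsmul (I : DecidableEq L) (J : DecidableEq M) (f : L →ₐ[S] M) (n : ℕ)
    (P : (W⁄L).toAffine.Point) : pmap W f (n • P) = n • pmap W f P := by
  obtain rfl : I = fun a b => Classical.propDecidable (a = b) := Subsingleton.elim _ _
  obtain rfl : J = fun a b => Classical.propDecidable (a = b) := Subsingleton.elim _ _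
  exact map_nsmul (pmap W f) n P

private theorem dv_sum {ι : Type} [Fintype ι] (I : DecidableEq L) (J : DecidableEq M)
    (f : L →ₐ[S] M) (P : ι → (W⁄L).toAffine.Point) :
    pmap W f (∑ i, P i) = ∑ i, pmap W f (P i) := by
  obtain rfl : I = fun a b => Classical.propDecidable (a = b) := Subsingleton.elim _ _
  obtain rfl : J = fun a b => Classical.propDecidable (a = b) := Subsingleton.elim _ _
  exact map_sum (pmap W f) P Finset.univ

private theorem dv_zero (f : L →ₐ[S] M) : pmap W f (0 : (W⁄L).toAffine.Point) = 0 := rfl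

private theorem dv_congr (f g : L →ₐ[K] M) {x y : L} (h : (W⁄L).toAffine.Nonsingular x y)
    (hx : f x = g x) (hy : f y = g y) :
    pmap W f (Affine.Point.some x y h) = pmap W g (Affine.Point.some x y h) := by
  unfold pmap
  rw [Affine.Point.map_some, Affine.Point.map_some, Affine.Point.some.injEq]
  exact ⟨hx, hy⟩

omit [Algebra S L] [IsScalarTower K S L] in
private theorem dv_sq (f : L →ₐ[K] M) (s : L →ₐ[K] L) (t : M →ₐ[S] M)
    (hst : ∀ x, t (f x) = f (s x)) (P : (W⁄L).toAffine.Point) :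
    pmap W f (pmap W s P) = pmap W t (pmap W f P) := by
  cases P with
  | zero => rfl
  | some x y h =>
    unfold pmap
    rw [Affine.Point.map_some, Affine.Point.map_some, Affine.Point.map_some,
      Affine.Point.map_some, Affine.Point.some.injEq]
    exact ⟨(hst x).symm, (hst y).symm⟩

end pm

private theorem dv_loc {K : Type} [Field K] (W : WeierstrassCurve K)
    (P : (W⁄(Kgs K)).toAffine.Point) :
    IsLocallyConstant fun σ : Gal(Kgs K/K) => pmap W (σ : Kgs K →ₐ[K] Kgs K) P := by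
  have hop : ∀ (σ : Gal(Kgs K/K)) (x : Kgs K), IsOpen {τ : Gal(Kgs K/K) | τ x = σ x} := by
    intro σ x
    have h1 : IsOpen (MulAction.stabilizer Gal(Kgs K/K) x : Set Gal(Kgs K/K)) :=
      stabilizer_isOpen_of_isIntegral x
    have h2 := h1.preimage (continuous_const_mul σ⁻¹)
    have h3 : {τ : Gal(Kgs K/K) | τ x = σ x} = (fun τ => σ⁻¹ * τ) ⁻¹'
        (MulAction.stabilizer Gal(Kgs K/K) x : Set Gal(Kgs K/K)) := by
      ext τ
      rw [Set.mem_preimage, SetLike.mem_coe, MulAction.mem_stabilizer_iff, mul_smul,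
        inv_smul_eq_iff]
      exact Iff.rfl
    rw [h3]
    exact h2
  rw [IsLocallyConstant.iff_exists_open]
  intro σ
  cases P with
  | zero => exact ⟨Set.univ, isOpen_univ, trivial, fun τ _ => rfl⟩
  | some x y h =>
    refine ⟨{τ | τ x = σ x} ∩ {τ | τ y = σ y}, (hop σ x).inter (hop σ y), ⟨rfl, rfl⟩, ?_⟩
    rintro τ ⟨hx, hy⟩
    have hx' : τ x = σ x := hx
    have hy' : τ y = σ y := hy
    exact dv_congr W (τ : Kgs K →ₐ[K] Kgs K) (σ : Kgs K →ₐ[K] Kgs K) h hx' hy'

section fv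

variable {p : ℕ} [Fact p.Prime] {K : Type} [Field K] [CharP K p] {W : WeierstrassCurve K}
  {L : Type} [Field L] [Algebra K L]

private theorem v_fadd (h : S_ItT) (hp : p = 2) (hW : IsN2 W) (I : DecidableEq L) (n : ℕ)
    (P Q : Pt p W 0 L) : Fn p W n (P + Q) = Fn p W n P + Fn p W n Q := by
  obtain rfl : I = fun a b => Classical.propDecidable (a = b) := Subsingleton.elim _ _
  exact (h p hp K W hW L).1 n P Q

private theorem v_fsub (h : S_ItT) (hp : p = 2) (hW : IsN2 W) (I : DecidableEq L) (n : ℕ)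
    (P Q : Pt p W 0 L) : Fn p W n (P - Q) = Fn p W n P - Fn p W n Q := by
  obtain rfl : I = fun a b => Classical.propDecidable (a = b) := Subsingleton.elim _ _
  exact map_sub (AddMonoidHom.mk' (Fn p W n (L := L)) ((h p hp K W hW L).1 n)) P Q

private theorem v_fzero (h : S_ItT) (hp : p = 2) (hW : IsN2 W) (n : ℕ) :
    Fn p W n (0 : Pt p W 0 L) = 0 :=
  map_zero (AddMonoidHom.mk' (Fn p W n (L := L)) ((h p hp K W hW L).1 n))

private theorem v_fsum (h : S_ItT) (hp : p = 2) (hW : IsN2 W) {ι : Type} [Fintype ι]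
    (I : DecidableEq L) (n : ℕ) (P : ι → Pt p W 0 L) :
    Fn p W n (∑ i, P i) = ∑ i, Fn p W n (P i) := by
  obtain rfl : I = fun a b => Classical.propDecidable (a = b) := Subsingleton.elim _ _
  exact map_sum (AddMonoidHom.mk' (Fn p W n (L := L)) ((h p hp K W hW L).1 n)) P Finset.univ

private theorem v_vadd (h : S_ItT) (hp : p = 2) (hW : IsN2 W) (I : DecidableEq L) (n : ℕ)
    (P Q : Pt p W n L) : Vn p W n (P + Q) = Vn p W n P + Vn p W n Q := by
  obtain rfl : I = fun a b => Classical.propDecidable (a = b) := Subsingleton.elim _ _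
  exact (h p hp K W hW L).2.1 n P Q

private theorem v_vsub (h : S_ItT) (hp : p = 2) (hW : IsN2 W) (I : DecidableEq L) (n : ℕ)
    (P Q : Pt p W n L) : Vn p W n (P - Q) = Vn p W n P - Vn p W n Q := by
  obtain rfl : I = fun a b => Classical.propDecidable (a = b) := Subsingleton.elim _ _
  exact map_sub (AddMonoidHom.mk' (Vn p W n (L := L)) ((h p hp K W hW L).2.1 n)) P Q

private theorem v_vnsmul (h : S_ItT) (hp : p = 2) (hW : IsN2 W) (I : DecidableEq L) (n m : ℕ)
    (P : Pt p W n L) : Vn p W n (m • P) = m • Vn p W n P := by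
  obtain rfl : I = fun a b => Classical.propDecidable (a = b) := Subsingleton.elim _ _
  exact map_nsmul (AddMonoidHom.mk' (Vn p W n (L := L)) ((h p hp K W hW L).2.1 n)) m P

private theorem v_vsum (h : S_ItT) (hp : p = 2) (hW : IsN2 W) {ι : Type} [Fintype ι]
    (I : DecidableEq L) (n : ℕ) (P : ι → Pt p W n L) :
    Vn p W n (∑ i, P i) = ∑ i, Vn p W n (P i) := by
  obtain rfl : I = fun a b => Classical.propDecidable (a = b) := Subsingleton.elim _ _
  exact map_sum (AddMonoidHom.mk' (Vn p W n (L := L)) ((h p hp K W hW L).2.1 n)) P Finset.univ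

private theorem v_vf (h : S_ItT) (hp : p = 2) (hW : IsN2 W) (I : DecidableEq L) (n : ℕ)
    (P : Pt p W 0 L) : Vn p W n (Fn p W n P) = p ^ n • P := by
  obtain rfl : I = fun a b => Classical.propDecidable (a = b) := Subsingleton.elim _ _
  exact (h p hp K W hW L).2.2.1 n P

private theorem v_R (h : S_ItT) (hp : p = 2) (hW : IsN2 W) (I : DecidableEq L) (k : ℕ)
    (R : Pt p W k L) (hR : IsR p W k R) :
    addOrderOf R = p ^ k ∧ ∀ P : Pt p W k L, Vn p W k P = 0 ↔ ∃ m : ℕ, P = m • R := by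
  obtain rfl : I = fun a b => Classical.propDecidable (a = b) := Subsingleton.elim _ _
  exact (h p hp K W hW L).2.2.2.2.2.2.2.1 k R hR

end fv

section loc

variable {p : ℕ} [Fact p.Prime] {K S L M : Type} [Field K] [CharP K p] {W : WeierstrassCurve K}
  [Field S] [Field L] [Field M]
  [Algebra K S] [Algebra K L] [Algebra K M] [Algebra S M] [IsScalarTower K S M]

private theorem v_selV (h : S_ItT) (hp : p = 2) (hW : IsN2 W) (I : DecidableEq L)
    (J : DecidableEq M)
    (ι : L →ₐ[K] M) (σ : L →ₐ[K] L) (g : M →ₐ[S] M) (hσ : ∀ x, g (ι x) = ι (σ x)) (k c : ℕ)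
    (R q' q : Pt p W k L) (z : Pt p W 0 L) (Q' Q : Pt p W 0 M)
    (hc : Fn p W k z - (pmap (fr p W k) σ q' - q) = c • R)
    (hQ : pmap (fr p W 0) ι z = pmap (fr p W 0) g Q' - Q) :
    c • pmap (fr p W k) ι R = pmap (fr p W k) g (Fn p W k Q' - pmap (fr p W k) ι q') -
      (Fn p W k Q - pmap (fr p W k) ι q) := by
  obtain rfl : I = fun a b => Classical.propDecidable (a = b) := Subsingleton.elim _ _
  obtain rfl : J = fun a b => Classical.propDecidable (a = b) := Subsingleton.elim _ _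
  have n1 := ((h p hp K W hW L).2.2.2.2.2.1 k K M ι).1 z
  have n2 := ((h p hp K W hW M).2.2.2.2.2.1 k S M g).1 Q'
  rw [← map_nsmul (pmap (fr p W k) ι) c R, ← hc, map_sub, map_sub, map_sub, n1, hQ, n2,
    v_fsub h hp hW, dv_sq (fr p W k) ι σ g hσ]
  abel

private theorem v_selF (h : S_ItT) (hp : p = 2) (hW : IsN2 W) (I : DecidableEq L)
    (J : DecidableEq M)
    (ι : L →ₐ[K] M) (σ : L →ₐ[K] L) (g : M →ₐ[S] M) (hσ : ∀ x, g (ι x) = ι (σ x)) (k : ℕ)
    (s' s : Pt p W k L) (z z₀ : Pt p W 0 L) (Q' Q Q₀' Q₀ : Pt p W 0 M)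
    (hs : Fn p W k (z - z₀) = pmap (fr p W k) σ s' - s)
    (hQ : pmap (fr p W 0) ι z = pmap (fr p W 0) g Q' - Q)
    (hQ₀ : pmap (fr p W 0) ι z₀ = pmap (fr p W 0) g Q₀' - Q₀) :
    pmap (fr p W k) g (pmap (fr p W k) ι s' - Fn p W k (Q' - Q₀')) =
      pmap (fr p W k) ι s - Fn p W k (Q - Q₀) := by
  obtain rfl : I = fun a b => Classical.propDecidable (a = b) := Subsingleton.elim _ _
  obtain rfl : J = fun a b => Classical.propDecidable (a = b) := Subsingleton.elim _ _
  have n1 := ((h p hp K W hW L).2.2.2.2.2.1 k K M ι).1 (z - z₀)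
  have n2 := ((h p hp K W hW M).2.2.2.2.2.1 k S M g).1 (Q' - Q₀')
  have e1 : pmap (fr p W k) σ s' = s + Fn p W k (z - z₀) := by rw [hs]; abel
  rw [map_sub, ← dv_sq (fr p W k) ι σ g hσ, e1, map_add, n1, n2, map_sub (pmap (fr p W 0) ι),
    hQ, hQ₀, map_sub (pmap (fr p W 0) g)]
  have e2 : pmap (fr p W 0) g Q' - Q - (pmap (fr p W 0) g Q₀' - Q₀) =
      (pmap (fr p W 0) g Q' - pmap (fr p W 0) g Q₀') - (Q - Q₀) := by abel
  rw [e2, v_fsub h hp hW _ k (pmap (fr p W 0) g Q' - pmap (fr p W 0) g Q₀')]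
  abel

end loc

section rho

variable {G : Type} [AddCommGroup G] {k p : ℕ} [Fact p.Prime] {R : G}

omit [Fact p.Prime] in
private theorem rv_mod (hR : addOrderOf R = p ^ k) (m : ℕ) : (m % p ^ k) • R = m • R := by
  rw [← hR]
  exact mod_addOrderOf_nsmul R m

private theorem rv_ne (p : ℕ) [Fact p.Prime] (k : ℕ) : NeZero (p ^ k) :=
  ⟨pow_ne_zero _ (Fact.out : p.Prime).ne_zero⟩

private theorem rv_add (hR : addOrderOf R = p ^ k) (a b : ZMod (p ^ k)) :
    (a + b).val • R = a.val • R + b.val • R := by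
  have := rv_ne p k
  rw [ZMod.val_add, rv_mod hR, add_smul]

omit [Fact p.Prime] in
private theorem rv_mul (hR : addOrderOf R = p ^ k) (a b : ZMod (p ^ k)) :
    (a * b).val • R = a.val • (b.val • R) := by
  rw [ZMod.val_mul, rv_mod hR, mul_smul]

private theorem rv_sub (hR : addOrderOf R = p ^ k) (a b : ZMod (p ^ k)) :
    (a - b).val • R = a.val • R - b.val • R := by
  have h := rv_add hR (a - b) b
  rw [sub_add_cancel] at h
  rw [h, add_sub_cancel_right]

private theorem rv_sum (hR : addOrderOf R = p ^ k) {ι : Type} [Fintype ι]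
    (a : ι → ZMod (p ^ k)) : (∑ i, a i).val • R = ∑ i, (a i).val • R :=
  map_sum (AddMonoidHom.mk' (fun x : ZMod (p ^ k) => x.val • R) (rv_add hR)) a Finset.univ

private theorem rv_inj (hR : addOrderOf R = p ^ k) {a b : ZMod (p ^ k)}
    (h : a.val • R = b.val • R) : a = b := by
  have := rv_ne p k
  have h1 := (nsmul_eq_nsmul_iff_modEq).1 h
  rw [hR] at h1
  have h2 : a.val % p ^ k = b.val % p ^ k := h1
  rw [Nat.mod_eq_of_lt (ZMod.val_lt a), Nat.mod_eq_of_lt (ZMod.val_lt b)] at h2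
  exact ZMod.val_injective _ h2

omit [Fact p.Prime] in
private theorem rv_cast (hR : addOrderOf R = p ^ k) (m : ℕ) :
    ((m : ZMod (p ^ k))).val • R = m • R := by
  rw [ZMod.val_natCast, rv_mod hR]

private theorem va3 {FZ FZ0 sp p sp0 p0 cR c0R mχR mR : G} (h1 : FZ - (sp - p) = cR)
    (h2 : FZ0 - (sp0 - p0) = c0R) (h3 : cR - c0R = mχR - mR) :
    FZ - FZ0 = (sp - sp0 + mχR) - (p - p0 + mR) := by
  have e1 : FZ = cR + (sp - p) := by rw [← h1]; abel
  have e2 : FZ0 = c0R + (sp0 - p0) := by rw [← h2]; abel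
  have e3 : cR = c0R + (mχR - mR) := by rw [← h3]; abel
  rw [e1, e2, e3]
  abel

private theorem va4 {FZ sFT csR cR' sp p sq : G} (h1 : FZ - (sp - p) = cR')
    (h2 : sFT - (sq - sp) = csR) : (FZ + sFT) - (sq - p) = cR' + csR := by
  rw [← h1, ← h2]
  abel

private theorem v_shift (f : ZMod p → G) (c : ZMod p) : ∑ i, f (i - c) = ∑ i, f i :=
  Equiv.sum_comp (Equiv.subRight c) f

/-- correction of a vector -/
private theorem v_corr (X : ZMod p → G) :
    ∑ j, (X j - if j = 0 then ∑ l, X l else 0) = 0 := by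
  rw [Finset.sum_sub_distrib, Finset.sum_ite_eq' Finset.univ (0 : ZMod p) (fun _ => ∑ l, X l),
    if_pos (Finset.mem_univ _), sub_self]

end rho

/-- counting with classes -/
private theorem vcount {n a b X Y : ℕ} (r : Setoid (Fin n))
    (h1 : Fintype.card (Quotient r) * a ≤ X)
    (h2 : ∀ q : Quotient r, Fintype.card {i : Fin n // (⟦i⟧ : Quotient r) = q} * b ≤ Y) :
    n * (a * b) ≤ X * Y := by
  have e : n = ∑ q : Quotient r, Fintype.card {i : Fin n // (⟦i⟧ : Quotient r) = q} := by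
    have h3 := Fintype.card_congr (Equiv.sigmaFiberEquiv (fun i : Fin n => (⟦i⟧ : Quotient r)))
    rw [Fintype.card_sigma, Fintype.card_fin] at h3
    exact h3.symm
  have h4 : n * b ≤ Fintype.card (Quotient r) * Y := by
    calc n * b = ∑ q : Quotient r, Fintype.card {i : Fin n // (⟦i⟧ : Quotient r) = q} * b := by
          rw [← Finset.sum_mul, ← e]
      _ ≤ ∑ _q : Quotient r, Y := Finset.sum_le_sum fun q _ => h2 q
      _ = Fintype.card (Quotient r) * Y := by
          rw [Finset.sum_const, Finset.card_univ, smul_eq_mul]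
  calc n * (a * b) = (n * b) * a := by ring
    _ ≤ Fintype.card (Quotient r) * Y * a := Nat.mul_le_mul_right a h4
    _ = (Fintype.card (Quotient r) * a) * Y := by ring
    _ ≤ X * Y := Nat.mul_le_mul_right Y h1

/-- lifting of vectors -/
private theorem v_lift (hIt : S_ItT) (hRk : S_RkT) {p : ℕ} [Fact p.Prime] (hp : p = 2) {K : Type}
    [Field K] [CharP K p] {W : WeierstrassCurve K} (hW : IsN2 W) (L : Type)
    [Field L] [Algebra K L] [IsSepClosed L] (I : DecidableEq L) (k : ℕ)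
    (P : ZMod p → Pt p W 0 L) (hP : ∑ i, P i = 0) :
    ∃ Q : ZMod p → Pt p W k L, ∑ i, Q i = 0 ∧ ∀ j, Vn p W k (Q j) = P j := by
  have h1 : ∀ j, ∃ X, Vn p W k X = P j := fun j => ((hRk p hp K W hW L).1).1 k (P j)
  choose X hX using h1
  refine ⟨fun j => X j - if j = 0 then ∑ l, X l else 0, v_corr X, fun j => ?_⟩
  rw [v_vsub hIt hp hW I, hX]
  by_cases hj : j = 0
  · rw [if_pos hj, v_vsum hIt hp hW I]
    have e : ∑ i, Vn p W k (X i) = 0 := by
      rw [← hP]
      exact Finset.sum_congr rfl fun i _ => hX i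
    rw [e, sub_zero]
  · rw [if_neg hj]
    have e : Vn p W k (0 : Pt p W k L) = 0 := by
      have h2 := v_vsub hIt hp hW I k (0 : Pt p W k L) 0
      rw [sub_self, sub_self] at h2
      exact h2
    rw [e, sub_zero]

theorem tDscVT (hRes : S_Res) (_ : S_BasT) (_ : S_FrT) (_ : S_VhT) (hIt : S_ItT) (hRk : S_RkT) :
    S_DscVT := by
  intro p _ hp2 K _ _ W hW h hh k R hR ψ hψR a b X Y hV hF n z P hzp hne
  obtain ⟨-, -, -, -, finj, nat, -, -, -, -⟩ := hIt p hp2 K W hW (Kgs K)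
  obtain ⟨oR, kR⟩ := v_R hIt hp2 hW inferInstance k R hR
  have hsub : ∀ (σ : Gal(Kgs K/K)) (j : ℕ) (P Q : Pt p W j (Kgs K)),
      pmap (fr p W j) (σ : Kgs K →ₐ[K] Kgs K) (P - Q) =
        pmap (fr p W j) (σ : Kgs K →ₐ[K] Kgs K) P -
          pmap (fr p W j) (σ : Kgs K →ₐ[K] Kgs K) Q := fun σ j P Q =>
    dv_sub (fr p W j) _ _ _ P Q
  have hadd : ∀ (σ : Gal(Kgs K/K)) (j : ℕ) (P Q : Pt p W j (Kgs K)),
      pmap (fr p W j) (σ : Kgs K →ₐ[K] Kgs K) (P + Q) =
        pmap (fr p W j) (σ : Kgs K →ₐ[K] Kgs K) P +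
          pmap (fr p W j) (σ : Kgs K →ₐ[K] Kgs K) Q := fun σ j P Q =>
    dv_add (fr p W j) _ _ _ P Q
  have hnsmul : ∀ (σ : Gal(Kgs K/K)) (j t : ℕ) (P : Pt p W j (Kgs K)),
      pmap (fr p W j) (σ : Kgs K →ₐ[K] Kgs K) (t • P) =
        t • pmap (fr p W j) (σ : Kgs K →ₐ[K] Kgs K) P := fun σ j t P =>
    dv_nsmul (fr p W j) _ _ _ t P
  -- (i)
  have hp' : ∀ i, ∃ Q : ZMod p → Pt p W k (Kgs K), ∑ l, Q l = 0 ∧
      ∀ j, Vn p W k (Q j) = P i j := fun i =>
    v_lift hIt hRk hp2 hW (Kgs K) inferInstance k (P i) (hzp i).sum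
  choose p' hps hp' using hp'
  have natF : ∀ (σ : Gal(Kgs K/K)) (P : Pt p W 0 (Kgs K)),
      pmap (fr p W k) (σ : Kgs K →ₐ[K] Kgs K) (Fn p W k P) =
        Fn p W k (pmap (fr p W 0) (σ : Kgs K →ₐ[K] Kgs K) P) := fun σ P =>
    (nat k K (Kgs K) (σ : Kgs K →ₐ[K] Kgs K)).1 P
  have natV : ∀ (σ : Gal(Kgs K/K)) (P : Pt p W k (Kgs K)),
      pmap (fr p W 0) (σ : Kgs K →ₐ[K] Kgs K) (Vn p W k P) =
        Vn p W k (pmap (fr p W k) (σ : Kgs K →ₐ[K] Kgs K) P) := fun σ P =>
    (nat k K (Kgs K) (σ : Kgs K →ₐ[K] Kgs K)).2 P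
  have hzpm : ∀ i σ j, p ^ k • z i σ j =
      pmap (fr p W 0) (σ : Kgs K →ₐ[K] Kgs K) (P i (j - h σ)) - P i j := fun i σ j =>
    congrFun ((hzp i).mul σ) j
  have hc : ∀ i σ j, ∃ c : ZMod (p ^ k), Fn p W k (z i σ j) -
      (pmap (fr p W k) (σ : Kgs K →ₐ[K] Kgs K) (p' i (j - h σ)) - p' i j) = c.val • R := by
    intro i σ j
    have h1 : Vn p W k (Fn p W k (z i σ j) -
        (pmap (fr p W k) (σ : Kgs K →ₐ[K] Kgs K) (p' i (j - h σ)) - p' i j)) = 0 := by
      rw [v_vsub hIt hp2 hW, v_vsub hIt hp2 hW, v_vf hIt hp2 hW, ← natV, hp', hp', hzpm,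
        sub_self]
    obtain ⟨m, hm⟩ := (kR _).1 h1
    exact ⟨m, by rw [hm, rv_cast oR]⟩
  choose c hc using hc
  -- the crossed homomorphism
  have hψR' : ∀ (σ : Gal(Kgs K/K)) (t : ℕ),
      pmap (fr p W k) (σ : Kgs K →ₐ[K] Kgs K) (t • R) = t • ((ψ σ).val • R) := by
    intro σ t
    rw [hnsmul, hψR]
  have csum : ∀ i σ, ∑ j, c i σ j = 0 := by
    intro i σ
    apply rv_inj oR
    rw [rv_sum oR]
    have e0 : ∑ j, (c i σ j).val • R = ∑ j, (Fn p W k (z i σ j) -
        (pmap (fr p W k) (σ : Kgs K →ₐ[K] Kgs K) (p' i (j - h σ)) - p' i j)) :=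
      Finset.sum_congr rfl fun j _ => (hc i σ j).symm
    rw [e0, Finset.sum_sub_distrib, Finset.sum_sub_distrib, ← v_fsum hIt hp2 hW,
      (hzp i).sha.1.sum σ, v_fzero hIt hp2 hW, hps,
      v_shift (fun j => pmap (fr p W k) (σ : Kgs K →ₐ[K] Kgs K) (p' i j)), ← dv_sum, hps,
      dv_zero, sub_zero, sub_zero]
    have := rv_ne p k
    rw [ZMod.val_zero, zero_smul]
  have cmul : ∀ i σ τ j, c i (σ * τ) j = c i σ j + ψ σ * c i τ (j - h σ) := by
    intro i σ τ j
    apply rv_inj oR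
    have e : ∀ X : Pt p W k (Kgs K),
        pmap (fr p W k) ((σ * τ : Gal(Kgs K/K)) : Kgs K →ₐ[K] Kgs K) X =
        pmap (fr p W k) (σ : Kgs K →ₐ[K] Kgs K)
          (pmap (fr p W k) (τ : Kgs K →ₐ[K] Kgs K) X) := by
      intro X
      cases X <;> rfl
    have h2 : Fn p W k (pmap (fr p W 0) (σ : Kgs K →ₐ[K] Kgs K) (z i τ (j - h σ))) -
        (pmap (fr p W k) (σ : Kgs K →ₐ[K] Kgs K)
          (pmap (fr p W k) (τ : Kgs K →ₐ[K] Kgs K) (p' i (j - h σ - h τ))) -
          pmap (fr p W k) (σ : Kgs K →ₐ[K] Kgs K) (p' i (j - h σ))) =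
        (ψ σ * c i τ (j - h σ)).val • R := by
      rw [mul_comm (ψ σ), rv_mul oR, ← hψR', ← hc, hsub, hsub, natF]
    have h3 : z i (σ * τ) j =
        z i σ j + pmap (fr p W 0) (σ : Kgs K →ₐ[K] Kgs K) (z i τ (j - h σ)) :=
      congrFun ((hzp i).sha.1.mul σ τ) j
    rw [rv_add oR, ← hc, h3, v_fadd hIt hp2 hW, e, hh.add, ← sub_sub]
    exact va4 (hc i σ j) h2
  have cloc : ∀ i, IsLocallyConstant (c i) := by
    intro i
    rw [IsLocallyConstant.iff_exists_open]
    intro σ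
    obtain ⟨U, hU, hσU, hUz⟩ := (IsLocallyConstant.iff_exists_open _).1 (hzp i).sha.1.loc σ
    obtain ⟨U', hU', hσU', hUh⟩ := (IsLocallyConstant.iff_exists_open _).1 hh.loc σ
    have hV : ∀ j : ZMod p, ∃ V : Set (Gal(Kgs K/K)), IsOpen V ∧ σ ∈ V ∧ ∀ τ ∈ V,
        pmap (fr p W k) (τ : Kgs K →ₐ[K] Kgs K) (p' i j) =
          pmap (fr p W k) (σ : Kgs K →ₐ[K] Kgs K) (p' i j) :=
      fun j => (IsLocallyConstant.iff_exists_open _).1 (dv_loc (fr p W k) (p' i j)) σ
    choose V hV hσV hVP using hV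
    refine ⟨U ∩ U' ∩ ⋂ j, V j, (hU.inter hU').inter (isOpen_iInter_of_finite hV),
      ⟨⟨hσU, hσU'⟩, Set.mem_iInter.2 hσV⟩, ?_⟩
    rintro τ ⟨⟨h1, h2⟩, h3⟩
    funext j
    apply rv_inj oR
    rw [← hc, ← hc, hUz τ h1, hUh τ h2, hVP _ τ (Set.mem_iInter.1 h3 _)]
  -- the local points
  have hloc : ∀ i (v : AbsoluteValue K ℝ), v.IsNontrivial →
      ∀ ι : Kgs K →ₐ[K] Kvs v, ∃ Q : ZMod p → Pt p W 0 (Kvs v), ∑ l, Q l = 0 ∧
        ∀ (σ : Gal(Kgs K/K)) (g : Gal(Kvs v/v.Completion)),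
          (∀ x, g (ι x) = ι (σ x)) → ∀ j, pmap (fr p W 0) ι (z i σ j) =
          pmap (fr p W 0) (g : Kvs v →ₐ[v.Completion] Kvs v) (Q (j - h σ)) - Q j :=
    fun i v hv ι => (hzp i).sha.2 v hv ι
  choose! Q hQs hQ using hloc
  have hSeV : ∀ i, SeV p W h k R ψ (c i) := by
    intro i
    refine ⟨cloc i, csum i, cmul i, ?_⟩
    intro v hv ι
    refine ⟨fun j => Fn p W k (Q i v ι j) - pmap (fr p W k) ι (p' i j), ?_, fun g j => ?_⟩
    · rw [Finset.sum_sub_distrib, ← v_fsum hIt hp2 hW, hQs i v hv ι, v_fzero hIt hp2 hW,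
        ← dv_sum (fr p W k) inferInstance, hps, dv_zero, sub_zero]
    · have hr : ∀ x, g (ι x) = ι (rsH (M := v.Completion) ι g x) :=
        (hRes p K (Kgs K) v.Completion (Kvs v) ι).2.1 g
      generalize rsH (M := v.Completion) ι g = σ at hr
      exact v_selV hIt hp2 hW _ _ ι (σ : Kgs K →ₐ[K] Kgs K)
        (g : Kvs v →ₐ[v.Completion] Kvs v) hr k _ R (p' i (j - h σ)) (p' i j) (z i σ j)
        (Q i v ι (j - h σ)) (Q i v ι j) (hc i σ j) (hQ i v hv ι σ g hr j)
  -- (ii) the equivalence relation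
  let r : Setoid (Fin n) :=
    { r := fun i j => ∃ m : ZMod p → ZMod (p ^ k), ∑ l, m l = 0 ∧
        ∀ σ l, c i σ l - c j σ l = ψ σ * m (l - h σ) - m l
      iseqv := by
        refine ⟨fun i => ⟨0, Finset.sum_const_zero, fun σ l => ?_⟩, ?_, ?_⟩
        · show c i σ l - c i σ l = ψ σ * 0 - 0
          rw [sub_self, mul_zero, sub_zero]
        · rintro i j ⟨m, hm0, hm⟩
          refine ⟨fun l => - m l, by rw [Finset.sum_neg_distrib, hm0, neg_zero],
            fun σ l => ?_⟩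
          rw [← neg_sub, hm σ l]
          ring
        · rintro i j l ⟨m, hm0, hm⟩ ⟨m', hm0', hm'⟩
          refine ⟨fun l => m l + m' l, by rw [Finset.sum_add_distrib, hm0, hm0', add_zero],
            fun σ t => ?_⟩
          rw [← sub_add_sub_cancel (c i σ t) (c j σ t), hm σ t, hm' σ t]
          ring }
  have hrel : ∀ i j, (⟦i⟧ : Quotient r) = ⟦j⟧ →
      ∃ m : ZMod p → ZMod (p ^ k), ∑ l, m l = 0 ∧
        ∀ σ l, c i σ l - c j σ l = ψ σ * m (l - h σ) - m l := fun i j h => Quotient.exact h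
  refine vcount r ?_ ?_
  · refine hV _ (fun t => c (((Fintype.equivFin (Quotient r)).symm t).out)) (fun t => hSeV _) ?_
    intro t t' htt' hm
    apply htt'
    have h1 : (((Fintype.equivFin (Quotient r)).symm t).out) ≈
        (((Fintype.equivFin (Quotient r)).symm t').out) := hm
    have h2 := Quotient.sound h1
    rw [Quotient.out_eq, Quotient.out_eq] at h2
    exact (Fintype.equivFin (Quotient r)).symm.injective h2
  · intro q
    -- (iii)
    let i₀ : Fin n := q.out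
    have hi₀ : (⟦i₀⟧ : Quotient r) = q := Quotient.out_eq q
    have hm : ∀ i : {i : Fin n // (⟦i⟧ : Quotient r) = q},
        ∃ m : ZMod p → ZMod (p ^ k), ∑ l, m l = 0 ∧
          ∀ σ l, c i σ l - c i₀ σ l = ψ σ * m (l - h σ) - m l := fun i =>
      hrel i.1 i₀ (i.2.trans hi₀.symm)
    choose m hm0 hm using hm
    let s : {i : Fin n // (⟦i⟧ : Quotient r) = q} → ZMod p → Pt p W k (Kgs K) := fun i j =>
      p' i j - p' i₀ j + (m i j).val • R
    have hs : ∀ i j, s i j = p' i j - p' i₀ j + (m i j).val • R := fun _ _ => rfl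
    have hs0 : ∀ i, ∑ j, s i j = 0 := by
      intro i
      have e0 : ∑ j, s i j = ∑ j, (p' i j - p' i₀ j + (m i j).val • R) := rfl
      rw [e0, Finset.sum_add_distrib, Finset.sum_sub_distrib, hps, hps, ← rv_sum oR, hm0]
      have := rv_ne p k
      rw [ZMod.val_zero, zero_smul, sub_zero, add_zero]
    have hs1 : ∀ (i : {i : Fin n // (⟦i⟧ : Quotient r) = q}) (σ : Gal(Kgs K/K)) (j : ZMod p),
        Fn p W k (z i.1 σ j - z i₀ σ j) =
        pmap (fr p W k) (σ : Kgs K →ₐ[K] Kgs K) (s i (j - h σ)) - s i j := by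
      intro i σ j
      have h3 : (c i.1 σ j).val • R - (c i₀ σ j).val • R =
          (m i (j - h σ)).val • ((ψ σ).val • R) - (m i j).val • R := by
        rw [← rv_sub oR, hm i σ j, rv_sub oR, mul_comm (ψ σ), rv_mul oR]
      rw [v_fsub hIt hp2 hW, hs, hs, hadd, hsub, hψR']
      exact va3 (hc i.1 σ j) (hc i₀ σ j) h3
    have hVR : Vn p W k R = 0 := hR.1
    have hs2 : ∀ i j, Vn p W k (s i j) = P i j - P i₀ j := by
      intro i j
      rw [hs, v_vadd hIt hp2 hW, v_vsub hIt hp2 hW, v_vnsmul hIt hp2 hW, hVR, smul_zero,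
        add_zero, hp', hp']
    clear_value s
    have hSeF : ∀ i, SeF p W h k (s i) := by
      intro i
      refine ⟨hs0 i, fun σ => ⟨fun j => z i σ j - z i₀ σ j, ?_, ?_⟩, ?_⟩
      · rw [Finset.sum_sub_distrib, (hzp i).sha.1.sum σ, (hzp i₀).sha.1.sum σ, sub_zero]
      · funext j
        show pmap (fr p W k) (σ : Kgs K →ₐ[K] Kgs K) (s i (j - h σ)) =
          s i j + Fn p W k (z i σ j - z i₀ σ j)
        rw [hs1]
        abel
      · intro v hv ι
        refine ⟨fun j => Q i v ι j - Q i₀ v ι j, ?_, fun g => ?_⟩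
        · rw [Finset.sum_sub_distrib, hQs i v hv ι, hQs i₀ v hv ι, sub_zero]
        · have hr : ∀ x, g (ι x) = ι (rsH (M := v.Completion) ι g x) :=
            (hRes p K (Kgs K) v.Completion (Kvs v) ι).2.1 g
          generalize rsH (M := v.Completion) ι g = σ at hr
          funext j
          exact v_selF hIt hp2 hW _ _ ι (σ : Kgs K →ₐ[K] Kgs K)
            (g : Kvs v →ₐ[v.Completion] Kvs v) hr k (s i (j - h σ)) (s i j) (z i σ j)
            (z i₀ σ j) (Q i v ι (j - h σ)) (Q i v ι j) (Q i₀ v ι (j - h σ)) (Q i₀ v ι j)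
            (hs1 i σ j) (hQ i v hv ι σ g hr j) (hQ i₀ v hv ι σ g hr j)
    have hfin := hF (Fintype.card {i : Fin n // (⟦i⟧ : Quotient r) = q})
      (fun t => s ((Fintype.equivFin {i : Fin n // (⟦i⟧ : Quotient r) = q}).symm t))
      (fun t => hSeF _) ?_
    · exact hfin
    · rintro t t' htt' ⟨u, hu0, hu⟩
      obtain ⟨j, hj⟩ : ∃ j, j = (Fintype.equivFin {i : Fin n // (⟦i⟧ : Quotient r) = q}).symm t :=
        ⟨_, rfl⟩
      obtain ⟨j', hj'⟩ :
          ∃ j, j = (Fintype.equivFin {i : Fin n // (⟦i⟧ : Quotient r) = q}).symm t' := ⟨_, rfl⟩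
      have hne' : (j : Fin n) ≠ (j' : Fin n) := by
        intro h
        have h1 : j = j' := Subtype.ext h
        rw [hj, hj'] at h1
        exact htt' ((Fintype.equivFin _).symm.injective h1)
      have hu' : ∀ l, s j l - s j' l = Fn p W k (u l) := by
        intro l
        rw [hj, hj']
        exact hu l
      refine hne _ _ hne' ⟨u, hu0, fun σ => ?_, ?_⟩
      · funext l
        show z j σ l - z j' σ l =
          pmap (fr p W 0) (σ : Kgs K →ₐ[K] Kgs K) (u (l - h σ)) - u l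
        apply finj k
        have e1 : z j σ l - z j' σ l = (z j σ l - z i₀ σ l) - (z j' σ l - z i₀ σ l) :=
          (sub_sub_sub_cancel_right _ _ _).symm
        rw [e1, v_fsub hIt hp2 hW, hs1, hs1, v_fsub hIt hp2 hW, ← natF, ← hu', ← hu', hsub]
        exact sub_sub_sub_comm _ _ _ _
      · funext l
        show P j l - P j' l = p ^ k • u l
        have e1 : P j l - P j' l = (P j l - P i₀ l) - (P j' l - P i₀ l) :=
          (sub_sub_sub_cancel_right _ _ _).symm
        rw [e1, ← hs2, ← hs2, ← v_vsub hIt hp2 hW, hu', v_vf hIt hp2 hW]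

end Pool.Agent.MP72P
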