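import Pool.Agent.Lib.MP_72e2e6_nt.P3.E2.Spec

/-!
# MP_72e2e6_nt, theorem T3p, the case `p = 2`, part E: from `E_1` to `E_0`
-/

namespace Pool.Agent.MP72P

open WeierstrassCurve
open Pool.Agent.MP72W (pmap)
open Pool.Agent.MP72V

open scoped Classical

private theorem frv_max {X : Type} (S : X → Prop) (R : X → X → Prop)
    (hsymm : ∀ x y, R x y → R y x) (N : ℕ)
    (h : ∀ (n : ℕ) (P : Fin n → X), (∀ i, S (P i)) → (∀ i j, i ≠ j → ¬ R (P i) (P j)) → n ≤ N) :
    ∃ (n : ℕ) (P : Fin n → X), (∀ i, S (P i)) ∧ ∀ x, S x → ∃ i, R x (P i) := by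
  by_contra hcon
  have hex : ∀ (n : ℕ) (P : Fin n → X), (∀ i, S (P i)) → ∃ x, S x ∧ ∀ i, ¬ R x (P i) := by
    intro n P hP
    by_contra h1
    refine hcon ⟨n, P, hP, fun x hx => ?_⟩
    by_contra h2
    exact h1 ⟨x, hx, fun i hi => h2 ⟨i, hi⟩⟩
  have key : ∀ n : ℕ, ∃ P : Fin n → X, (∀ i, S (P i)) ∧ ∀ i j, i ≠ j → ¬ R (P i) (P j) := by
    intro n
    induction n with
    | zero => exact ⟨Fin.elim0, fun i => i.elim0, fun i => i.elim0⟩
    | succ n ih =>
      obtain ⟨P, hP, hP2⟩ := ih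
      obtain ⟨x, hx, hx2⟩ := hex n P hP
      refine ⟨Fin.cons x P, fun i => ?_, fun i j hij => ?_⟩
      · refine Fin.cases ?_ (fun i => ?_) i
        · exact hx
        · exact hP i
      · rcases Fin.eq_zero_or_eq_succ i with rfl | ⟨i, rfl⟩ <;>
          rcases Fin.eq_zero_or_eq_succ j with rfl | ⟨j, rfl⟩
        · exact absurd rfl hij
        · rw [Fin.cons_zero, Fin.cons_succ]
          exact hx2 j
        · rw [Fin.cons_zero, Fin.cons_succ]
          exact fun hh => hx2 i (hsymm _ _ hh)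
        · rw [Fin.cons_succ, Fin.cons_succ]
          exact hP2 i j fun hh => hij (by rw [hh])
  obtain ⟨P, hP, hP2⟩ := key (N + 1)
  have := h (N + 1) P hP hP2
  omega

private theorem frv_comp {K : Type} [Field K] (W : WeierstrassCurve K)
    {Ks Kv Kt : Type} [Field Ks] [Field Kv] [Field Kt] [Algebra K Ks]
    [Algebra K Kv] [Algebra Kv Kt] [Algebra K Kt] [IsScalarTower K Kv Kt]
    (ι : Ks →ₐ[K] Kt) (g : Kt →ₐ[Kv] Kt) (σ : Ks →ₐ[K] Ks) (h : ∀ x, g (ι x) = ι (σ x))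
    (P : (W⁄Ks).toAffine.Point) : pmap W g (pmap W ι P) = pmap W ι (pmap W σ P) := by
  rcases P with _ | ⟨x, y, hxy⟩
  · change pmap W g (pmap W ι 0) = pmap W ι (pmap W σ 0)
    rw [map_zero, map_zero, map_zero, map_zero]
  · change Affine.Point.map g (Affine.Point.map ι (Affine.Point.some x y hxy)) =
      Affine.Point.map ι (Affine.Point.map σ (Affine.Point.some x y hxy))
    rw [Affine.Point.map_some, Affine.Point.map_some, Affine.Point.map_some,
      Affine.Point.map_some]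
    simp only [h]

/-- `pmap` as a homomorphism for every instance of decidable equality. -/
private noncomputable def frvP {K S L M : Type} [Field K] (W : WeierstrassCurve K) [Field S]
    [Field L] [Field M] [Algebra K S] [Algebra K L] [Algebra K M] [Algebra S L] [Algebra S M]
    [IsScalarTower K S L] [IsScalarTower K S M] (dL : DecidableEq L) (dM : DecidableEq M)
    (f : L →ₐ[S] M) : (W⁄L).toAffine.Point →+ (W⁄M).toAffine.Point :=
  AddMonoidHom.mk' (pmap W f) (by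
    have h1 : dL = fun a b => Classical.propDecidable (a = b) := Subsingleton.elim _ _
    have h2 : dM = fun a b => Classical.propDecidable (a = b) := Subsingleton.elim _ _
    subst h1
    subst h2
    exact map_add (pmap W f))

section

variable (hFr : S_FrT) {p : ℕ} [Fact p.Prime] (hp2 : p = 2) {K : Type} [Field K] [CharP K p]
  (W : WeierstrassCurve K) (hW : IsN2 W)

/-- The Frobenius isogeny as a homomorphism. -/
private noncomputable def frvH (L : Type) [Field L] [Algebra K L] (dL : DecidableEq L) :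
    Pt p W 0 L →+ Pt p W 1 L :=
  AddMonoidHom.mk' (Fi p W 0) (by
    have h1 : dL = fun a b => Classical.propDecidable (a = b) := Subsingleton.elim _ _
    subst h1
    exact (hFr p hp2 K W hW 0 L).2.2.1)

private theorem frvH_inj (L : Type) [Field L] [Algebra K L] (dL : DecidableEq L) :
    Function.Injective (frvH hFr hp2 W hW L dL) :=
  fun P Q h => (hFr p hp2 K W hW 0 L).2.2.2.1 P Q h

private theorem frvH_nat (L : Type) [Field L] [Algebra K L] (S M : Type) [Field S] [Field M]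
    [Algebra K S] [Algebra K M] [Algebra S L] [Algebra S M] [IsScalarTower K S L]
    [IsScalarTower K S M] (dL : DecidableEq L) (dM : DecidableEq M) (f : L →ₐ[S] M)
    (P : Pt p W 0 L) :
    pmap (fr p W 1) f (frvH hFr hp2 W hW L dL P) =
      frvH hFr hp2 W hW M dM (pmap (fr p W 0) f P) :=
  (hFr p hp2 K W hW 0 L).2.2.2.2.1 S M f P

/-- The case of the separable closure. -/
private noncomputable def frvK : Pt p W 0 (Kgs K) →+ Pt p W 1 (Kgs K) :=
  frvH hFr hp2 W hW (Kgs K) _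

/-- The case of the separable closure of a completion. -/
private noncomputable def frvV (v : AbsoluteValue K ℝ) : Pt p W 0 (Kvs v) →+ Pt p W 1 (Kvs v) :=
  frvH hFr hp2 W hW (Kvs v) _

private theorem frvK_tac (σ : Gal(Kgs K/K)) (c : ZMod p)
    (v : ZMod p → Pt p W 0 (Kgs K)) :
    tac (fr p W 1) c (σ : Kgs K →ₐ[K] Kgs K) (fun i => frvK hFr hp2 W hW (v i)) =
      fun i => frvK hFr hp2 W hW (tac (fr p W 0) c (σ : Kgs K →ₐ[K] Kgs K) v i) := by
  funext i
  exact frvH_nat hFr hp2 W hW (Kgs K) K (Kgs K) _ _ _ _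

private theorem frvK_nat (v : AbsoluteValue K ℝ) (ι : Kgs K →ₐ[K] Kvs v) (P : Pt p W 0 (Kgs K)) :
    pmap (fr p W 1) ι (frvK hFr hp2 W hW P) = frvV hFr hp2 W hW v (pmap (fr p W 0) ι P) :=
  frvH_nat hFr hp2 W hW (Kgs K) K (Kvs v) _ _ _ _

private theorem frvV_nat (v : AbsoluteValue K ℝ) (g : Kvs v →ₐ[v.Completion] Kvs v)
    (P : Pt p W 0 (Kvs v)) :
    pmap (fr p W 1) g (frvV hFr hp2 W hW v P) = frvV hFr hp2 W hW v (pmap (fr p W 0) g P) :=
  frvH_nat hFr hp2 W hW (Kvs v) v.Completion (Kvs v) _ _ _ _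

end

private theorem frv_tac_sub {K : Type} [Field K] (W : WeierstrassCurve K) {p : ℕ} [Fact p.Prime]
    (c : ZMod p) (σ : Gal(Kgs K/K)) (v w : ZMod p → (W⁄(Kgs K)).toAffine.Point) :
    tac W c (σ : Kgs K →ₐ[K] Kgs K) (v - w) =
      tac W c (σ : Kgs K →ₐ[K] Kgs K) v - tac W c (σ : Kgs K →ₐ[K] Kgs K) w := by
  funext i
  exact map_sub (frvP W _ _ (σ : Kgs K →ₐ[K] Kgs K)) _ _

private theorem frv_sha (hFr : S_FrT) {p : ℕ} [Fact p.Prime] (hp2 : p = 2) {K : Type} [Field K]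
    [CharP K p] (W : WeierstrassCurve K) (hW : IsN2 W) (h : Gal(Kgs K/K) → ZMod p)
    (z : Gal(Kgs K/K) → ZMod p → Pt p W 0 (Kgs K)) (hz : ShaV (fr p W 0) h z) :
    ShaV (fr p W 1) h fun σ i => Fi p W 0 (z σ i) := by
  change ShaV (fr p W 1) h fun σ i =>
    frvK hFr hp2 W hW (z σ i)
  refine ⟨⟨?_, ?_, ?_⟩, ?_⟩
  · exact IsLocallyConstant.comp hz.1.loc
      (fun v : ZMod p → Pt p W 0 (Kgs K) => fun i => frvK hFr hp2 W hW (v i))
  · intro σ
    rw [← map_sum (frvK hFr hp2 W hW), hz.1.sum, map_zero]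
  · intro σ τ
    rw [frvK_tac]
    funext i
    have h1 := congrFun (hz.1.mul σ τ) i
    change frvK hFr hp2 W hW (z (σ * τ) i) = _
    rw [h1]
    exact map_add (frvK hFr hp2 W hW) _ _
  · intro v hv ι
    obtain ⟨Q, hQ0, hQ⟩ := hz.2 v hv ι
    refine ⟨fun i => frvV hFr hp2 W hW v (Q i), ?_, ?_⟩
    · rw [← map_sum (frvV hFr hp2 W hW v), hQ0, map_zero]
    · intro σ τ hστ i
      rw [frvK_nat, frvV_nat, hQ σ τ hστ i, map_sub (frvV hFr hp2 W hW v)]

private theorem frv_sef (hRes : S_Res) (hFr : S_FrT) {p : ℕ} [Fact p.Prime] (hp2 : p = 2)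
    {K : Type} [Field K] [CharP K p] (W : WeierstrassCurve K) (hW : IsN2 W)
    (h : Gal(Kgs K/K) → ZMod p) (u : Gal(Kgs K/K) → ZMod p → Pt p W 0 (Kgs K))
    (hu : ShaV (fr p W 0) h u) (P : ZMod p → Pt p W 1 (Kgs K)) (hP : ∑ i, P i = 0)
    (huP : ∀ σ, (fun i => (Fi p W 0 (u σ i) : Pt p W 1 (Kgs K))) =
      tac (fr p W 1) (h σ) (σ : Kgs K →ₐ[K] Kgs K) P - P) : SeF p W h 1 P := by
  change ∀ σ, (fun i => frvK hFr hp2 W hW (u σ i)) = tac (fr p W 1) (h σ) (σ : Kgs K →ₐ[K] Kgs K) P - P at huP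
  refine ⟨hP, ?_, ?_⟩
  · intro σ
    refine ⟨u σ, hu.1.sum σ, ?_⟩
    have h1 := huP σ
    change _ = P + fun i => frvK hFr hp2 W hW (u σ i)
    rw [h1]
    abel
  · intro v hv ι
    obtain ⟨Q, hQ0, hQ⟩ := hu.2 v hv ι
    refine ⟨Q, hQ0, ?_⟩
    intro g
    have hr := (hRes p K (Kgs K) v.Completion (Kvs v) ι).2.1 g
    funext i
    have e1 := hQ (rsH (M := v.Completion) ι g) g hr i
    have e2 := frv_comp (fr p W 1) ι (g : Kvs v →ₐ[v.Completion] Kvs v)
      ((rsH (M := v.Completion) ι g : Gal(Kgs K/K)) : Kgs K →ₐ[K] Kgs K) hr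
      (P (i - h (rsH (M := v.Completion) ι g)))
    have e3 : pmap (fr p W 1)
        ((rsH (M := v.Completion) ι g : Gal(Kgs K/K)) : Kgs K →ₐ[K] Kgs K)
        (P (i - h (rsH (M := v.Completion) ι g))) =
        P i + frvK hFr hp2 W hW (u (rsH (M := v.Completion) ι g) i) := by
      have h1 := congrFun (huP (rsH (M := v.Completion) ι g)) i
      rw [h1]
      change _ = P i + (pmap (fr p W 1)
        ((rsH (M := v.Completion) ι g : Gal(Kgs K/K)) : Kgs K →ₐ[K] Kgs K)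
        (P (i - h (rsH (M := v.Completion) ι g))) - P i)
      abel
    have e4 : pmap (fr p W 1) (g : Kvs v →ₐ[v.Completion] Kvs v)
        (pmap (fr p W 1) ι (P (i - h (rsH (M := v.Completion) ι g))) -
        frvV hFr hp2 W hW v (Q (i - h (rsH (M := v.Completion) ι g)))) =
        pmap (fr p W 1) (g : Kvs v →ₐ[v.Completion] Kvs v)
        (pmap (fr p W 1) ι (P (i - h (rsH (M := v.Completion) ι g)))) -
        pmap (fr p W 1) (g : Kvs v →ₐ[v.Completion] Kvs v)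
        (frvV hFr hp2 W hW v (Q (i - h (rsH (M := v.Completion) ι g)))) :=
      map_sub (frvP (fr p W 1) _ _ (g : Kvs v →ₐ[v.Completion] Kvs v)) _ _
    have e5 : pmap (fr p W 1) ι (P i + frvK hFr hp2 W hW
        (u (rsH (M := v.Completion) ι g) i)) = pmap (fr p W 1) ι (P i) +
        pmap (fr p W 1) ι (frvK hFr hp2 W hW (u (rsH (M := v.Completion) ι g) i)) :=
      map_add (frvP (fr p W 1) _ _ ι) _ _
    change pmap (fr p W 1) (g : Kvs v →ₐ[v.Completion] Kvs v)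
      (pmap (fr p W 1) ι (P (i - h (rsH (M := v.Completion) ι g))) -
        frvV hFr hp2 W hW v (Q (i - h (rsH (M := v.Completion) ι g)))) =
      pmap (fr p W 1) ι (P i) - frvV hFr hp2 W hW v (Q i)
    rw [e4, e2, e3, e5, frvK_nat, frvV_nat, e1, map_sub (frvV hFr hp2 W hW v)]
    abel

/-- **Fr1V**. From `E_1` to `E_0`. -/
theorem tFr1VT (hRes : S_Res) (_hBas : S_BasT) (hFr : S_FrT) (_hVh : S_VhT) (_hIt : S_ItT)
    (hShg : S_ShgV) : S_Fr1VT := by
  intro p _ hp2 K _ _ W hW h hh hN hG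
  obtain ⟨hfin, T₁, hT₁, hT⟩ := hG
  obtain ⟨-, hadd, hneg, -, -⟩ := hShg p K (fr p W 0) h hh
  set φ : Pt p W 0 (Kgs K) →+ Pt p W 1 (Kgs K) := frvK hFr hp2 W hW with hφ
  have hφinj : Function.Injective φ := frvH_inj hFr hp2 W hW (Kgs K) _
  have hφtac : ∀ (σ : Gal(Kgs K/K)) (c : ZMod p) (v : ZMod p → Pt p W 0 (Kgs K)),
      tac (fr p W 1) c (σ : Kgs K →ₐ[K] Kgs K) (fun i => φ (v i)) =
        fun i => φ (tac (fr p W 0) c (σ : Kgs K →ₐ[K] Kgs K) v i) := fun σ c v =>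
    frvK_tac hFr hp2 W hW σ c v
  have hmapinj : ∀ v w : ZMod p → Pt p W 0 (Kgs K), (fun i => φ (v i)) = (fun i => φ (w i)) →
      v = w := fun v w hvw => funext fun i => hφinj (congrFun hvw i)
  refine ⟨?_, ?_⟩
  · refine Set.Finite.of_injOn (f := fun v : ZMod p → Pt p W 0 (Kgs K) => fun i => φ (v i))
      (t := RatV (fr p W 1) h) ?_ (fun v _ w _ hvw => hmapinj v w hvw) hfin
    intro v hv
    refine ⟨?_, fun σ => ?_⟩
    · rw [← map_sum, hv.1, map_zero]
    · rw [hφtac, hv.2 σ]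
  · -- choices
    have hZ : ∀ y : Gal(Kgs K/K) → ZMod p → Pt p W 1 (Kgs K),
        ∃ zy : Gal(Kgs K/K) → ZMod p → Pt p W 0 (Kgs K),
        (∃ z, ShaV (fr p W 0) h z ∧ ∃ P' : ZMod p → Pt p W 1 (Kgs K), ∑ i, P' i = 0 ∧ ∀ σ,
          (fun i => φ (z σ i)) - y σ = tac (fr p W 1) (h σ) (σ : Kgs K →ₐ[K] Kgs K) P' - P') →
        ShaV (fr p W 0) h zy ∧ ∃ P' : ZMod p → Pt p W 1 (Kgs K), ∑ i, P' i = 0 ∧ ∀ σ,
          (fun i => φ (zy σ i)) - y σ = tac (fr p W 1) (h σ) (σ : Kgs K →ₐ[K] Kgs K) P' - P' := by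
      intro y
      by_cases hy : ∃ z, ShaV (fr p W 0) h z ∧ ∃ P' : ZMod p → Pt p W 1 (Kgs K), ∑ i, P' i = 0 ∧
          ∀ σ, (fun i => φ (z σ i)) - y σ =
            tac (fr p W 1) (h σ) (σ : Kgs K →ₐ[K] Kgs K) P' - P'
      · obtain ⟨z, hz⟩ := hy
        exact ⟨z, fun _ => hz⟩
      · exact ⟨fun _ => 0, fun h' => absurd h' hy⟩
    choose Z hZ using hZ
    obtain ⟨N, hN⟩ := hN
    obtain ⟨r, Pr, hPr, hPr2⟩ := frv_max (X := ZMod p → Pt p W 1 (Kgs K)) (SeF p W h 1)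
      (fun P P' => ∃ q : ZMod p → Pt p W 0 (Kgs K), ∑ l, q l = 0 ∧
        ∀ l, P l - P' l = Fn p W 1 (q l)) (by
        rintro P P' ⟨q, hq0, hq⟩
        refine ⟨fun l => -q l, ?_, fun l => ?_⟩
        · rw [Finset.sum_neg_distrib, hq0, neg_zero]
        · change P' l - P l = φ (-q l)
          rw [map_neg, ← neg_sub (P l), hq l]
          rfl) N hN
    have hX : ∀ i : Fin r, ∃ x : Gal(Kgs K/K) → ZMod p → Pt p W 0 (Kgs K),
        (∃ x : Gal(Kgs K/K) → ZMod p → Pt p W 0 (Kgs K), ∀ σ, (fun l => φ (x σ l)) =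
          tac (fr p W 1) (h σ) (σ : Kgs K →ₐ[K] Kgs K) (Pr i) - Pr i) →
        ∀ σ, (fun l => φ (x σ l)) =
          tac (fr p W 1) (h σ) (σ : Kgs K →ₐ[K] Kgs K) (Pr i) - Pr i := by
      intro i
      by_cases hi : ∃ x : Gal(Kgs K/K) → ZMod p → Pt p W 0 (Kgs K), ∀ σ, (fun l => φ (x σ l)) =
          tac (fr p W 1) (h σ) (σ : Kgs K →ₐ[K] Kgs K) (Pr i) - Pr i
      · obtain ⟨x, hx⟩ := hi
        exact ⟨x, fun _ => hx⟩
      · exact ⟨fun _ => 0, fun h' => absurd h' hi⟩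
    choose X hX using hX
    refine ⟨(fun q : (Gal(Kgs K/K) → ZMod p → Pt p W 1 (Kgs K)) × Fin r => fun σ =>
      Z q.1 σ + X q.2 σ) '' (T₁ ×ˢ Set.univ), (hT₁.prod Set.finite_univ).image _, ?_⟩
    rintro z hz ⟨n, P, hP0, hnP⟩
    obtain ⟨y, hy, P1, hP10, hP1⟩ := hT (fun σ i => φ (z σ i)) (frv_sha hFr hp2 W hW h z hz)
      ⟨n, fun i => φ (P i), by rw [← map_sum, hP0, map_zero], by
        intro σ
        rw [hφtac]
        funext i
        have h1 := congrFun (hnP σ) i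
        change p ^ n • φ (z σ i) = φ _ - φ (P i)
        rw [← map_sub, ← map_nsmul]
        exact congrArg φ h1⟩
    obtain ⟨hzy, P2, hP20, hP2⟩ := hZ y ⟨z, hz, P1, hP10, hP1⟩
    -- u = z - z_y
    have hu : ShaV (fr p W 0) h (fun σ => z σ - Z y σ) := by
      have h1 := hadd z _ hz (hneg _ hzy)
      simp only [← sub_eq_add_neg] at h1
      exact h1
    have hmsub : ∀ v w : ZMod p → Pt p W 0 (Kgs K), (fun i => φ ((v - w) i)) =
        (fun i => φ (v i)) - (fun i => φ (w i)) := fun v w => funext fun i => map_sub φ _ _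
    have huP : ∀ σ, (fun i => φ ((z σ - Z y σ) i)) =
        tac (fr p W 1) (h σ) (σ : Kgs K →ₐ[K] Kgs K) (P1 - P2) - (P1 - P2) := by
      intro σ
      rw [hmsub, frv_tac_sub]
      have e1 := hP1 σ
      have e2 := hP2 σ
      have e3 : (fun i => φ (z σ i)) - (fun i => φ (Z y σ i)) =
          ((fun i => φ (z σ i)) - y σ) - ((fun i => φ (Z y σ i)) - y σ) := by abel
      rw [e3, e1, e2]
      abel
    have hsum : ∑ i, (P1 - P2) i = 0 := by
      simp only [Pi.sub_apply]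
      rw [Finset.sum_sub_distrib, hP10, hP20, sub_zero]
    have hSel : SeF p W h 1 (P1 - P2) :=
      frv_sef hRes hFr hp2 W hW h _ hu (P1 - P2) hsum huP
    obtain ⟨i, q, hq0, hq⟩ := hPr2 _ hSel
    have hq' : P1 - P2 - Pr i = fun l => φ (q l) := funext fun l => hq l
    have hXi : ∀ σ, (fun l => φ (X i σ l)) =
        tac (fr p W 1) (h σ) (σ : Kgs K →ₐ[K] Kgs K) (Pr i) - Pr i := by
      refine hX i ⟨fun σ => (z σ - Z y σ) -
        (tac (fr p W 0) (h σ) (σ : Kgs K →ₐ[K] Kgs K) q - q), fun σ => ?_⟩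
      have e1 : Pr i = (P1 - P2) - fun l => φ (q l) := by
        rw [← hq']
        abel
      rw [hmsub, huP, hmsub, e1, frv_tac_sub _ _ _ (P1 - P2) (fun l => φ (q l)), hφtac]
      abel
    refine ⟨_, ⟨(y, i), ⟨hy, trivial⟩, rfl⟩, q, hq0, ?_⟩
    intro σ
    apply hmapinj
    have e1 : z σ - (fun σ => Z (y, i).1 σ + X (y, i).2 σ) σ = (z σ - Z y σ) - X i σ := by
      change z σ - (Z y σ + X i σ) = _
      abel
    rw [e1, hmsub, huP, hXi, hmsub]
    have e2 := hφtac σ (h σ) q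
    rw [← e2, ← hq', frv_tac_sub _ _ _ (P1 - P2) (Pr i)]
    abel

end Pool.Agent.MP72P
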