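import Pool.Agent.Lib.MP_72e2e6_nt.P3.E2.Spec
import Pool.Agent.Lib.MP_72e2e6_nt.P3.M.GdT

/-!
# MP_72e2e6_nt, theorem T3p: the statement `S_GdTT` (test system and nondegeneracy, every `p`)
-/

namespace Pool.Agent.MP72P

theorem tGdTT (hHas : S_Has) (hHst : S_Hst) (hRgo : S_Rgo) (hLts : S_Lts) (hGdx : S_Gdx) :
    S_GdTT :=
  fun p _ K _ _ hK J _ av α h hs hc hsha hb ι =>
    gdt_main hHas hHst hRgo hLts hGdx p K hK J av α h hs hc hsha hb ι

end Pool.Agent.MP72P
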