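import Pool.Agent.Lib.MP_72e2e6_nt.P3.E2.Spec

/-!
# MP_72e2e6_nt, theorem T3p, the case `p = 2`, part F: `W(K)` has finite index in `W(K(θ))`
-/

namespace Pool.Agent.MP72P

open WeierstrassCurve IntermediateField
open Pool.Agent.MP72W (pmap)
open Pool.Agent.MP72V

open scoped Classical

section

variable {K S L M N : Type} [Field K] (W : WeierstrassCurve K) [Field S] [Field L] [Field M]
  [Field N] [Algebra K S] [Algebra K L] [Algebra K M] [Algebra K N] [Algebra S L] [Algebra S M]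
  [Algebra S N] [IsScalarTower K S L] [IsScalarTower K S M] [IsScalarTower K S N]

private theorem ix_add [dL : DecidableEq L] [dM : DecidableEq M] (f : L →ₐ[S] M)
    (P Q : (W⁄L).toAffine.Point) : pmap W f (P + Q) = pmap W f P + pmap W f Q := by
  have h1 : dL = fun a b => Classical.propDecidable (a = b) := Subsingleton.elim _ _
  have h2 : dM = fun a b => Classical.propDecidable (a = b) := Subsingleton.elim _ _
  subst h1 h2
  exact AddMonoidHom.map_add _ P Q

private theorem ix_sub [dL : DecidableEq L] [dM : DecidableEq M] (f : L →ₐ[S] M)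
    (P Q : (W⁄L).toAffine.Point) : pmap W f (P - Q) = pmap W f P - pmap W f Q := by
  have h1 : dL = fun a b => Classical.propDecidable (a = b) := Subsingleton.elim _ _
  have h2 : dM = fun a b => Classical.propDecidable (a = b) := Subsingleton.elim _ _
  subst h1 h2
  exact AddMonoidHom.map_sub _ P Q

private theorem ix_comp (f : L →ₐ[S] M) (g : M →ₐ[S] N) (P : (W⁄L).toAffine.Point) :
    pmap W g (pmap W f P) = pmap W (g.comp f) P := by
  cases P <;> rfl

end

section

variable {K : Type} [Field K] (W : WeierstrassCurve K)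

private theorem ix_act_mul (a b : Gal(Kgs K/K)) (P : (W⁄(Kgs K)).toAffine.Point) :
    pmap W ((a * b : Gal(Kgs K/K)) : Kgs K →ₐ[K] Kgs K) P =
      pmap W (a : Kgs K →ₐ[K] Kgs K) (pmap W (b : Kgs K →ₐ[K] Kgs K) P) := by
  rw [ix_comp]
  rfl

private theorem ix_fix (θ : Kgs K) (σ : Gal(Kgs K/K)) (h : σ θ = θ)
    (P : (W⁄(K⟮θ⟯)).toAffine.Point) :
    pmap W (σ : Kgs K →ₐ[K] Kgs K) (pmap W (K⟮θ⟯).val P) = pmap W (K⟮θ⟯).val P := by
  rw [ix_comp]
  have : (σ : Kgs K →ₐ[K] Kgs K).comp (K⟮θ⟯).val = (K⟮θ⟯).val := by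
    refine AlgHom.ext fun x => ?_
    have := (IntermediateField.forall_mem_adjoin_smul_eq_self_iff K (S := {θ}) σ).2 (by
      intro x hx
      rw [Set.mem_singleton_iff.1 hx]
      exact h) x x.2
    exact this
  rw [this]

private theorem ix_mem (F : IntermediateField K (Kgs K)) (P : (W⁄F).toAffine.Point)
    (h : ∀ σ : Gal(Kgs K/K), pmap W (σ : Kgs K →ₐ[K] Kgs K) (pmap W F.val P) = pmap W F.val P) :
    P ∈ (Affine.Point.map (W' := W.toAffine) (Algebra.ofId K F)).range := by
  rcases P with _ | ⟨x, y, hxy⟩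
  · exact ⟨0, rfl⟩
  · have h1 : ∀ σ : Gal(Kgs K/K), σ (x : Kgs K) = x ∧ σ (y : Kgs K) = y := by
      intro σ
      have := h σ
      have e := Affine.Point.some.inj this
      exact ⟨e.1, e.2⟩
    obtain ⟨x₀, hx₀⟩ := (InfiniteGalois.mem_bot_iff_fixed (k := K) (x : Kgs K)).2 fun σ => (h1 σ).1
    obtain ⟨y₀, hy₀⟩ := (InfiniteGalois.mem_bot_iff_fixed (k := K) (y : Kgs K)).2 fun σ => (h1 σ).2
    have hx : algebraMap K F x₀ = x := Subtype.ext hx₀
    have hy : algebraMap K F y₀ = y := Subtype.ext hy₀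
    have hn : (W⁄K).toAffine.Nonsingular x₀ y₀ := by
      refine (W.toAffine.baseChange_nonsingular (Algebra.ofId K F).injective x₀ y₀).1 ?_
      have e1 : (Algebra.ofId K F) x₀ = x := hx
      have e2 : (Algebra.ofId K F) y₀ = y := hy
      rw [e1, e2]
      exact hxy
    refine ⟨.some x₀ y₀ hn, ?_⟩
    rw [Affine.Point.map_some, Affine.Point.some.injEq]
    exact ⟨hx, hy⟩

end

theorem tIdxET (_h1 : S_BasT) : S_IdxET := by
  intro p _ hp2 K _ _ W hW D θ h hθ hσ hh hne hfin
  have hp := (Fact.out : p.Prime)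
  have h1 : h 1 = 0 := by
    have := hh.add 1 1
    rw [mul_one] at this
    exact left_eq_add.1 this
  have hpow : ∀ (g : Gal(Kgs K/K)) (n : ℕ), h (g ^ n) = n * h g := by
    intro g n
    induction n with
    | zero => simp [h1]
    | succ n ih =>
      rw [pow_succ, hh.add, ih]
      push_cast
      ring
  have hsur : ∀ c : ZMod p, ∃ g, h g = c := by
    intro c
    obtain ⟨g, hg⟩ := hne
    refine ⟨g ^ (c / h g).val, ?_⟩
    rw [hpow, ZMod.natCast_zmod_val, div_mul_cancel₀ _ hg]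
  choose s hs using hsur
  have key : ∀ (P : (W⁄(K⟮θ⟯)).toAffine.Point) (a b : Gal(Kgs K/K)), h a = h b →
      pmap W (a : Kgs K →ₐ[K] Kgs K) (pmap W (K⟮θ⟯).val P) =
        pmap W (b : Kgs K →ₐ[K] Kgs K) (pmap W (K⟮θ⟯).val P) := by
    intro P a b hab
    have e1 : h (b⁻¹ * a) = 0 := by
      have e2 := hh.add b (b⁻¹ * a)
      rw [mul_inv_cancel_left, hab] at e2
      exact left_eq_add.1 e2
    have e2 : (b⁻¹ * a) θ = θ := by
      rw [hσ, e1, ZMod.val_zero, Nat.cast_zero, add_zero]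
    have e3 := ix_act_mul W b (b⁻¹ * a) (pmap W (K⟮θ⟯).val P)
    rw [mul_inv_cancel_left, ix_fix W θ _ e2] at e3
    exact e3
  let u : (W⁄(K⟮θ⟯)).toAffine.Point → ZMod p → (W⁄(Kgs K)).toAffine.Point := fun P i =>
    pmap W (s i : Kgs K →ₐ[K] Kgs K) (pmap W (K⟮θ⟯).val P)
  have hu : ∀ P σ i, pmap W ((σ : Gal(Kgs K/K)) : Kgs K →ₐ[K] Kgs K) (u P i) = u P (h σ + i) := by
    intro P σ i
    change pmap W _ (pmap W _ _) = _
    rw [← ix_act_mul]
    exact key P _ _ (by rw [hh.add, hs, hs])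
  have hu0 : ∀ P, u P 0 = pmap W (K⟮θ⟯).val P := by
    intro P
    exact ix_fix W θ _ (by rw [hσ, hs, ZMod.val_zero, Nat.cast_zero, add_zero]) P
  let Φ : (W⁄(K⟮θ⟯)).toAffine.Point →+ (ZMod p → (W⁄(Kgs K)).toAffine.Point) :=
    AddMonoidHom.mk' (fun P i => u P (i + 1) - u P i) (by
      intro P Q
      funext i
      have : ∀ i, u (P + Q) i = u P i + u Q i := by
        intro i
        change pmap W _ (pmap W _ _) = _
        rw [ix_add, ix_add]
      rw [Pi.add_apply, this, this]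
      abel)
  have hΦ : ∀ P i, Φ P i = u P (i + 1) - u P i := fun _ _ => rfl
  have hran : ∀ P, Φ P ∈ RatV W h := by
    intro P
    refine ⟨?_, fun σ => funext fun i => ?_⟩
    · simp only [hΦ, Finset.sum_sub_distrib]
      rw [sub_eq_zero]
      exact Equiv.sum_comp (Equiv.addRight (1 : ZMod p)) (u P)
    · change pmap W _ (Φ P (i - h σ)) = Φ P i
      rw [hΦ, hΦ, ix_sub, hu, hu, add_sub_cancel, ← add_assoc, add_sub_cancel]
  have : Finite Φ.range := by
    refine (hfin.subset ?_ : (Φ.range : Set (ZMod p → (W⁄(Kgs K)).toAffine.Point)).Finite)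
    rintro _ ⟨P, rfl⟩
    exact hran P
  have : Φ.ker.FiniteIndex := inferInstance
  refine AddSubgroup.finiteIndex_of_le (H := Φ.ker) fun P hP => ix_mem W _ P fun σ => ?_
  have hP' : ∀ i, u P (i + 1) = u P i := fun i => sub_eq_zero.1 (congrFun hP i)
  have hc : ∀ n : ℕ, u P n = u P 0 := by
    intro n
    induction n with
    | zero => rw [Nat.cast_zero]
    | succ n ih => rw [Nat.cast_succ, hP', ih]
  rw [← hu0, hu, add_zero, ← ZMod.natCast_zmod_val (h σ), hc]

end Pool.Agent.MP72P
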