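import Pool.Agent.Lib.MP_72e2e6_nt.P3.E2.Spec

/-!
# MP_72e2e6_nt, theorem T3p, the case `p = 2`, part E: one hundred percent of the `D`
-/

set_option autoImplicit false

namespace Pool.Agent.MP72P

open WeierstrassCurve
open Pool.Agent.MP72W (pmap)
open Pool.Agent.MP72V

open scoped Classical

section

variable {K S L M : Type} [Field K] (W : WeierstrassCurve K) [Field S] [Field L]
  [Field M] [Algebra K S] [Algebra K L] [Algebra K M] [Algebra S L] [Algebra S M]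
  [IsScalarTower K S L] [IsScalarTower K S M]

private theorem man_nsmul0 [dL : DecidableEq L] [dM : DecidableEq M]
    (f : L →ₐ[S] M) (n : ℕ) (P : (W⁄L).toAffine.Point) : pmap W f (n • P) = n • pmap W f P := by
  have h1 : dL = fun a b => Classical.propDecidable (a = b) := Subsingleton.elim _ _
  have h2 : dM = fun a b => Classical.propDecidable (a = b) := Subsingleton.elim _ _
  subst h1 h2
  exact AddMonoidHom.map_nsmul _ _ _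

private theorem man_ns0 (dL : DecidableEq L) (dM : DecidableEq M)
    (f : L →ₐ[S] M) (n : ℕ) (P : (W⁄L).toAffine.Point) (h : n • P = 0) : n • pmap W f P = 0 := by
  rw [← man_nsmul0, h]
  rfl

private theorem man_inj (f : L →ₐ[S] M) : Function.Injective (pmap W f) :=
  Affine.Point.map_injective f

private theorem man_zero (f : L →ₐ[S] M) : pmap W f 0 = 0 := rfl

end

private theorem man_mod {Λ : Type} [CommRing Λ] {N : ℕ} (hN : ((N : ℕ) : Λ) = 0) (m : ℕ) :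
    ((m % N : ℕ) : Λ) = (m : Λ) := by
  conv_rhs => rw [← Nat.div_add_mod m N]
  rw [Nat.cast_add, Nat.cast_mul, hN, zero_mul, zero_add]

private theorem man_hom {Λ : Type} [CommRing Λ] {N : ℕ} [NeZero N] (hN : ((N : ℕ) : Λ) = 0) :
    ∃ F : ZMod N →+* Λ, ∀ x, F x = ((x.val : ℕ) : Λ) := by
  refine ⟨⟨⟨⟨fun x => ((x.val : ℕ) : Λ), ?_⟩, fun a b => ?_⟩, ?_, fun a b => ?_⟩, fun x => rfl⟩
  · show (((1 : ZMod N).val : ℕ) : Λ) = 1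
    rw [ZMod.val_one_eq_one_mod, man_mod hN, Nat.cast_one]
  · show (((a * b : ZMod N).val : ℕ) : Λ) = _
    rw [ZMod.val_mul, man_mod hN, Nat.cast_mul]
  · show (((0 : ZMod N).val : ℕ) : Λ) = 0
    rw [ZMod.val_zero, Nat.cast_zero]
  · show (((a + b : ZMod N).val : ℕ) : Λ) = _
    rw [ZMod.val_add, man_mod hN, Nat.cast_add]

private theorem man_chr {p : ℕ} [Fact p.Prime] {G : Type} [Group G] [TopologicalSpace G]
    {ω : G → ZMod p} {m n : ℕ} {Λ : Type} [CommRing Λ] {π : Λ} (hL : LR p n π)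
    (hc : ((p ^ m : ℕ) : Λ) = 0) {ψ : G → ZMod (p ^ m)} (hl : IsLocallyConstant ψ) (h1 : ψ 1 = 1)
    (hm : ∀ a b, ψ (a * b) = ψ a * ψ b)
    (hr : ∀ a, ∃ y, ψ a = ((ω a).val : ZMod (p ^ m)) + p * y) :
    Chr π ω (fun g => ((ψ g).val : Λ)) := by
  have : NeZero (p ^ m) := ⟨pow_ne_zero _ (Fact.out : p.Prime).ne_zero⟩
  obtain ⟨F, hF⟩ := man_hom hc
  obtain ⟨z, hz⟩ := hL.pdv
  refine ⟨hl.comp fun x => ((x.val : ℕ) : Λ), ?_, fun a b => ?_, fun a => ?_⟩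
  · show ((ψ 1).val : Λ) = 1
    rw [← hF, h1, map_one]
  · show ((ψ (a * b)).val : Λ) = ((ψ a).val : Λ) * ((ψ b).val : Λ)
    rw [← hF, ← hF, ← hF, hm, map_mul]
  · obtain ⟨y, hy⟩ := hr a
    refine ⟨z * F y, ?_⟩
    show ((ψ a).val : Λ) = _
    rw [← hF, hy, map_add, map_mul, map_natCast, map_natCast, hz, mul_assoc]

private theorem man_FS {K : Type} [Field K] {J : Type} (av : J → AbsoluteValue K ℝ) {e e' : ℕ}
    (h : e ≤ e') : FS av e ≤ FS av e' := by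
  intro x hx j hj
  exact (hx j hj).trans (pow_le_pow_right₀ (by norm_num) h)

private theorem man_num {p k d n₁ n₂ a b : ℕ} {l : ℝ} (hp : 0 < p)
    (hM : p * l ^ 2 * (2 + (n₁ : ℕ) * (p : ℝ) ^ d) * (2 + (n₂ : ℕ) * (p : ℝ) ^ d) ≤ (p : ℝ) ^ k)
    (ha : (a : ℝ) < l * ((p : ℝ) ^ n₁ * (1 + n₁ * (p : ℝ) ^ d + 1)))
    (hb : (b : ℝ) < l * ((p : ℝ) ^ n₂ * (1 + n₂ * (p : ℝ) ^ d + 1))) :
    p * a * b < p ^ k * (p ^ n₁ * p ^ n₂) := by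
  have hp' : (0 : ℝ) < p := by exact_mod_cast hp
  have h1 : (a : ℝ) * b < (l * ((p : ℝ) ^ n₁ * (1 + n₁ * (p : ℝ) ^ d + 1))) *
      (l * ((p : ℝ) ^ n₂ * (1 + n₂ * (p : ℝ) ^ d + 1))) :=
    mul_lt_mul'' ha hb (Nat.cast_nonneg _) (Nat.cast_nonneg _)
  have h2 : (p : ℝ) * (a * b) < p * ((l * ((p : ℝ) ^ n₁ * (1 + n₁ * (p : ℝ) ^ d + 1))) *
      (l * ((p : ℝ) ^ n₂ * (1 + n₂ * (p : ℝ) ^ d + 1)))) := mul_lt_mul_of_pos_left h1 hp'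
  have h3 : (p : ℝ) * ((l * ((p : ℝ) ^ n₁ * (1 + n₁ * (p : ℝ) ^ d + 1))) *
      (l * ((p : ℝ) ^ n₂ * (1 + n₂ * (p : ℝ) ^ d + 1)))) =
      (p * l ^ 2 * (2 + (n₁ : ℕ) * (p : ℝ) ^ d) * (2 + (n₂ : ℕ) * (p : ℝ) ^ d)) *
        ((p : ℝ) ^ n₁ * (p : ℝ) ^ n₂) := by ring
  have h4 : (p * l ^ 2 * (2 + (n₁ : ℕ) * (p : ℝ) ^ d) * (2 + (n₂ : ℕ) * (p : ℝ) ^ d)) *
        ((p : ℝ) ^ n₁ * (p : ℝ) ^ n₂) ≤ (p : ℝ) ^ k * ((p : ℝ) ^ n₁ * (p : ℝ) ^ n₂) :=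
    mul_le_mul_of_nonneg_right hM (by positivity)
  have h5 : (p : ℝ) * (a * b) < (p : ℝ) ^ k * ((p : ℝ) ^ n₁ * (p : ℝ) ^ n₂) :=
    lt_of_lt_of_le (h3 ▸ h2) h4
  have h6 : ((p * a * b : ℕ) : ℝ) < ((p ^ k * (p ^ n₁ * p ^ n₂) : ℕ) : ℝ) := by
    push_cast
    rw [mul_assoc]
    exact h5
  exact_mod_cast h6

/-- **Man**. One hundred percent of the `D`. -/
theorem tManT (_hLrb : S_Lrb) (hLfn : S_Lfn) (hThA : S_ThA2) (_hHst : S_Hst) (hIt : S_ItT)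
    (hPsi : S_PsiVT) (hDep : S_Dep) (hMrk : S_Mrk) (hOne : S_OneVT) : S_ManT := by
  intro p hp hp2 K _ _ hG W hW J av α h₀ hHS ι T t w₀ d e hLT y₀ B N0 hGd T₀ hT0 hpT hωT hUn
    hWu hLo hEn ε hε
  obtain ⟨hMk1, hMk2⟩ := hMrk
  obtain ⟨-, -, -, -, -, hnat, -, -, -, -⟩ := hIt p hp2 K W hW (Kgs K)
  have hl : (0 : ℝ) < 4 / ε := by positivity
  obtain ⟨k, hk, hkb⟩ := hMk2 p hp.out d (4 / ε) hl
  obtain ⟨Q, ψ, hQT, hQ, hψl, hψ1, hψm, hψr, hψQ⟩ := hPsi p hp2 K hG W hW J av α h₀ hHS T₀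
    hT0 hpT hωT k (hUn k)
  obtain ⟨Λ₁, _, π₁, φ₁, a1, a2, a3, a4, a5, a6, a7, -⟩ := hLfn p (k + 1)
  have hΛ₁ : IsLam p (k + 1) π₁ φ₁ := ⟨a1, a2, a3, a4, a5, a6, a7⟩
  obtain ⟨Λ₂, _, π₂, φ₂, b1, b2, b3, b4, b5, b6, b7, -⟩ := hLfn p k
  have hΛ₂ : IsLam p k π₂ φ₂ := ⟨b1, b2, b3, b4, b5, b6, b7⟩
  have hc1 : Chr π₁ (omS p av α) (fun g => ((ψ g).val : Λ₁)) :=
    man_chr a1 a2 hψl hψ1 hψm hψr
  have b2' : ((p ^ (k + 1) : ℕ) : Λ₂) = 0 := by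
    rw [pow_succ, Nat.cast_mul, b2, zero_mul]
  have hc2 : Chr π₂ (omS p av α) (fun g => ((ψ g).val : Λ₂)) :=
    man_chr b1 b2' hψl hψ1 hψm hψr
  obtain ⟨e₁, he₁⟩ := hThA p (GS p av α) J (OS av) d (fmS p av α ι B) _ N0 hGd _ Λ₁ π₁ a1 _ hc1 1
    one_pos
  obtain ⟨e₂, he₂⟩ := hThA p (GS p av α) J (OS av) d (fmS p av α ι B) _ N0 hGd _ Λ₂ π₂ b1 _ hc2 1
    one_pos
  have hJ : Finite J := hHS.fin
  obtain ⟨j0⟩ := hHS.nem
  choose Mf hMf using hLo k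
  obtain ⟨M, hM0, hM⟩ : ∃ M : ℝ, 0 < M ∧ ∀ j, Mf j ≤ M := by
    obtain ⟨M, hM⟩ := (Set.finite_range Mf).bddAbove
    exact ⟨max M 1, lt_max_of_lt_right one_pos, fun j => le_max_of_le_left (hM ⟨j, rfl⟩)⟩
  obtain ⟨e₃, he₃⟩ := hDep p K hG J av hHS.pls M (ε / 4) (by positivity)
  refine ⟨max e₁ (max e₂ e₃), fun 𝒟 hfin hF => ?_⟩
  have h1 := he₁ 𝒟 hfin ((man_FS av (le_max_left _ _)).trans hF)
  have h2 := he₂ 𝒟 hfin ((man_FS av ((le_max_left _ _).trans (le_max_right _ _))).trans hF)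
  have h3 := he₃ 𝒟 hfin ((man_FS av ((le_max_right _ _).trans (le_max_right _ _))).trans hF)
  have hcd : (Nat.card 𝒟 : ℝ) = ((𝒟 : Set (OS av)).ncard : ℝ) := by
    rw [← Nat.card_coe_set_eq]
    rfl
  have hp0 : (0 : ℝ) < p := by exact_mod_cast hp.out.pos
  rw [hcd] at h1 h2 h3 ⊢
  have m1 := hMk1 (OS av) 𝒟 hfin _ (fun _ => Nat.cast_nonneg _) _ (4 / ε) (by positivity) hl h1
  have m2 := hMk1 (OS av) 𝒟 hfin _ (fun _ => Nat.cast_nonneg _) _ (4 / ε) (by positivity) hl h2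
  rw [inv_div] at m1 m2
  -- the good `D`
  have key : ∀ D : OS av, D ∈ 𝒟 → ¬ GdV (fr p W 0) (hD p (D : K)) →
      (4 / ε * ((p : ℝ) ^ ((k + 1) * (p - 1)) * (1 + ((k + 1) * (p - 1) : ℕ) * (p : ℝ) ^ d + 1)) ≤
        ((Ker (rL (tw π₁ (fun g => ((ψ g).val : Λ₁)) (hS p av α D))) (DS p av α ι)).ncard : ℝ)) ∨
      (4 / ε * ((p : ℝ) ^ (k * (p - 1)) * (1 + (k * (p - 1) : ℕ) * (p : ℝ) ^ d + 1)) ≤
        ((Ker (rL (tw π₂ (fun g => ((ψ g).val : Λ₂)) (hS p av α D))) (DS p av α ι)).ncard : ℝ)) ∨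
      ∃ j, ∃ y : (av j).Completion,
          ‖algebraMap K (av j).Completion (D : K) - (y ^ p - y)‖ < M := by
    intro D hDm hng
    by_contra hcon
    push Not at hcon
    obtain ⟨c1, c2, c3⟩ := hcon
    refine hng ?_
    have hDx : ¬ ∃ x : K, x ^ p - x = D := by
      rintro ⟨x, hx⟩
      have := c3 j0 (algebraMap K (av j0).Completion x)
      rw [← hx, map_sub, map_pow, sub_self, norm_zero] at this
      exact absurd hM0 (not_lt.2 this)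
    refine hOne p hp2 K hG W hW J av α h₀ hHS ι T t w₀ d e hLT y₀ hGd.ok D D.2 hDx k hk Q hQ ψ
      hψl hψ1 hψm hψr hψQ (hUn k) (hWu k) (fun j => ?_) (hEn k hk D D.2 hDx) Λ₁ π₁ φ₁ hΛ₁ Λ₂ π₂ φ₂
      hΛ₂ ?_
    · refine hMf j D (fun y => (hM j).trans (c3 j y)) _ ⟨?_, ?_⟩
      · rw [← (hnat k _ _ (ι j)).2]
        intro h
        exact hQ.1 (man_inj (fr p W 0) (ι j) (by rw [h, man_zero]))
      · rw [← (hnat k _ _ (ι j)).2]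
        exact man_ns0 (fr p W 0) _ _ (ι j) p _ hQ.2
    · exact man_num hp.out.pos hkb c1 c2
  have hsub : {D : OS av | D ∈ 𝒟 ∧ ¬ GdV (fr p W 0) (hD p (D : K))} ⊆
      ({D : OS av | D ∈ (𝒟 : Set (OS av)) ∧ 4 / ε * ((p : ℝ) ^ ((k + 1) * (p - 1)) * (1 + ((k + 1) * (p - 1) : ℕ) * (p : ℝ) ^ d + 1)) ≤
        ((Ker (rL (tw π₁ (fun g => ((ψ g).val : Λ₁)) (hS p av α D))) (DS p av α ι)).ncard : ℝ)} ∪
      {D : OS av | D ∈ (𝒟 : Set (OS av)) ∧ 4 / ε * ((p : ℝ) ^ (k * (p - 1)) * (1 + (k * (p - 1) : ℕ) * (p : ℝ) ^ d + 1)) ≤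
        ((Ker (rL (tw π₂ (fun g => ((ψ g).val : Λ₂)) (hS p av α D))) (DS p av α ι)).ncard : ℝ)}) ∪
      {D : OS av | D ∈ 𝒟 ∧ ∃ j, ∃ y : (av j).Completion,
          ‖algebraMap K (av j).Completion (D : K) - (y ^ p - y)‖ < M} := by
    rintro D ⟨hDm, hDn⟩
    rcases key D hDm hDn with h | h | h
    · exact Or.inl (Or.inl ⟨hDm, h⟩)
    · exact Or.inl (Or.inr ⟨hDm, h⟩)
    · exact Or.inr ⟨hDm, h⟩
  have hle := Set.ncard_le_ncard hsub (((hfin.subset fun D hD => hD.1).union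
    (hfin.subset fun D hD => hD.1)).union (hfin.subset fun D hD => hD.1))
  have hle2 := hle.trans ((Set.ncard_union_le _ _).trans
    (Nat.add_le_add_right (Set.ncard_union_le _ _) _))
  have hle3 : ({D : OS av | D ∈ 𝒟 ∧ ¬ GdV (fr p W 0) (hD p (D : K))}.ncard : ℝ) ≤
      ε / 4 * ((𝒟 : Set (OS av)).ncard : ℝ) + ε / 4 * ((𝒟 : Set (OS av)).ncard : ℝ) +
        ε / 4 * ((𝒟 : Set (OS av)).ncard : ℝ) := by
    refine (Nat.cast_le.2 hle2).trans ?_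
    rw [Nat.cast_add, Nat.cast_add]
    exact add_le_add (add_le_add m1 m2) h3
  have hn : (0 : ℝ) ≤ ((𝒟 : Set (OS av)).ncard : ℝ) := Nat.cast_nonneg _
  nlinarith [mul_nonneg hε.le hn]

end Pool.Agent.MP72P
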