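import Pool.Agent.Lib.MP_72e2e6_nt.P3.E2.Spec

/-!
# MP_72e2e6_nt, theorem T3p, the case `p = 2`, part F: the Selmer vectors for `E_0 → E_1` are finite in number
-/

namespace Pool.Agent.MP72P

open WeierstrassCurve IntermediateField
open Pool.Agent.MP72W (pmap)
open Pool.Agent.MP72V

open scoped Classical

/-- **Nbd**. The Selmer vectors for `E_0 → E_1` are finite in number. -/
theorem tNbdT : S_Lrb → S_Lfn → S_Hst → S_Rgo → S_ItT → S_FST → S_NbdT := by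
  intro _ hLfn hHst hRgo _ hFS p _ hp2 K _ _ hK W hNf J av α h₀ hHS ι T t w₀ d e hL y₀ hOk R hR hσR
    hWu D hDm
  obtain ⟨Λ, _, π, φ, l1, l2, l3, l4, l5, l6, l7, -⟩ := hLfn p 1
  have hLam : IsLam p 1 π φ := ⟨l1, l2, l3, l4, l5, l6, l7⟩
  obtain ⟨-, -, -, -, -, -, hω, -⟩ := hHst p K hK J av α h₀ hHS
  obtain ⟨-, -, -, hrω, -⟩ := hRgo p K hK J av α h₀ hHS
  let c : ZMod p →+* ZMod (p ^ 1) := ZMod.castHom (by rw [pow_one]) (ZMod (p ^ 1))
  have hc : ∀ x : ZMod p, c x = ((x.val : ℕ) : ZMod (p ^ 1)) := fun x => by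
    change (ZMod.castHom _ (ZMod (p ^ 1))) x = _
    rw [ZMod.castHom_apply, ZMod.natCast_val]
  refine ⟨(Ker (rL (tw π (fun g => (((c (omS p av α g)).val : ℕ) : Λ)) (hS p av α D)))
    (DS p av α ι)).ncard, fun n P hP hdis => ?_⟩
  have h1 := hFS p hp2 K hK W hNf J av α h₀ hHS ι T t w₀ d e hL y₀ hOk D hDm 1 le_rfl R hR
    (fun g => c (omS p av α g)) (hω.loc.comp c) (by rw [hω.one, map_one])
    (fun a b => by rw [hω.mul, map_mul]) (fun a => ⟨0, by rw [hc, mul_zero, add_zero]⟩)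
    (fun σ => by
      rw [hσR σ, hrω σ, hc, ZMod.val_natCast, Nat.mod_eq_of_lt]
      rw [pow_one]
      exact ZMod.val_lt _) hWu Λ π φ hLam n P hP hdis
  refine le_trans ?_ h1
  exact Nat.le_mul_of_pos_right n (pow_pos (Fact.out : p.Prime).pos _)

end Pool.Agent.MP72P
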