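import Pool.Agent.Lib.MP_72e2e6_nt.P3.E2.Spec

/-!
# MP_72e2e6_nt, theorem T3p, the case `p = 2`, part E: the points `Q` and the characters `ψ`
-/

namespace Pool.Agent.MP72P

open WeierstrassCurve
open Pool.Agent.MP72W (pmap)
open Pool.Agent.MP72V

open scoped Classical

section pts

variable {K L : Type} [Field K] [Field L] [Algebra K L] (W : WeierstrassCurve K)

private theorem psv_congr (f g : L →ₐ[K] L) {x y : L}
    (h : (W⁄L).toAffine.Nonsingular x y) (hx : f x = g x) (hy : f y = g y) :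
    pmap W f (Affine.Point.some x y h) = pmap W g (Affine.Point.some x y h) := by
  unfold pmap
  rw [Affine.Point.map_some, Affine.Point.map_some, Affine.Point.some.injEq]
  exact ⟨hx, hy⟩

private theorem psv_mul (σ τ : Gal(L/K)) (P : (W⁄L).toAffine.Point) :
    pmap W ((σ * τ : Gal(L/K)) : L →ₐ[K] L) P =
      pmap W (σ : L →ₐ[K] L) (pmap W (τ : L →ₐ[K] L) P) := by
  cases P with
  | zero => rfl
  | some x y h =>
    unfold pmap
    rw [Affine.Point.map_some, Affine.Point.map_some, Affine.Point.map_some,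
      Affine.Point.some.injEq]
    exact ⟨rfl, rfl⟩

private theorem psv_one (P : (W⁄L).toAffine.Point) :
    pmap W ((1 : Gal(L/K)) : L →ₐ[K] L) P = P := by
  cases P with
  | zero => rfl
  | some x y h =>
    unfold pmap
    rw [Affine.Point.map_some, Affine.Point.some.injEq]
    exact ⟨rfl, rfl⟩

private theorem psv_loc [IsGalois K L] (P : (W⁄L).toAffine.Point) :
    IsLocallyConstant fun σ : Gal(L/K) => pmap W (σ : L →ₐ[K] L) P := by
  have hop : ∀ (σ : Gal(L/K)) (x : L), IsOpen {τ : Gal(L/K) | τ x = σ x} := by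
    intro σ x
    have h1 : IsOpen (MulAction.stabilizer Gal(L/K) x : Set Gal(L/K)) :=
      stabilizer_isOpen_of_isIntegral x
    have h2 := h1.preimage (continuous_const_mul σ⁻¹)
    have h3 : {τ : Gal(L/K) | τ x = σ x} = (fun τ => σ⁻¹ * τ) ⁻¹'
        (MulAction.stabilizer Gal(L/K) x : Set Gal(L/K)) := by
      ext τ
      rw [Set.mem_preimage, SetLike.mem_coe, MulAction.mem_stabilizer_iff, mul_smul,
        inv_smul_eq_iff]
      exact Iff.rfl
    rw [h3]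
    exact h2
  rw [IsLocallyConstant.iff_exists_open]
  intro σ
  cases P with
  | zero => exact ⟨Set.univ, isOpen_univ, trivial, fun τ _ => rfl⟩
  | some x y h =>
    refine ⟨{τ | τ x = σ x} ∩ {τ | τ y = σ y}, (hop σ x).inter (hop σ y), ⟨rfl, rfl⟩, ?_⟩
    rintro τ ⟨hx, hy⟩
    have hx' : τ x = σ x := hx
    have hy' : τ y = σ y := hy
    exact psv_congr W (τ : L →ₐ[K] L) (σ : L →ₐ[K] L) h hx' hy'

end pts

section grp

variable {A : Type} [AddCommGroup A] {N : ℕ}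

private theorem psv_inj [NeZero N] {Q : A} (hQ : addOrderOf Q = N) {x y : ZMod N}
    (h : x.val • Q = y.val • Q) : x = y := by
  rw [nsmul_inj_mod, hQ, Nat.mod_eq_of_lt (ZMod.val_lt x), Nat.mod_eq_of_lt (ZMod.val_lt y)] at h
  exact ZMod.val_injective N h

private theorem psv_nat {Q : A} (hQ : addOrderOf Q = N) (n : ℕ) :
    ((n : ZMod N)).val • Q = n • Q := by
  rw [ZMod.val_natCast, ← hQ, mod_addOrderOf_nsmul]

private theorem psv_mulQ [NeZero N] {Q : A} (hQ : addOrderOf Q = N) (x y : ZMod N) :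
    (x * y).val • Q = y.val • (x.val • Q) := by
  have h : x * y = ((y.val * x.val : ℕ) : ZMod N) := by
    rw [Nat.cast_mul, ZMod.natCast_zmod_val, ZMod.natCast_zmod_val, mul_comm]
  rw [h, psv_nat hQ, mul_smul]

end grp

/-- The character on a Galois group, for a point `Q` as in `S_VSrT`. -/
private theorem psv_char {p : ℕ} [hp : Fact p.Prime] {K : Type} [Field K] (W : WeierstrassCurve K)
    {L : Type} [Field L] [Algebra K L] [IsGalois K L] (k : ℕ) (I : DecidableEq L) (Q : Pt p W k L)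
    (hord : addOrderOf Q = p ^ (k + 1)) (ψ : Gal(L/K) → ZMod (p ^ (k + 1)))
    (hψ : ∀ σ : Gal(L/K), pmap (fr p W k) (σ : L →ₐ[K] L) Q = (ψ σ).val • Q) :
    IsLocallyConstant ψ ∧ ψ 1 = 1 ∧ ∀ σ τ, ψ (σ * τ) = ψ σ * ψ τ := by
  obtain rfl : I = fun a b => Classical.propDecidable (a = b) := Subsingleton.elim _ _
  have : NeZero (p ^ (k + 1)) := ⟨pow_ne_zero _ hp.out.ne_zero⟩
  refine ⟨?_, ?_, ?_⟩
  · have h1 := psv_loc (fr p W k) Q
    rw [IsLocallyConstant.iff_exists_open] at h1 ⊢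
    intro σ
    obtain ⟨U, hU, hσ, hUc⟩ := h1 σ
    refine ⟨U, hU, hσ, fun τ hτ => ?_⟩
    refine psv_inj hord ?_
    rw [← hψ, ← hψ]
    exact hUc τ hτ
  · refine psv_inj hord ?_
    have h2 : ((1 : ZMod (p ^ (k + 1))).val) • Q = Q := by
      have h3 := psv_nat hord 1
      rw [Nat.cast_one, one_smul] at h3
      exact h3
    rw [h2, ← hψ]
    exact psv_one (fr p W k) Q
  · intro σ τ
    refine psv_inj hord ?_
    rw [psv_mulQ hord, ← hψ, psv_mul, hψ τ, ← hψ σ]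
    exact map_nsmul (pmap (fr p W k) (σ : L →ₐ[K] L)) _ _

private theorem psv_sq {K S L M : Type} [Field K] (W : WeierstrassCurve K) [Field S] [Field L]
    [Field M] [Algebra K S] [Algebra K L] [Algebra K M] [Algebra S M] [IsScalarTower K S M]
    (f : L →ₐ[K] M) (s : L →ₐ[K] L) (t : M →ₐ[S] M)
    (hst : ∀ x, t (f x) = f (s x)) (P : (W⁄L).toAffine.Point) :
    pmap W t (pmap W f P) = pmap W f (pmap W s P) := by
  cases P with
  | zero => rfl
  | some x y h =>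
    unfold pmap
    rw [Affine.Point.map_some, Affine.Point.map_some, Affine.Point.map_some,
      Affine.Point.map_some, Affine.Point.some.injEq]
    exact ⟨hst x, hst y⟩

/-- The points `Q` and the characters, for a general separably closed field. -/
private theorem psv_ex (hIt : S_ItT) (hRk : S_RkT) (hVSr : S_VSrT) {p : ℕ} [hp : Fact p.Prime]
    (hp2 : p = 2) {K : Type} [Field K] [CharP K p] (W : WeierstrassCurve K) (hW : IsN2 W)
    {L : Type} [Field L] [Algebra K L] [IsGalois K L] [IsSepClosed L] (k : ℕ)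
    (I : DecidableEq L) (T : Pt p W 0 L) (hT0 : T ≠ 0) (hpT : p • T = 0) (w : Gal(L/K) → ZMod p)
    (hσT : ∀ σ : Gal(L/K), pmap (fr p W 0) (σ : L →ₐ[K] L) T = (w σ).val • T) :
    ∃ (Q : Pt p W k L) (ψ : Gal(L/K) → ZMod (p ^ (k + 1))), Vn p W k Q = T ∧ IsQ p W k Q ∧
      IsLocallyConstant ψ ∧ ψ 1 = 1 ∧ (∀ σ τ, ψ (σ * τ) = ψ σ * ψ τ) ∧
      (∀ σ, ∃ y, ψ σ = ((w σ).val : ZMod (p ^ (k + 1))) + p * y) ∧
      (∀ σ : Gal(L/K), pmap (fr p W k) (σ : L →ₐ[K] L) Q = (ψ σ).val • Q) ∧ w 1 = 1 ∧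
      (∀ σ : Gal(L/K), w σ = 1 → pmap (fr p W 0) (σ : L →ₐ[K] L) T = T) ∧
      ∀ σ : Gal(L/K), pmap (fr p W k) (σ : L →ₐ[K] L) Q = Q → ψ σ = 1 := by
  obtain rfl : I = fun a b => Classical.propDecidable (a = b) := Subsingleton.elim _ _
  have : NeZero (p ^ (k + 1)) := ⟨pow_ne_zero _ hp.out.ne_zero⟩
  have hp1 : Fact (1 < p) := ⟨hp.out.one_lt⟩
  obtain ⟨Q, hQT⟩ := ((hRk p hp2 K W hW L).1).1 k T
  have hQ : IsQ p W k Q := ⟨by rw [hQT]; exact hT0, by rw [hQT]; exact hpT⟩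
  obtain ⟨hR, hord, hz, hιQ⟩ := hVSr p hp2 K W hW L k Q hQ
  obtain ⟨-, -, -, -, -, hnat, -, -, -, -⟩ := hIt p hp2 K W hW L
  have hex : ∀ σ : Gal(L/K), ∃ z : ZMod (p ^ (k + 1)),
      pmap (fr p W k) (σ : L →ₐ[K] L) Q = z.val • Q ∧
        ∃ y, z = ((w σ).val : ZMod (p ^ (k + 1))) + p * y := by
    intro σ
    obtain ⟨z, h1, y, h2⟩ := hz (pmap (fr p W k) (σ : L →ₐ[K] L) Q)
      ((w σ).val : ℤ) (by
        rw [← (hnat k K L (σ : L →ₐ[K] L)).2, hQT, hσT, natCast_zsmul])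
    exact ⟨z, h1, y, by rw [h2, Int.cast_natCast]⟩
  choose ψ hψ hψω using hex
  obtain ⟨hl, h1, hm⟩ := psv_char W k _ Q hord ψ hψ
  refine ⟨Q, ψ, hQT, hQ, hl, h1, hm, hψω, hψ, ?_, ?_, ?_⟩
  · have h7 : addOrderOf T = p := addOrderOf_eq_prime hpT hT0
    refine psv_inj h7 ?_
    rw [← hσT, psv_one, ZMod.val_one, one_nsmul]
  · intro σ h
    rw [hσT, h, ZMod.val_one, one_nsmul]
  · intro σ h
    refine psv_inj hord ?_
    rw [← hψ, h]
    have h8 := psv_nat hord 1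
    rw [Nat.cast_one, one_nsmul] at h8
    exact h8.symm

/-- `g` fixes the image of `Vn Q`. -/
private theorem psv_a (hIt : S_ItT) {p : ℕ} [Fact p.Prime] (hp2 : p = 2) {K : Type} [Field K]
    [CharP K p] (W : WeierstrassCurve K) (hW : IsN2 W) {L S M : Type} [Field L] [Field S] [Field M]
    [Algebra K L] [Algebra K S] [Algebra K M] [Algebra S M] [IsScalarTower K S M] (k : ℕ)
    (ι : L →ₐ[K] M) (g : M →ₐ[S] M) (σ : L →ₐ[K] L) (hst : ∀ x, g (ι x) = ι (σ x))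
    (T : Pt p W 0 L) (Q : Pt p W k L) (hQT : Vn p W k Q = T) (hσT : pmap (fr p W 0) σ T = T) :
    pmap (fr p W 0) g (Vn p W k (pmap (fr p W k) ι Q)) = Vn p W k (pmap (fr p W k) ι Q) := by
  obtain ⟨-, -, -, -, -, hnat, -, -, -, -⟩ := hIt p hp2 K W hW L
  rw [← (hnat k K M ι).2, hQT, psv_sq (fr p W 0) ι σ g hst T, hσT]

/-- If `g` fixes the image of `Q` then `σ` fixes `Q`. -/
private theorem psv_b (hBas : S_BasT) {p : ℕ} [Fact p.Prime] (hp2 : p = 2) {K : Type} [Field K]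
    [CharP K p] (W : WeierstrassCurve K) (hW : IsN2 W) {L S M : Type} [Field L] [Field S] [Field M]
    [Algebra K L] [Algebra K S] [Algebra K M] [Algebra S M] [IsScalarTower K S M] (k : ℕ)
    (ι : L →ₐ[K] M) (g : M →ₐ[S] M) (σ : L →ₐ[K] L) (hst : ∀ x, g (ι x) = ι (σ x))
    (Q : Pt p W k L) (h : pmap (fr p W k) g (pmap (fr p W k) ι Q) = pmap (fr p W k) ι Q) :
    pmap (fr p W k) σ Q = Q := by
  have h2 : (2 : K) = 0 := by
    have h1 : ((2 : ℕ) : K) = 0 := (CharP.cast_eq_zero_iff K p 2).2 (by rw [hp2])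
    exact_mod_cast h1
  have hinj : Function.Injective (pmap (fr p W k) ι) :=
    ((hBas.1 K h2 (fr p W k) ((hBas.2 K p W hW).1 k).1 L).2.2.2.2.2 K M ι).2.1
  rw [psv_sq (fr p W k) ι σ g hst Q] at h
  exact hinj h

theorem tPsiVT (hBas : S_BasT) (_hFr : S_FrT) (_hVh : S_VhT) (hIt : S_ItT) (hRk : S_RkT)
    (hVSr : S_VSrT) (_hHas : S_Has) (hRes : S_Res) (hOnr : S_Onr) (hPsf : S_Psf) (hRgo : S_Rgo) :
    S_PsiVT := by
  intro p hp hp2 K _ _ hG W hW J av α h₀ hHS T hT0 hpT hσT k hUN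
  obtain ⟨-, hsur, -, hrω, -, -, hloc⟩ := hRgo p K hG J av α h₀ hHS
  obtain ⟨Q, ψ₀, hQT, hQ, hl, h1, hm, hψω, hψ₀, hw1, hfix, hone⟩ := psv_ex hIt hRk hVSr hp2 W hW
    k _ T hT0 hpT (fun σ => omc p α σ) hσT
  have hun : Unr p av (fun σ => ψ₀ σ - 1) := by
    intro v hv hvn
    refine ⟨IsSepClosed.lift, fun g hg => ?_⟩
    set ι : Kgs K →ₐ[K] Kvs v := IsSepClosed.lift with hι
    obtain ⟨-, hrst, -, -⟩ := hRes p K (Kgs K) v.Completion (Kvs v) ι
    obtain ⟨-, hrr, -, -, -, -⟩ := hloc v ι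
    have hom1 : ∀ g' : Gal(Kvs v/v.Completion), IsGeo p g' →
        omc p α (rsH (M := v.Completion) ι g') = 1 := by
      intro g' hg'
      rw [← hrω, ← hrr, (hOnr p K hG J av α h₀ hHS v hv hvn ι).2.2 g' hg', ← map_one (rG p av α),
        hrω]
      exact hw1
    have h9 := hUN v hv hvn (pmap (fr p W k) ι Q) (fun g' hg' =>
      psv_a hIt hp2 W hW k ι (g' : Kvs v →ₐ[v.Completion] Kvs v)
        ((rsH (M := v.Completion) ι g' : Gal(Kgs K/K)) : Kgs K →ₐ[K] Kgs K)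
        (fun x => hrst g' x) T Q hQT (hfix _ (hom1 g' hg'))) g hg
    have h10 := psv_b hBas hp2 W hW k ι (g : Kvs v →ₐ[v.Completion] Kvs v)
        ((rsH (M := v.Completion) ι g : Gal(Kgs K/K)) : Kgs K →ₐ[K] Kgs K)
        (fun x => hrst g x) Q h9
    show ψ₀ (rsH (M := v.Completion) ι g) - 1 = 0
    rw [hone _ h10, sub_self]
  obtain ⟨ψ, e1, e2, e3, e4, e5⟩ := hPsf p K hG J av α h₀ hHS (k + 1) ψ₀ hl h1 hm hψω hun
  exact ⟨Q, ψ, hQT, hQ, e1, e2, e3, e4, fun σ => by rw [← e5]; exact hψ₀ σ⟩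

end Pool.Agent.MP72P
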