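import Pool.Agent.Lib.MP_72e2e6_nt.WP.El2.Ifc
import Pool.Agent.Lib.MP_72e2e6_nt.P3.F.Spec

/-!
# MP_72e2e6_nt, theorem T3p, the case `p = 2`, block E2 (vectors of points, Selmer conditions, descent)

The statements `S_XT` are the statements `S_X` of `WP/El/Spec.lean`, `WP/Fd/Spec.lean`, `P3/E/Spec.lean`,
`P3/E/SpecB.lean`, `P3/EN/Spec.lean`, `P3/F/Ifc.lean`, `P3/F/Spec.lean` with `p = 2` in the place of `p ≠ 2` and the
normal form `IsN2 W` (`y ^ 2 + x y = x ^ 3 + a₂ x ^ 2 + a₆`) in the place of `IsNf W`, `Od p W`. The proofs are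
the same; the only difference is `S_VSbT`: every class of the equivalence relation has at most two elements as
`Λ / 2 Λ` has two elements. `S_BasT`, ..., `S_WtcT`, `S_UnWT`, `S_LoWT`, `S_ENT` follow from the statements of
`WP/El2/Ifc.lean`.
-/

namespace Pool.Agent.MP72P

open WeierstrassCurve IntermediateField
open Pool.Agent.MP72W (pmap)
open Pool.Agent.MP72V

open scoped Classical

section

variable {K : Type} [Field K] (p : ℕ) (W : WeierstrassCurve K) {L : Type} [Field L] [Algebra K L]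

/-- `IsWt2` for a prime number `p` (equal to `2`). -/
structure IsWtT (k : ℕ) (R : Pt p W k L) (w : Pt p W k L → L) : Prop where
  ne : ∀ P, w P ≠ 0
  add : ∀ P Q, EqN (p ^ k) (w (P + Q)) (w P * w Q)
  gen : ∀ P, P ∉ AddSubgroup.zmultiples R → EqN (p ^ k) (w P) (MP72W.Wf k R P)
  ker : ∀ P, EqN (p ^ k) (w P) 1 ↔ ∃ q, P = Fn p W k q

/-- `HWu2` for a prime number `p` (equal to `2`). -/
def HWuT {J : Type} (av : J → AbsoluteValue K ℝ) (k : ℕ) : Prop :=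
  ∀ v : AbsoluteValue K ℝ, v.IsNontrivial → (∀ j, ¬ v.IsEquiv (av j)) →
    ∀ (Q : ℕ) (ϖ : K) (R₀ : Finset K), LF v p Q ϖ R₀ →
    ∀ R : Pt p W k (Kvs v), IsR p W k R → ∀ w, IsWtT p W k R w →
    ∀ P : Pt p W k (Kvs v), (∀ g : Gal(Kvs v/v.Completion), IsGeo p g →
      pmap (fr p W k) (g : Kvs v →ₐ[v.Completion] Kvs v) P = P) →
    ∃ r ∈ Knr p v, r ≠ 0 ∧ EqN (p ^ k) (w P) r ∧ ∃ x : ℤ, nm v r = v ϖ ^ x ∧ (p : ℤ) ^ k ∣ x

end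

/-- **BasT**. `S_Bas` (`WP/El/Spec.lean`) for `p = 2`. -/
def S_BasT : Prop :=
  (∀ (K : Type) [Field K], (2 : K) = 0 → ∀ W : WeierstrassCurve K, IsN2 W →
    ∀ (L : Type) [Field L] [Algebra K L], (2 : L) = 0 ∧ IsN2 (W⁄L).toAffine ∧
      (W⁄L).toAffine.a₂ = algebraMap K L W.a₂ ∧ (W⁄L).toAffine.a₄ = algebraMap K L W.a₄ ∧
      (W⁄L).toAffine.a₆ = algebraMap K L W.a₆ ∧
    ∀ (S M : Type) [Field S] [Field M] [Algebra K S] [Algebra K M] [Algebra S L] [Algebra S M]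
      [IsScalarTower K S L] [IsScalarTower K S M] (f : L →ₐ[S] M),
      (∀ (P : (W⁄L).toAffine.Point) (x y : L), XY P x y → XY (pmap W f P) (f x) (f y)) ∧
      Function.Injective (pmap W f) ∧
      (∀ P : (W⁄L).toAffine.Point, px (pmap W f P) = f (px P) ∧ py (pmap W f P) = f (py P)) ∧
      ∀ (P : (W⁄M).toAffine.Point) (x y : L), XY P (f x) (f y) →
        ∃ P₁ : (W⁄L).toAffine.Point, XY P₁ x y ∧ pmap W f P₁ = P) ∧
  ∀ (K : Type) [Field K] (p : ℕ) [Fact p.Prime] [CharP K p] (W : WeierstrassCurve K), IsN2 W →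
    (∀ j : ℕ, IsN2 (fr p W j) ∧ fr p W j = W.map (iterateFrobenius K p j)) ∧
    ∀ i j : ℕ, fr p (fr p W i) j = fr p W (i + j)

/-- **FrT**. `S_Fr` (`WP/El/Spec.lean`) for `p = 2`. -/
def S_FrT : Prop :=
  ∀ (p : ℕ) [Fact p.Prime], p = 2 → ∀ (K : Type) [Field K] [CharP K p]
    (W : WeierstrassCurve K), IsN2 W → ∀ (j : ℕ) (L : Type) [Field L] [Algebra K L],
    Fi p W j (0 : Pt p W j L) = 0 ∧
    (∀ (P : Pt p W j L) (x y : L), XY P x y → XY (Fi p W j P) (x ^ p) (y ^ p)) ∧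
    (∀ P Q : Pt p W j L, Fi p W j (P + Q) = Fi p W j P + Fi p W j Q) ∧
    (∀ P Q : Pt p W j L, Fi p W j P = Fi p W j Q → P = Q) ∧
    (∀ (S M : Type) [Field S] [Field M] [Algebra K S] [Algebra K M] [Algebra S L] [Algebra S M]
      [IsScalarTower K S L] [IsScalarTower K S M] (f : L →ₐ[S] M) (P : Pt p W j L),
      pmap (fr p W (j + 1)) f (Fi p W j P) = Fi p W j (pmap (fr p W j) f P)) ∧
    ∀ (P : Pt p W (j + 1) L) (x y : L), XY P (x ^ p) (y ^ p) →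
      ∃ P₁ : Pt p W j L, XY P₁ x y ∧ Fi p W j P₁ = P

/-- **VhT**. `S_Vh` (`WP/El/Spec.lean`) for `p = 2`. -/
def S_VhT : Prop :=
  ∀ (p : ℕ) [Fact p.Prime], p = 2 → ∀ (K : Type) [Field K] [CharP K p]
    (W : WeierstrassCurve K), IsN2 W → ∀ (j : ℕ) (L : Type) [Field L] [Algebra K L],
    Vi p W j (0 : Pt p W (j + 1) L) = 0 ∧
    (∀ X Y : Pt p W (j + 1) L, Vi p W j (X + Y) = Vi p W j X + Vi p W j Y) ∧
    (∀ Q : Pt p W j L, Vi p W j (Fi p W j Q) = p • Q) ∧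
    (∀ X : Pt p W (j + 1) L, Fi p W j (Vi p W j X) = p • X) ∧
    (∀ (S M : Type) [Field S] [Field M] [Algebra K S] [Algebra K M] [Algebra S L] [Algebra S M]
      [IsScalarTower K S L] [IsScalarTower K S M] (f : L →ₐ[S] M) (X : Pt p W (j + 1) L),
      pmap (fr p W j) f (Vi p W j X) = Vi p W j (pmap (fr p W (j + 1)) f X)) ∧
    {X : Pt p W (j + 1) L | Vi p W j X = 0}.Finite ∧
      {X : Pt p W (j + 1) L | Vi p W j X = 0}.ncard ≤ p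

/-- **ItT**. `S_It` (`WP/El/Spec.lean`) for `p = 2`. -/
def S_ItT : Prop :=
  ∀ (p : ℕ) [Fact p.Prime], p = 2 → ∀ (K : Type) [Field K] [CharP K p]
    (W : WeierstrassCurve K), IsN2 W → ∀ (L : Type) [Field L] [Algebra K L],
    (∀ (n : ℕ) (P Q : Pt p W 0 L), Fn p W n (P + Q) = Fn p W n P + Fn p W n Q) ∧
    (∀ (n : ℕ) (P Q : Pt p W n L), Vn p W n (P + Q) = Vn p W n P + Vn p W n Q) ∧
    (∀ (n : ℕ) (P : Pt p W 0 L), Vn p W n (Fn p W n P) = p ^ n • P) ∧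
    (∀ (n : ℕ) (P : Pt p W n L), Fn p W n (Vn p W n P) = p ^ n • P) ∧
    (∀ (n : ℕ) (P Q : Pt p W 0 L), Fn p W n P = Fn p W n Q → P = Q) ∧
    (∀ (n : ℕ) (S M : Type) [Field S] [Field M] [Algebra K S] [Algebra K M] [Algebra S L]
      [Algebra S M] [IsScalarTower K S L] [IsScalarTower K S M] (f : L →ₐ[S] M),
      (∀ P : Pt p W 0 L, pmap (fr p W n) f (Fn p W n P) = Fn p W n (pmap (fr p W 0) f P)) ∧
      ∀ P : Pt p W n L, pmap (fr p W 0) f (Vn p W n P) = Vn p W n (pmap (fr p W n) f P)) ∧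
    (∀ n : ℕ, {P : Pt p W n L | Vn p W n P = 0}.Finite ∧
      {P : Pt p W n L | Vn p W n P = 0}.ncard ≤ p ^ n) ∧
    (∀ (k : ℕ) (R : Pt p W k L), IsR p W k R → addOrderOf R = p ^ k ∧
      ∀ P : Pt p W k L, Vn p W k P = 0 ↔ ∃ m : ℕ, P = m • R) ∧
    (∀ (k : ℕ) (R : Pt p W (k + 1) L), IsR p W (k + 1) R → IsR p W k (Vi p W k R)) ∧
    ∀ (k : ℕ) (R : Pt p W k L) (S M : Type) [Field S] [Field M] [Algebra K S] [Algebra K M]
      [Algebra S L] [Algebra S M] [IsScalarTower K S L] [IsScalarTower K S M] (f : L →ₐ[S] M),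
      IsR p W k R → IsR p W k (pmap (fr p W k) f R)

/-- **RkT**. `S_Rk` (`WP/El/Spec.lean`) for `p = 2`. -/
def S_RkT : Prop :=
  ∀ (p : ℕ) [Fact p.Prime], p = 2 → ∀ (K : Type) [Field K] [CharP K p]
    (W : WeierstrassCurve K), IsN2 W → ∀ (L : Type) [Field L] [Algebra K L] [IsSepClosed L],
    ((∀ (k : ℕ) (P : Pt p W 0 L), ∃ X, Vn p W k X = P) ∧
      ∀ k : ℕ, ∃ R : Pt p W k L, IsR p W k R) ∧
    ∀ j : ℕ, Infinite (Pt p W j L)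

/-- **WtT**. `S_Wt` (`WP/Fd/Spec.lean`) for `p = 2`. -/
def S_WtT : Prop :=
  ∀ (p : ℕ) [Fact p.Prime], p = 2 → ∀ (K : Type) [Field K] [CharP K p]
    (W : WeierstrassCurve K), IsN2 W → ∀ (L : Type) [Field L] [Algebra K L] [IsSepClosed L]
    (k : ℕ) (R : Pt p W k L), IsR p W k R → ∃ w, IsWtT p W k R w

/-- **WtcT**. `S_Wtc` (`WP/Fd/Spec.lean`) for `p = 2`. -/
def S_WtcT : Prop :=
  ∀ (p : ℕ) [Fact p.Prime], p = 2 → ∀ (K : Type) [Field K] [CharP K p]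
    (W : WeierstrassCurve K), IsN2 W → ∀ (L : Type) [Field L] [Algebra K L] [IsSepClosed L]
    (k : ℕ) (R : Pt p W k L), IsR p W k R → ∀ w, IsWtT p W k R w →
    ∀ (S M : Type) [Field S] [Field M] [Algebra K S] [Algebra K M] [Algebra S L]
      [Algebra S M] [IsScalarTower K S L] [IsScalarTower K S M] (f : L →ₐ[S] M)
      (R' : Pt p W k M), IsR p W k R' → ∀ w', IsWtT p W k R' w' → ∀ m : ℕ,
      pmap (fr p W k) f R = m • R' →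
      ∀ P, EqN (p ^ k) (f (w P)) (w' (pmap (fr p W k) f P) ^ m)

/-- **DscVT**. `S_DscV` (`P3/E/Spec.lean`) for `p = 2`. -/
def S_DscVT : Prop :=
  ∀ (p : ℕ) [Fact p.Prime], p = 2 → ∀ (K : Type) [Field K] [CharP K p]
    (W : WeierstrassCurve K), IsN2 W → ∀ h : Gal(Kgs K/K) → ZMod p, HomP p h →
    ∀ (k : ℕ) (R : Pt p W k (Kgs K)), IsR p W k R →
    ∀ ψ : Gal(Kgs K/K) → ZMod (p ^ k), (∀ σ : Gal(Kgs K/K),
      pmap (fr p W k) (σ : Kgs K →ₐ[K] Kgs K) R = (ψ σ).val • R) →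
    ∀ a b X Y : ℕ,
    (∀ (n : ℕ) (c : Fin n → Gal(Kgs K/K) → ZMod p → ZMod (p ^ k)),
      (∀ i, SeV p W h k R ψ (c i)) →
      (∀ i j, i ≠ j → ¬ ∃ m : ZMod p → ZMod (p ^ k), ∑ l, m l = 0 ∧
        ∀ σ l, c i σ l - c j σ l = ψ σ * m (l - h σ) - m l) → n * a ≤ X) →
    (∀ (n : ℕ) (P : Fin n → ZMod p → Pt p W k (Kgs K)), (∀ i, SeF p W h k (P i)) →
      (∀ i j, i ≠ j → ¬ ∃ q : ZMod p → Pt p W 0 (Kgs K), ∑ l, q l = 0 ∧
        ∀ l, P i l - P j l = Fn p W k (q l)) → n * b ≤ Y) →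
    ∀ (n : ℕ) (z : Fin n → Gal(Kgs K/K) → ZMod p → Pt p W 0 (Kgs K))
      (P : Fin n → ZMod p → Pt p W 0 (Kgs K)), (∀ i, ZPV p W h k (z i) (P i)) →
      (∀ i j, i ≠ j → ¬ ZEV p W h k (z i) (z j) (P i) (P j)) → n * (a * b) ≤ X * Y

/-- **VSrT**. `S_VSr` (`P3/E/Spec.lean`) for `p = 2`. -/
def S_VSrT : Prop :=
  ∀ (p : ℕ) [Fact p.Prime], p = 2 → ∀ (K : Type) [Field K] [CharP K p]
    (W : WeierstrassCurve K), IsN2 W → ∀ (L : Type) [Field L] [Algebra K L] (k : ℕ)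
    (Q : Pt p W k L), IsQ p W k Q →
    IsR p W k (p • Q) ∧ addOrderOf Q = p ^ (k + 1) ∧
    (∀ (X : Pt p W k L) (m : ℤ), Vn p W k X = m • Vn p W k Q →
      ∃ z : ZMod (p ^ (k + 1)), X = z.val • Q ∧ ∃ y, z = (m : ZMod (p ^ (k + 1))) + p * y) ∧
    ∀ (S M : Type) [Field S] [Field M] [Algebra K S] [Algebra K M] [Algebra S L] [Algebra S M]
      [IsScalarTower K S L] [IsScalarTower K S M] (f : L →ₐ[S] M),
      IsQ p W k (pmap (fr p W k) f Q)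

/-- **VSbT**. `S_VSb` (`P3/E/Spec.lean`) for `p = 2`. -/
def S_VSbT : Prop :=
  ∀ (p : ℕ) [Fact p.Prime], p = 2 → ∀ (G : Type) [Group G] [TopologicalSpace G]
    [IsTopologicalGroup G] (S : Type) [Nonempty S] (D : S → Subgroup G) (ω : G → ZMod p)
    (h : G → ZMod p), ChO p ω → HomP p h → (∃ g, h g ≠ 0) → ∀ (k : ℕ)
    (ψ : G → ZMod (p ^ (k + 1))), IsLocallyConstant ψ → ψ 1 = 1 →
    (∀ a b, ψ (a * b) = ψ a * ψ b) → (∀ a, ∃ y, ψ a = ((ω a).val : ZMod (p ^ (k + 1))) + p * y) →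
    ∀ (Λ : Type) [CommRing Λ] (π : Λ) (φ : (ZMod p → ZMod (p ^ (k + 1))) → Λ),
    IsLam p (k + 1) π φ →
    (Ker (rL (tw π (fun g => ((ψ g).val : Λ)) h)) D).Finite →
    ∀ (n : ℕ) (c : Fin n → G → ZMod p → ZMod (p ^ k)), (∀ i, IsLocallyConstant (c i)) →
      (∀ i g, ∑ l, c i g l = 0) →
      (∀ i g g' l, c i (g * g') l = c i g l + ((ψ g).val : ZMod (p ^ k)) * c i g' (l - h g)) →
      (∀ i w, ∃ z' : ZMod p → ZMod (p ^ (k + 1)), ∑ l, z' l = 0 ∧ ∀ g ∈ D w, ∀ l,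
        (p : ZMod (p ^ (k + 1))) * ((c i g l).val : ZMod (p ^ (k + 1))) =
          ψ g * z' (l - h g) - z' l) →
      (∀ i j, i ≠ j → ¬ ∃ m : ZMod p → ZMod (p ^ k), ∑ l, m l = 0 ∧
        ∀ g l, c i g l - c j g l = ((ψ g).val : ZMod (p ^ k)) * m (l - h g) - m l) →
      n * p ^ ((k + 1) * (p - 1)) ≤ p * (Ker (rL (tw π (fun g => ((ψ g).val : Λ)) h)) D).ncard

/-- **VST**. `S_VS` (`P3/E/Spec.lean`) for `p = 2`. -/
def S_VST : Prop :=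
  ∀ (p : ℕ) [Fact p.Prime], p = 2 → ∀ (K : Type) [Field K] [CharP K p], GFld p K →
    ∀ (W : WeierstrassCurve K), IsN2 W → ∀ (J : Type) (av : J → AbsoluteValue K ℝ)
    (α : Kgs K) (h₀ : K), HS p av α h₀ → ∀ (ι : ∀ j, Kgs K →ₐ[K] Kvs (av j)),
    ∀ D ∈ OS av, (¬ ∃ x : K, x ^ p - x = D) → ∀ (k : ℕ), 1 ≤ k → ∀ Q : Pt p W k (Kgs K),
    IsQ p W k Q → ∀ ψ : GS p av α → ZMod (p ^ (k + 1)), IsLocallyConstant ψ → ψ 1 = 1 →
    (∀ a b, ψ (a * b) = ψ a * ψ b) →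
    (∀ a, ∃ y, ψ a = ((omS p av α a).val : ZMod (p ^ (k + 1))) + p * y) →
    (∀ σ : Gal(Kgs K/K), pmap (fr p W k) (σ : Kgs K →ₐ[K] Kgs K) Q =
      (ψ (rG p av α σ)).val • Q) →
    (∀ v : AbsoluteValue K ℝ, v.IsNontrivial → (∀ j, ¬ v.IsEquiv (av j)) →
      ∀ X : Pt p W k (Kvs v), (∀ g : Gal(Kvs v/v.Completion), IsGeo p g →
        pmap (fr p W 0) (g : Kvs v →ₐ[v.Completion] Kvs v) (Vn p W k X) = Vn p W k X) →
        ∀ g : Gal(Kvs v/v.Completion), IsGeo p g →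
          pmap (fr p W k) (g : Kvs v →ₐ[v.Completion] Kvs v) X = X) →
    (∀ (j : J) (e : ZMod p → Pt p W 0 (Kvs (av j))), ∑ l, e l = 0 →
      (∀ g : Gal(Kvs (av j)/(av j).Completion),
        tac (fr p W 0) (hP p (1 : Kvs (av j)) (algebraMap K (av j).Completion D) g)
          (g : Kvs (av j) →ₐ[(av j).Completion] Kvs (av j)) e = e) →
      ∃ (m : ℤ) (u : ZMod p → Pt p W k (Kvs (av j))), ∑ l, u l = 0 ∧
        (∀ g : Gal(Kvs (av j)/(av j).Completion),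
          tac (fr p W k) (hP p (1 : Kvs (av j)) (algebraMap K (av j).Completion D) g)
            (g : Kvs (av j) →ₐ[(av j).Completion] Kvs (av j)) u = u) ∧
        ∀ l, e l = m • Vn p W k (pmap (fr p W k) (ι j) Q) + Vn p W k (u l)) →
    ∀ (Λ : Type) [CommRing Λ] (π : Λ) (φ : (ZMod p → ZMod (p ^ (k + 1))) → Λ),
    IsLam p (k + 1) π φ →
    (Ker (rL (tw π (fun g => ((ψ g).val : Λ)) (hS p av α D))) (DS p av α ι)).Finite →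
    ∀ (n : ℕ) (c : Fin n → Gal(Kgs K/K) → ZMod p → ZMod (p ^ k)),
      (∀ i, SeV p W (fun σ => hP p (1 : Kgs K) D σ) k (p • Q)
        (fun σ => ((ψ (rG p av α σ)).val : ZMod (p ^ k))) (c i)) →
      (∀ i j, i ≠ j → ¬ ∃ m : ZMod p → ZMod (p ^ k), ∑ l, m l = 0 ∧
        ∀ σ l, c i σ l - c j σ l =
          ((ψ (rG p av α σ)).val : ZMod (p ^ k)) * m (l - hP p (1 : Kgs K) D σ) - m l) →
      n * p ^ ((k + 1) * (p - 1)) ≤
        p * (Ker (rL (tw π (fun g => ((ψ g).val : Λ)) (hS p av α D))) (DS p av α ι)).ncard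

/-- **Fr1VT**. `S_Fr1V` (`P3/E/Spec.lean`) for `p = 2`. -/
def S_Fr1VT : Prop :=
  ∀ (p : ℕ) [Fact p.Prime], p = 2 → ∀ (K : Type) [Field K] [CharP K p]
    (W : WeierstrassCurve K), IsN2 W → ∀ h : Gal(Kgs K/K) → ZMod p, HomP p h →
    (∃ N : ℕ, ∀ (n : ℕ) (P : Fin n → ZMod p → Pt p W 1 (Kgs K)), (∀ i, SeF p W h 1 (P i)) →
      (∀ i j, i ≠ j → ¬ ∃ q : ZMod p → Pt p W 0 (Kgs K), ∑ l, q l = 0 ∧
        ∀ l, P i l - P j l = Fn p W 1 (q l)) → n ≤ N) →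
    GdV (fr p W 1) h → GdV (fr p W 0) h

/-- **PsiVT**. `S_PsiV` (`P3/E/Spec.lean`) for `p = 2`. -/
def S_PsiVT : Prop :=
  ∀ (p : ℕ) [Fact p.Prime], p = 2 → ∀ (K : Type) [Field K] [CharP K p], GFld p K →
    ∀ (W : WeierstrassCurve K), IsN2 W → ∀ (J : Type) (av : J → AbsoluteValue K ℝ)
    (α : Kgs K) (h₀ : K), HS p av α h₀ → ∀ T : Pt p W 0 (Kgs K), T ≠ 0 → p • T = 0 →
    (∀ σ : Gal(Kgs K/K), pmap (fr p W 0) (σ : Kgs K →ₐ[K] Kgs K) T = (omc p α σ).val • T) →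
    ∀ k : ℕ,
    (∀ v : AbsoluteValue K ℝ, v.IsNontrivial → (∀ j, ¬ v.IsEquiv (av j)) →
      ∀ X : Pt p W k (Kvs v), (∀ g : Gal(Kvs v/v.Completion), IsGeo p g →
        pmap (fr p W 0) (g : Kvs v →ₐ[v.Completion] Kvs v) (Vn p W k X) = Vn p W k X) →
        ∀ g : Gal(Kvs v/v.Completion), IsGeo p g →
          pmap (fr p W k) (g : Kvs v →ₐ[v.Completion] Kvs v) X = X) →
    ∃ (Q : Pt p W k (Kgs K)) (ψ : GS p av α → ZMod (p ^ (k + 1))), Vn p W k Q = T ∧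
      IsQ p W k Q ∧ IsLocallyConstant ψ ∧ ψ 1 = 1 ∧ (∀ a b, ψ (a * b) = ψ a * ψ b) ∧
      (∀ a, ∃ y, ψ a = ((omS p av α a).val : ZMod (p ^ (k + 1))) + p * y) ∧
      ∀ σ : Gal(Kgs K/K), pmap (fr p W k) (σ : Kgs K →ₐ[K] Kgs K) Q =
        (ψ (rG p av α σ)).val • Q

/-- **FSuT**. `S_FSu` (`P3/E/SpecB.lean`) for `p = 2`. -/
def S_FSuT : Prop :=
  ∀ (p : ℕ) [Fact p.Prime], p = 2 → ∀ (K : Type) [Field K] [CharP K p], GFld p K →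
    ∀ (W : WeierstrassCurve K), IsN2 W → ∀ (J : Type) (av : J → AbsoluteValue K ℝ)
    (α : Kgs K) (h₀ : K), HS p av α h₀ → ∀ D ∈ OS av, ∀ k : ℕ, 1 ≤ k →
    ∀ R : Pt p W k (Kgs K), IsR p W k R → ∀ w, IsWtT p W k R w →
    ∀ ψ : GS p av α → ZMod (p ^ k),
    (∀ σ : Gal(Kgs K/K), pmap (fr p W k) (σ : Kgs K →ₐ[K] Kgs K) R =
      (ψ (rG p av α σ)).val • R) → HWuT p W av k →
    ∀ (Λ : Type) [CommRing Λ] (π : Λ) (φ : (ZMod p → ZMod (p ^ k)) → Λ), IsLam p k π φ →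
    ∀ P : ZMod p → Pt p W k (Kgs K), SeF p W (hD p D) k P →
    ∃ u : Λ → Kgs K, AdmU p av α k (tw π (fun g => ((ψ g).val : Λ)) (hS p av α D)) u ∧
      ∀ l, EqN (p ^ k) (u (φ fun i => if i = l then 1 else 0)) (w (P l))

/-- **FST**. `S_FS` (`P3/E/SpecB.lean`) for `p = 2`. -/
def S_FST : Prop :=
  ∀ (p : ℕ) [Fact p.Prime], p = 2 → ∀ (K : Type) [Field K] [CharP K p], GFld p K →
    ∀ (W : WeierstrassCurve K), IsN2 W → ∀ (J : Type) (av : J → AbsoluteValue K ℝ)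
    (α : Kgs K) (h₀ : K), HS p av α h₀ → ∀ (ι : ∀ j, Kgs K →ₐ[K] Kvs (av j)) (T : J → Type)
      (t : ∀ w, T w → Gal(Kvs (av w)/(av w).Completion)) (w₀ : J) (d : ℕ)
      (e : Fin d → Gal(Kvs (av w₀)/(av w₀).Completion)),
      LTs p (omS p av α) (fun w => rOm p av α (ι w)) t w₀ e →
    ∀ y₀ : Fin (d + 1) → GS p av α ⊕ J,
      (tsL (fun w => rOm p av α (ι w)) t w₀ e y₀).Ok p (omS p av α) (DS p av α ι) →
    ∀ D ∈ OS av, ∀ k : ℕ, 1 ≤ k → ∀ R : Pt p W k (Kgs K), IsR p W k R →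
    ∀ ψ : GS p av α → ZMod (p ^ k), IsLocallyConstant ψ → ψ 1 = 1 →
    (∀ a b, ψ (a * b) = ψ a * ψ b) →
    (∀ a, ∃ y, ψ a = ((omS p av α a).val : ZMod (p ^ k)) + p * y) →
    (∀ σ : Gal(Kgs K/K), pmap (fr p W k) (σ : Kgs K →ₐ[K] Kgs K) R =
      (ψ (rG p av α σ)).val • R) → HWuT p W av k →
    ∀ (Λ : Type) [CommRing Λ] (π : Λ) (φ : (ZMod p → ZMod (p ^ k)) → Λ), IsLam p k π φ →
    ∀ (n : ℕ) (P : Fin n → ZMod p → Pt p W k (Kgs K)), (∀ i, SeF p W (hD p D) k (P i)) →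
      (∀ i j, i ≠ j → ¬ ∃ q : ZMod p → Pt p W 0 (Kgs K), ∑ l, q l = 0 ∧
        ∀ l, P i l - P j l = Fn p W k (q l)) →
      n * p ^ (k * (p - 1)) ≤
        (Ker (rL (tw π (fun g => ((ψ g).val : Λ)) (hS p av α D))) (DS p av α ι)).ncard

/-- **OneVT**. `S_OneV` (`P3/E/SpecB.lean`) for `p = 2`. -/
def S_OneVT : Prop :=
  ∀ (p : ℕ) [Fact p.Prime], p = 2 → ∀ (K : Type) [Field K] [CharP K p], GFld p K →
    ∀ (W : WeierstrassCurve K), IsN2 W → ∀ (J : Type) (av : J → AbsoluteValue K ℝ)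
    (α : Kgs K) (h₀ : K), HS p av α h₀ → ∀ (ι : ∀ j, Kgs K →ₐ[K] Kvs (av j)) (T : J → Type)
      (t : ∀ w, T w → Gal(Kvs (av w)/(av w).Completion)) (w₀ : J) (d : ℕ)
      (e : Fin d → Gal(Kvs (av w₀)/(av w₀).Completion)),
      LTs p (omS p av α) (fun w => rOm p av α (ι w)) t w₀ e →
    ∀ y₀ : Fin (d + 1) → GS p av α ⊕ J,
      (tsL (fun w => rOm p av α (ι w)) t w₀ e y₀).Ok p (omS p av α) (DS p av α ι) →
    ∀ D ∈ OS av, (¬ ∃ x : K, x ^ p - x = D) → ∀ k : ℕ, 1 ≤ k → ∀ Q : Pt p W k (Kgs K),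
    IsQ p W k Q → ∀ ψ : GS p av α → ZMod (p ^ (k + 1)), IsLocallyConstant ψ → ψ 1 = 1 →
    (∀ a b, ψ (a * b) = ψ a * ψ b) →
    (∀ a, ∃ y, ψ a = ((omS p av α a).val : ZMod (p ^ (k + 1))) + p * y) →
    (∀ σ : Gal(Kgs K/K), pmap (fr p W k) (σ : Kgs K →ₐ[K] Kgs K) Q =
      (ψ (rG p av α σ)).val • Q) →
    HUn p W av k → HWuT p W av k →
    (∀ j, HLo p W k (av j) D (pmap (fr p W k) (ι j) Q)) → HEn p W k D →
    ∀ (Λ₁ : Type) [CommRing Λ₁] (π₁ : Λ₁) (φ₁ : (ZMod p → ZMod (p ^ (k + 1))) → Λ₁),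
    IsLam p (k + 1) π₁ φ₁ →
    ∀ (Λ₂ : Type) [CommRing Λ₂] (π₂ : Λ₂) (φ₂ : (ZMod p → ZMod (p ^ k)) → Λ₂), IsLam p k π₂ φ₂ →
    p * (Ker (rL (tw π₁ (fun g => ((ψ g).val : Λ₁)) (hS p av α D))) (DS p av α ι)).ncard *
      (Ker (rL (tw π₂ (fun g => ((ψ g).val : Λ₂)) (hS p av α D))) (DS p av α ι)).ncard <
        p ^ k * (p ^ ((k + 1) * (p - 1)) * p ^ (k * (p - 1))) →
    GdV (fr p W 0) (hD p D)

/-- **ManT**. `S_Man` (`P3/E/SpecB.lean`) for `p = 2`. -/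
def S_ManT : Prop :=
  ∀ (p : ℕ) [Fact p.Prime], p = 2 → ∀ (K : Type) [Field K] [CharP K p], GFld p K →
    ∀ (W : WeierstrassCurve K), IsN2 W → ∀ (J : Type) (av : J → AbsoluteValue K ℝ)
    (α : Kgs K) (h₀ : K), HS p av α h₀ → ∀ (ι : ∀ j, Kgs K →ₐ[K] Kvs (av j)) (T : J → Type)
      (t : ∀ w, T w → Gal(Kvs (av w)/(av w).Completion)) (w₀ : J) (d : ℕ)
      (e : Fin d → Gal(Kvs (av w₀)/(av w₀).Completion)),
      LTs p (omS p av α) (fun w => rOm p av α (ι w)) t w₀ e →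
    ∀ (y₀ : Fin (d + 1) → GS p av α ⊕ J) (B N0 : AddSubgroup (OS av)),
      (fmS p av α ι B).Good (tsL (fun w => rOm p av α (ι w)) t w₀ e y₀) N0 →
    ∀ T₀ : Pt p W 0 (Kgs K), T₀ ≠ 0 → p • T₀ = 0 →
    (∀ σ : Gal(Kgs K/K), pmap (fr p W 0) (σ : Kgs K →ₐ[K] Kgs K) T₀ = (omc p α σ).val • T₀) →
    (∀ k, HUn p W av k) → (∀ k, HWuT p W av k) →
    (∀ k j, ∃ M : ℝ, ∀ D : K, (∀ y : (av j).Completion,
      M ≤ ‖algebraMap K (av j).Completion D - (y ^ p - y)‖) →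
      ∀ Q : Pt p W k (Kvs (av j)), IsQ p W k Q → HLo p W k (av j) D Q) →
    (∀ k, 1 ≤ k → ∀ D ∈ OS av, (¬ ∃ x : K, x ^ p - x = D) → HEn p W k D) →
    ∀ ε : ℝ, 0 < ε → ∃ e₀ : ℕ, ∀ 𝒟 : AddSubgroup (OS av), (𝒟 : Set (OS av)).Finite →
      FS av e₀ ≤ 𝒟 →
      ({D : OS av | D ∈ 𝒟 ∧ ¬ GdV (fr p W 0) (hD p (D : K))}.ncard : ℝ) ≤ ε * Nat.card 𝒟

/-- **NbdT**. `S_Nbd` (`P3/F/Spec.lean`) for `p = 2`. -/
def S_NbdT : Prop :=
  ∀ (p : ℕ) [Fact p.Prime], p = 2 → ∀ (K : Type) [Field K] [CharP K p], GFld p K →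
    ∀ (W : WeierstrassCurve K), IsN2 W → ∀ (J : Type) (av : J → AbsoluteValue K ℝ)
    (α : Kgs K) (h₀ : K), HS p av α h₀ → ∀ (ι : ∀ j, Kgs K →ₐ[K] Kvs (av j)) (T : J → Type)
      (t : ∀ w, T w → Gal(Kvs (av w)/(av w).Completion)) (w₀ : J) (d : ℕ)
      (e : Fin d → Gal(Kvs (av w₀)/(av w₀).Completion)),
      LTs p (omS p av α) (fun w => rOm p av α (ι w)) t w₀ e →
    ∀ y₀ : Fin (d + 1) → GS p av α ⊕ J,
      (tsL (fun w => rOm p av α (ι w)) t w₀ e y₀).Ok p (omS p av α) (DS p av α ι) →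
    ∀ R : Pt p W 1 (Kgs K), IsR p W 1 R →
    (∀ σ : Gal(Kgs K/K), pmap (fr p W 1) (σ : Kgs K →ₐ[K] Kgs K) R = (omc p α σ).val • R) →
    HWuT p W av 1 → ∀ D ∈ OS av, ∃ N : ℕ, ∀ (n : ℕ) (P : Fin n → ZMod p → Pt p W 1 (Kgs K)),
      (∀ i, SeF p W (hD p D) 1 (P i)) →
      (∀ i j, i ≠ j → ¬ ∃ q : ZMod p → Pt p W 0 (Kgs K), ∑ l, q l = 0 ∧
        ∀ l, P i l - P j l = Fn p W 1 (q l)) → n ≤ N

/-- **ThmT**. `S_Thm` (`P3/F/Spec.lean`) for `p = 2`. -/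
def S_ThmT : Prop :=
  ∀ (p : ℕ) [Fact p.Prime], p = 2 → ∀ (K : Type) [Field K] [CharP K p], GFld p K →
    ∀ W : WeierstrassCurve K, IsN2 W →
    ∃ (m : ℕ) (av₀ : Fin m → AbsoluteValue K ℝ), (∀ i, (av₀ i).IsNontrivial) ∧
      ∀ (n : ℕ) (av : Fin n → AbsoluteValue K ℝ), Pls av → (∀ i, ∃ j, (av j).IsEquiv (av₀ i)) →
        (∀ e, (FS av e : Set (OS av)).Finite) ∧
        ∀ ε : ℝ, 0 < ε → ∃ e₀ : ℕ, ∀ 𝒟 : AddSubgroup (OS av), (𝒟 : Set (OS av)).Finite →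
          FS av e₀ ≤ 𝒟 →
          ({D : OS av | D ∈ 𝒟 ∧ ¬ ((¬ ∃ x : K, x ^ p - x = (D : K)) ∧
            GdV W (hD p (D : K)))}.ncard : ℝ) ≤ ε * Nat.card 𝒟

/-- **IdxET**. `S_IdxE` (`P3/F/Spec.lean`) for `p = 2`. -/
def S_IdxET : Prop :=
  ∀ (p : ℕ) [Fact p.Prime], p = 2 → ∀ (K : Type) [Field K] [CharP K p] (W : WeierstrassCurve K),
    IsN2 W → ∀ (D : K) (θ : Kgs K) (h : Gal(Kgs K/K) → ZMod p),
    θ ^ p - θ = algebraMap K (Kgs K) D → (∀ σ : Gal(Kgs K/K), σ θ = θ + ((h σ).val : Kgs K)) →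
    HomP p h → (∃ σ, h σ ≠ 0) → (RatV W h).Finite →
    (Affine.Point.map (W' := W.toAffine) (Algebra.ofId K K⟮θ⟯)).range.FiniteIndex

/-- **AlpT**. `S_Alp` (`P3/F/Spec.lean`) for `p = 2`. -/
def S_AlpT : Prop :=
  ∀ (p : ℕ) [Fact p.Prime], p = 2 → ∀ (K : Type) [Field K] [CharP K p] (W : WeierstrassCurve K),
    IsN2 W → ∀ R : Pt p W 1 (Kgs K), IsR p W 1 R →
    ∃ (α : Kgs K) (h : K), h ≠ 0 ∧ α ^ (p - 1) = algebraMap K (Kgs K) h ∧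
      ∀ σ : Gal(Kgs K/K),
        pmap (fr p W 1) (σ : Kgs K →ₐ[K] Kgs K) R = (omc p α σ).val • R

/-- **UnWT**. `S_UnW` (`P3/F/Ifc.lean`) for `p = 2`. -/
def S_UnWT : Prop :=
  ∀ (p : ℕ) [Fact p.Prime], p = 2 → ∀ (K : Type) [Field K] [CharP K p], GFld p K →
    ∀ W : WeierstrassCurve K, IsN2 W →
    ∃ (m : ℕ) (av₀ : Fin m → AbsoluteValue K ℝ), (∀ i, (av₀ i).IsNontrivial) ∧
      ∀ (J : Type) (av : J → AbsoluteValue K ℝ), (∀ i, ∃ j, (av j).IsEquiv (av₀ i)) →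
        ∀ k, HUn p W av k ∧ HWuT p W av k

/-- **LoWT**. `S_LoW` (`P3/F/Ifc.lean`) for `p = 2`. -/
def S_LoWT : Prop :=
  ∀ (p : ℕ) [Fact p.Prime], p = 2 → ∀ (K : Type) [Field K] [CharP K p], GFld p K →
    ∀ W : WeierstrassCurve K, IsN2 W → ∀ v : AbsoluteValue K ℝ, v.IsNontrivial →
    ∀ k : ℕ, ∃ M : ℝ, ∀ D : K,
      (∀ y : v.Completion, M ≤ ‖algebraMap K v.Completion D - (y ^ p - y)‖) →
      ∀ Q : Pt p W k (Kvs v), IsQ p W k Q → HLo p W k v D Q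

/-- **ENT**. `S_EN` (`P3/EN/Spec.lean`) for `p = 2`. -/
def S_ENT : Prop :=
  ∀ (p : ℕ) [Fact p.Prime], p = 2 → ∀ (K : Type) [Field K] [CharP K p], GFld p K →
    ∀ (W : WeierstrassCurve K), IsN2 W → ∀ h : Gal(Kgs K/K) → ZMod p, HomP p h →
    ∀ k : ℕ, 1 ≤ k → (∀ v ∈ RatV W h, ∃ u ∈ RatV W h, p ^ (k - 1) • v = p ^ k • u) →
      (RatV W h).Finite

/-- **GdTT**. `S_GdT` (`P3/F/Ifc.lean`) for every `p`. -/
def S_GdTT : Prop :=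
  ∀ (p : ℕ) [Fact p.Prime], ∀ (K : Type) [Field K] [CharP K p], GFld p K →
    ∀ (J : Type) [Fintype J] (av : J → AbsoluteValue K ℝ) (α : Kgs K) (h : K), HS p av α h →
    2 ≤ Fintype.card J → ShN p av h = PhN p av h →
    ((∀ y : K, y ^ (p - 1) ≠ h) →
      ∃ j, ∀ y : (av j).Completion, y ^ (p - 1) ≠ algebraMap K (av j).Completion h) →
    ∀ ι : ∀ j, Kgs K →ₐ[K] Kvs (av j),
    ∃ (d : ℕ) (T : J → Type) (t : ∀ w, T w → Gal(Kvs (av w)/(av w).Completion)) (w₀ : J)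
      (e : Fin d → Gal(Kvs (av w₀)/(av w₀).Completion)) (y₀ : Fin (d + 1) → GS p av α ⊕ J)
      (B N0 : AddSubgroup (OS av)),
      LTs p (omS p av α) (fun w => rOm p av α (ι w)) t w₀ e ∧
        (fmS p av α ι B).Good (tsL (fun w => rOm p av α (ι w)) t w₀ e y₀) N0

end Pool.Agent.MP72P
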