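import Pool.Agent.Lib.MP_72e2e6_nt.P3.E2.Spec

/-!
# MP_72e2e6_nt, theorem T3p, the case `p = 2`, part F: the theorem in terms of the internal definitions
-/

namespace Pool.Agent.MP72P

open WeierstrassCurve IntermediateField
open Pool.Agent.MP72W (pmap)
open Pool.Agent.MP72V

open scoped Classical

/-- Transport of the point of order `p` along an equality of curves. -/
private theorem thm_pt {p : ℕ} {K : Type} [Field K] {W₁ : WeierstrassCurve K}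
    (R : (W₁⁄(Kgs K)).toAffine.Point) (hR0 : R ≠ 0) (hpR : p • R = 0)
    (a : Gal(Kgs K/K) → ℕ)
    (hσ : ∀ σ : Gal(Kgs K/K), pmap W₁ (σ : Kgs K →ₐ[K] Kgs K) R = a σ • R) :
    ∀ V : WeierstrassCurve K, V = W₁ → ∃ T₀ : (V⁄(Kgs K)).toAffine.Point, T₀ ≠ 0 ∧ p • T₀ = 0 ∧
      ∀ σ : Gal(Kgs K/K), pmap V (σ : Kgs K →ₐ[K] Kgs K) T₀ = a σ • T₀ := by
  rintro V rfl
  exact ⟨R, hR0, hpR, hσ⟩

private def thm_P {L : Type} [Field L] [DecidableEq L] {V : Affine L} (R : V.Point) (p : ℕ) :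
    Prop := p • R = 0

private theorem thm_dec {L : Type} [Field L] {V : Affine L} (i j : DecidableEq L) (R : V.Point)
    (p : ℕ) (h : @thm_P L _ i V R p) : @thm_P L _ j V R p := by
  rwa [Subsingleton.elim j i]

private theorem thm_R {K L : Type} [Field K] [Field L] [Algebra K L] (p : ℕ) [Fact p.Prime]
    (W : WeierstrassCurve K) (R : Pt p W 1 L) (hR : IsR p W 1 R) (hord : addOrderOf R = p ^ 1) :
    R ≠ 0 ∧ thm_P R p := by
  constructor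
  · have h1 := hR.2 0 one_pos
    rwa [pow_zero, one_smul] at h1
  · have h1 := addOrderOf_nsmul_eq_zero R
    rwa [hord, pow_one] at h1

/-- The bound for the exceptional set. -/
private theorem thm_bd {X : Type} [AddCommGroup X] (𝒟 : AddSubgroup X) (h𝒟 : (𝒟 : Set X).Finite)
    (A B C : X → Prop) (ε : ℝ) (hABC : ∀ D ∈ 𝒟, A D → B D ∨ C D)
    (hB : ({D : X | D ∈ 𝒟 ∧ B D}.ncard : ℝ) ≤ ε / 2 * Nat.card 𝒟)
    (hC : ({D : X | D ∈ 𝒟 ∧ C D}.ncard : ℝ) ≤ ε / 2 * Nat.card 𝒟) :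
    ({D : X | D ∈ 𝒟 ∧ A D}.ncard : ℝ) ≤ ε * Nat.card 𝒟 := by
  have hsub : {D : X | D ∈ 𝒟 ∧ A D} ⊆ {D : X | D ∈ 𝒟 ∧ B D} ∪ {D : X | D ∈ 𝒟 ∧ C D} := by
    rintro D ⟨hD, hA⟩
    rcases hABC D hD hA with h | h
    · exact Or.inl ⟨hD, h⟩
    · exact Or.inr ⟨hD, h⟩
  have hfin : ({D : X | D ∈ 𝒟 ∧ B D} ∪ {D : X | D ∈ 𝒟 ∧ C D}).Finite :=
    h𝒟.subset (by
      rintro D (h | h)
      · exact h.1
      · exact h.1)
  have h1 : ({D : X | D ∈ 𝒟 ∧ A D}.ncard : ℝ) ≤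
      ({D : X | D ∈ 𝒟 ∧ B D}.ncard : ℝ) + ({D : X | D ∈ 𝒟 ∧ C D}.ncard : ℝ) := by
    exact_mod_cast (Set.ncard_le_ncard hsub hfin).trans (Set.ncard_union_le _ _)
  calc ({D : X | D ∈ 𝒟 ∧ A D}.ncard : ℝ) ≤ _ := h1
    _ ≤ ε / 2 * Nat.card 𝒟 + ε / 2 * Nat.card 𝒟 := add_le_add hB hC
    _ = ε * Nat.card 𝒟 := by ring

/-- **Thm**. The theorem in terms of the internal definitions. -/
theorem tThmT : S_BasT → S_ItT → S_RkT → S_Has → S_Hst → S_Rgo → S_Dep → S_Fr1VT → S_ManT →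
    S_ENT → S_S0x → S_UnWT → S_LoWT → S_GdTT → S_AlpT → S_NbdT → S_ThmT := by
  intro hBas hIt hRk _ hHst hRgo hDep hFr1V hMan hEN hS0x hUnW hLoW hGdT hAlp hNbd p _ hp2 K _
    _ hK W hNf
  obtain ⟨hfr1, hfr2⟩ := hBas.2 K p W hNf
  obtain ⟨R, hR⟩ := ((hRk p hp2 K W hNf (Kgs K)).1).2 1
  obtain ⟨α, h, hh0, hαh, hσR⟩ := hAlp p hp2 K W hNf R hR
  have hNf1 : IsN2 (fr p W 1) := (hfr1 1).1
  have hW0 : fr p W 0 = W := by
    unfold fr
    simp only [pow_zero, pow_one]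
  have hW10 : fr p (fr p W 1) 0 = fr p W 1 := hfr2 1 0
  -- the point
  have hord := ((hIt p hp2 K W hNf (Kgs K)).2.2.2.2.2.2.2.1 1 R hR).1
  obtain ⟨hR0, hpR'⟩ := thm_R p W R hR hord
  have hpR : p • R = 0 := thm_dec _ _ R p hpR'
  obtain ⟨T₀, hT0, hpT0, hσT0⟩ := thm_pt R hR0 hpR (fun σ => (omc p α σ).val) hσR
    (fr p (fr p W 1) 0) hW10
  obtain ⟨m1, a1, hPls1, hS1⟩ := hS0x p K hK h hh0
  obtain ⟨m2, a2, hntr2, hS2⟩ := hUnW p hp2 K hK W hNf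
  obtain ⟨m3, a3, hntr3, hS3⟩ := hUnW p hp2 K hK (fr p W 1) hNf1
  refine ⟨m1 + (m2 + m3), Fin.append a1 (Fin.append a2 a3), ?_, ?_⟩
  · refine Fin.addCases (fun i => ?_) (fun i => ?_)
    · rw [Fin.append_left]
      exact hPls1.ntr i
    · rw [Fin.append_right]
      refine Fin.addCases (fun i => ?_) (fun i => ?_) i
      · rw [Fin.append_left]
        exact hntr2 i
      · rw [Fin.append_right]
        exact hntr3 i
  intro n av hPls hcov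
  have cov1 : ∀ i, ∃ j, (av j).IsEquiv (a1 i) := by
    intro i
    have h1 := hcov (Fin.castAdd _ i)
    rwa [Fin.append_left] at h1
  have cov2 : ∀ i, ∃ j, (av j).IsEquiv (a2 i) := by
    intro i
    have h1 := hcov (Fin.natAdd _ (Fin.castAdd _ i))
    rwa [Fin.append_right, Fin.append_left] at h1
  have cov3 : ∀ i, ∃ j, (av j).IsEquiv (a3 i) := by
    intro i
    have h1 := hcov (Fin.natAdd _ (Fin.natAdd _ i))
    rwa [Fin.append_right, Fin.append_right] at h1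
  obtain ⟨h2le, hu, hSh, hnp⟩ := hS1 (Fin n) av hPls cov1
  have hne : Nonempty (Fin n) := Fintype.card_pos_iff.1 (lt_of_lt_of_le (by norm_num) h2le)
  have hHS : HS p av α h := ⟨inferInstance, hne, hPls, hαh, hh0, hu⟩
  obtain ⟨ι⟩ : Nonempty (∀ j, Kgs K →ₐ[K] Kvs (av j)) := ⟨fun j => IsSepClosed.lift⟩
  obtain ⟨d, T, t, w₀, e, y₀, B, N0, hL, hG⟩ := hGdT p K hK (Fin n) av α h hHS h2le hSh hnp ι
  -- the Artin-Schreier homomorphisms
  have hst := hHst p K hK (Fin n) av α h hHS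
  obtain ⟨rc, -, -, -, rh, -, -⟩ := hRgo p K hK (Fin n) av α h hHS
  have hHom : ∀ D ∈ OS av, HomP p (hD p D) := by
    intro D hD'
    have h1 : HomP p (hS p av α D) := hst.2.2.2.2.2.2.2.2.2.2.2.2.2.1 D hD'
    have h2 : hD p D = fun σ => hS p av α D (rG p av α σ) := by
      funext σ
      exact (rh D hD' σ).symm
    rw [h2]
    refine ⟨h1.loc.comp_continuous rc, fun a b => ?_⟩
    rw [map_mul, h1.add]
  refine ⟨fun e' => hG.fin e', fun ε hε => ?_⟩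
  have hε2 : 0 < ε / 2 := half_pos hε
  obtain ⟨e₁, h₁⟩ := hMan p hp2 K hK (fr p W 1) hNf1 (Fin n) av α h hHS ι T t w₀ d e hL y₀ B
    N0 hG T₀ hT0 hpT0 hσT0 (fun k => (hS3 (Fin n) av cov3 k).1)
    (fun k => (hS3 (Fin n) av cov3 k).2)
    (fun k j => hLoW p hp2 K hK (fr p W 1) hNf1 (av j) (hPls.ntr j) k)
    (fun k hk D hD' _ => hEN p hp2 K hK (fr p (fr p W 1) 0) (by rw [hW10]; exact hNf1)
      (fun σ => hP p (1 : Kgs K) D σ) (hHom D hD') k hk) (ε / 2) hε2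
  obtain ⟨e₂, h₂⟩ := hDep p K hK (Fin n) av hPls 1 (ε / 2) hε2
  refine ⟨max e₁ e₂, fun 𝒟 h𝒟 hle => ?_⟩
  have hmono : Monotone (FS av) := hG.mono
  refine thm_bd 𝒟 h𝒟
    (fun D => ¬ ((¬ ∃ x : K, x ^ p - x = (D : K)) ∧ GdV W (hD p (D : K))))
    (fun D => ¬ GdV (fr p (fr p W 1) 0) (hD p (D : K)))
    (fun D => ∃ j, ∃ y : (av j).Completion,
          ‖algebraMap K (av j).Completion (D : K) - (y ^ p - y)‖ < 1) ε ?_
    (h₁ 𝒟 h𝒟 ((hmono (le_max_left _ _)).trans hle))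
    (h₂ 𝒟 h𝒟 ((hmono (le_max_right _ _)).trans hle))
  intro D _ hbad
  by_cases hx : ∃ x : K, x ^ p - x = (D : K)
  · right
    obtain ⟨x, hx⟩ := hx
    obtain ⟨j⟩ := hne
    refine ⟨j, algebraMap K (av j).Completion x, ?_⟩
    rw [← map_pow, ← map_sub, hx, sub_self, norm_zero]
    exact one_pos
  · left
    intro hgd
    rw [hW10] at hgd
    refine hbad ⟨hx, ?_⟩
    have h3 := hFr1V p hp2 K W hNf (hD p (D : K)) (hHom D D.2)
      (hNbd p hp2 K hK W hNf (Fin n) av α h hHS ι T t w₀ d e hL y₀ hG.ok R hR hσR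
        (hS2 (Fin n) av cov2 1).2 D D.2) hgd
    rwa [hW0] at h3

end Pool.Agent.MP72P
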