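import Pool.Agent.Lib.MP_72e2e6_nt.P3.E2.Spec

/-!
# MP_72e2e6_nt, theorem T3p, the case `p = 2`, part E: the count on the side of `V`
-/

namespace Pool.Agent.MP72P

open WeierstrassCurve
open Pool.Agent.MP72W (pmap)
open Pool.Agent.MP72V

open scoped Classical

attribute [-instance] Subtype.instDecidableEq

private theorem vs_val {Λ : Type} [CommRing Λ] (N : ℕ) (hN : (N : Λ) = 0) (a b : ℕ)
    (h : (a : ZMod N) = b) : (a : Λ) = b := by
  have h1 : a ≡ b [MOD N] := (ZMod.natCast_eq_natCast_iff a b N).1 h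
  obtain ⟨t, ht⟩ := Nat.modEq_iff_dvd.1 h1
  have h2 := congrArg (Int.cast : ℤ → Λ) ht
  push_cast at h2
  rw [hN, zero_mul] at h2
  exact (sub_eq_zero.1 h2).symm

private theorem vs_h1 {p : ℕ} {G : Type} [Group G] [TopologicalSpace G] {h : G → ZMod p}
    (hh : HomP p h) : h 1 = 0 := by
  have := hh.add 1 1
  rw [mul_one] at this
  exact left_eq_add.1 this

private theorem vs_act {p : ℕ} [hp : Fact p.Prime] {G : Type} [Group G] [TopologicalSpace G]
    (ω h : G → ZMod p) (hh : HomP p h) (k : ℕ) (hk : 1 ≤ k) (ψ : G → ZMod (p ^ (k + 1)))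
    (hψl : IsLocallyConstant ψ) (hψ1 : ψ 1 = 1) (hψm : ∀ a b, ψ (a * b) = ψ a * ψ b)
    (hψω : ∀ a, ∃ y, ψ a = ((ω a).val : ZMod (p ^ (k + 1))) + p * y) :
    ActP p ω (fun g (m : ZMod p → ZMod (p ^ k)) l => ((ψ g).val : ZMod (p ^ k)) * m (l - h g)) := by
  haveI : NeZero (p ^ (k + 1)) := ⟨pow_ne_zero _ hp.out.ne_zero⟩
  have hN : ((p ^ (k + 1) : ℕ) : ZMod (p ^ k)) = 0 := by
    rw [ZMod.natCast_eq_zero_iff]
    exact pow_dvd_pow p (Nat.le_succ k)
  refine ⟨fun g x y => funext fun l => mul_add _ _ _, fun x => funext fun l => ?_,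
    fun g g' x => funext fun l => ?_, fun x => ?_, fun g => ⟨k, fun x => funext fun l => ?_⟩⟩
  · have e1 : ((ψ 1).val : ZMod (p ^ k)) = 1 := by
      have := vs_val (Λ := ZMod (p ^ k)) (p ^ (k + 1)) hN (ψ 1).val 1 (by
        rw [ZMod.natCast_zmod_val, hψ1, Nat.cast_one])
      rw [this, Nat.cast_one]
    rw [e1, vs_h1 hh, sub_zero, one_mul]
  · have e1 : ((ψ (g * g')).val : ZMod (p ^ k)) = (ψ g).val * (ψ g').val := by
      have := vs_val (Λ := ZMod (p ^ k)) (p ^ (k + 1)) hN (ψ (g * g')).val ((ψ g).val * (ψ g').val) (by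
        push_cast
        rw [ZMod.natCast_zmod_val, ZMod.natCast_zmod_val, ZMod.natCast_zmod_val]
        exact hψm g g')
      rw [this, Nat.cast_mul]
    show ((ψ (g * g')).val : ZMod (p ^ k)) * x (l - h (g * g')) =
      (ψ g).val * ((ψ g').val * x (l - h g - h g'))
    rw [e1, hh.add, mul_assoc, sub_sub]
  · exact (hψl.prodMk hh.loc).comp fun q : ZMod (p ^ (k + 1)) × ZMod p =>
      fun l => ((q.1.val : ℕ) : ZMod (p ^ k)) * x (l - q.2)
  · have e1 : ∀ n : ℕ, ψ (g ^ n) = ψ g ^ n := by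
      intro n
      induction n with
      | zero => rw [pow_zero, pow_zero, hψ1]
      | succ n ih => rw [pow_succ g, hψm, ih, pow_succ (ψ g)]
    have e2 : ∀ n : ℕ, h (g ^ n) = n * h g := by
      intro n
      induction n with
      | zero => rw [pow_zero, vs_h1 hh, Nat.cast_zero, zero_mul]
      | succ n ih =>
        rw [pow_succ, hh.add, ih]
        push_cast
        ring
    have e3 : h (g ^ p ^ k) = 0 := by
      rw [e2]
      have : ((p ^ k : ℕ) : ZMod p) = 0 := by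
        rw [ZMod.natCast_eq_zero_iff]
        exact dvd_pow_self p (by omega)
      rw [this, zero_mul]
    obtain ⟨y, hy⟩ := hψω g
    have e4 : ψ g ^ p ^ k = ((ω g).val : ZMod (p ^ (k + 1))) ^ p ^ k := by
      have h1 : ((p : ℕ) : ZMod (p ^ (k + 1))) ∣ ψ g - ((ω g).val : ZMod (p ^ (k + 1))) :=
        ⟨y, by rw [hy]; ring⟩
      have h2 := dvd_sub_pow_of_dvd_sub h1 k
      have h3 : ((p : ℕ) : ZMod (p ^ (k + 1))) ^ (k + 1) = 0 := by
        rw [← Nat.cast_pow, ZMod.natCast_self]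
      rw [h3, zero_dvd_iff] at h2
      exact sub_eq_zero.1 h2
    have e5 : ((ψ (g ^ p ^ k)).val : ZMod (p ^ k)) = (((ω g).val ^ p ^ k : ℕ) : ZMod (p ^ k)) :=
      vs_val (Λ := ZMod (p ^ k)) (p ^ (k + 1)) hN _ _ (by
        rw [ZMod.natCast_zmod_val, e1, e4, Nat.cast_pow])
    rw [e5, e3, sub_zero, Pi.smul_apply, nsmul_eq_mul]

section gen

variable {p : ℕ} [hp : Fact p.Prime] (hp2 : p = 2) {K : Type} [Field K] [CharP K p]
  (W : WeierstrassCurve K) (hW : IsN2 W) {L : Type} [Field L] [Algebra K L] (k : ℕ)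

include hp2 hW

private theorem vs_a (h4 : S_ItT) {S : Type} [Field S] [Algebra K S] [Algebra S L]
    [IsScalarTower K S L] (f : L →ₐ[S] L) (R' X X' : Pt p W k L) (hR : Vn p W k R' = 0) (m : ℕ)
    (hm : m • R' = pmap (fr p W k) f X' - X) :
    pmap (fr p W 0) f (Vn p W k X') = Vn p W k X := by
  obtain ⟨-, hV, -, -, -, hnat, -⟩ := h4 p hp2 K W hW L
  let vn : Pt p W k L →+ Pt p W 0 L := AddMonoidHom.mk' (Vn p W k) (hV k)
  have hvn : ∀ X, Vn p W k X = vn X := fun _ => rfl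
  rw [(hnat k S L f).2, eq_add_of_sub_eq hm.symm, hvn, map_add, map_nsmul, ← hvn, hR, smul_zero,
    zero_add, ← hvn]

private theorem vs_b (h4 : S_ItT) (R' : Pt p W k L) (hR : IsR p W k R') (m : ℕ) (hm : m < p ^ k)
    (h : m • R' = 0) : m = 0 := by
  obtain ⟨-, -, -, -, -, -, -, hR8, -, -⟩ := h4 p hp2 K W hW L
  have h1 := addOrderOf_dvd_iff_nsmul_eq_zero.2 h
  rw [(hR8 k R' hR).1] at h1
  exact Nat.eq_zero_of_dvd_of_lt h1 hm

private theorem vs_c (h4 : S_ItT) (h5 : S_VSrT) (Q' : Pt p W k L) (hQ' : IsQ p W k Q')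
    (X u : ZMod p → Pt p W k L) (hX : ∑ l, X l = 0) (hu : ∑ l, u l = 0) (m : ℤ)
    (he : ∀ l, Vn p W k (X l) = m • Vn p W k Q' + Vn p W k (u l)) :
    ∃ z : ZMod p → ZMod (p ^ (k + 1)), ∑ l, z l = 0 ∧ ∀ l, X l = u l + (z l).val • Q' := by
  obtain ⟨-, hV, -, -, -, -, -⟩ := h4 p hp2 K W hW L
  let vn : Pt p W k L →+ Pt p W 0 L := AddMonoidHom.mk' (Vn p W k) (hV k)
  have hvn : ∀ X, Vn p W k X = vn X := fun _ => rfl
  obtain ⟨-, hord, h3, -⟩ := h5 p hp2 K W hW L k Q' hQ'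
  have hz : ∀ l, ∃ z : ZMod (p ^ (k + 1)), X l - u l = z.val • Q' := by
    intro l
    obtain ⟨z, hz, -⟩ := h3 (X l - u l) m (by
      rw [hvn, map_sub, ← hvn, ← hvn, he, add_sub_cancel_right])
    exact ⟨z, hz⟩
  choose z hz using hz
  haveI : NeZero (p ^ (k + 1)) := ⟨pow_ne_zero _ hp.out.ne_zero⟩
  refine ⟨z, ?_, fun l => ?_⟩
  · have h1 : (∑ l, (z l).val) • Q' = 0 := by
      rw [Finset.sum_smul, ← Finset.sum_congr rfl fun l _ => hz l, Finset.sum_sub_distrib, hX, hu,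
        sub_self]
    have h2 := addOrderOf_dvd_iff_nsmul_eq_zero.2 h1
    rw [hord, ← ZMod.natCast_eq_zero_iff] at h2
    rw [← h2]
    push_cast
    exact Finset.sum_congr rfl fun l _ => (ZMod.natCast_zmod_val (z l)).symm
  · rw [← hz]
    abel

omit hp2 [CharP K p] hW in
private theorem vs_d {S : Type} [Field S] [Algebra K S] [Algebra S L]
    [IsScalarTower K S L] (f : L →ₐ[S] L) (Q' X₁ X₂ u₁ u₂ : Pt p W k L)
    (hord : addOrderOf Q' = p ^ (k + 1)) (z₁ z₂ t : ZMod (p ^ (k + 1))) (a : ℕ)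
    (h1 : a • (p • Q') = pmap (fr p W k) f X₁ - X₂) (h2 : X₁ = u₁ + z₁.val • Q')
    (h3 : X₂ = u₂ + z₂.val • Q') (h4 : pmap (fr p W k) f u₁ = u₂)
    (h5 : pmap (fr p W k) f Q' = t.val • Q') :
    (p : ZMod (p ^ (k + 1))) * (a : ZMod (p ^ (k + 1))) = t * z₁ - z₂ := by
  haveI : NeZero (p ^ (k + 1)) := ⟨pow_ne_zero _ hp.out.ne_zero⟩
  have e3 : ((p * a - t.val * z₁.val + z₂.val : ℤ)) • Q' = 0 := by
    rw [h2, h3, map_add, map_nsmul, h4, h5] at h1
    have e1 : (p * a : ℤ) • Q' = a • (p • Q') := by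
      rw [← natCast_zsmul, ← natCast_zsmul, ← mul_smul, mul_comm]
    have e2 : (t.val * z₁.val : ℤ) • Q' = z₁.val • t.val • Q' := by
      rw [← natCast_zsmul, ← natCast_zsmul, ← mul_smul, mul_comm]
    rw [add_zsmul, sub_zsmul, e1, e2, natCast_zsmul, h1]
    abel
  rw [← addOrderOf_dvd_iff_zsmul_eq_zero, hord, ← ZMod.intCast_zmod_eq_zero_iff_dvd] at e3
  push_cast at e3
  rw [ZMod.natCast_zmod_val, ZMod.natCast_zmod_val, ZMod.natCast_zmod_val] at e3
  linear_combination e3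

end gen

private theorem vs_sq {K S L M : Type} [Field K] (W : WeierstrassCurve K) [Field S] [Field L]
    [Field M] [Algebra K S] [Algebra K L] [Algebra K M] [Algebra S M] [IsScalarTower K S M]
    (f : L →ₐ[K] M) (s : L →ₐ[K] L) (t : M →ₐ[S] M)
    (hst : ∀ x, t (f x) = f (s x)) (P : (W⁄L).toAffine.Point) :
    pmap W t (pmap W f P) = pmap W f (pmap W s P) := by
  cases P with
  | zero => rfl
  | some x y h =>
    unfold pmap
    rw [Affine.Point.map_some, Affine.Point.map_some, Affine.Point.map_some,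
      Affine.Point.map_some, Affine.Point.some.injEq]
    exact ⟨hst x, hst y⟩

section main

theorem tVST (hRes : S_Res) (hHst : S_Hst) (hRgo : S_Rgo) (hOnr : S_Onr) (hFac : S_Fac)
    (_hBas : S_BasT) (_hFr : S_FrT) (_hVh : S_VhT) (hIt : S_ItT) (hVSr : S_VSrT) (hVSb : S_VSbT) :
    S_VST := by
  intro p hp hp2 K _ _ hG W hW J av α h₀ hHS ι D hD hDn k hk Q hQ ψ hψl hψ1 hψm hψω hQψ hUN hLO
    Λ _ π φ hLam hfin n c hc hci
  have eK : (fun a b => Subtype.instDecidableEq a b : DecidableEq (Kgs K)) =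
    fun a b => Classical.propDecidable (a = b) := Subsingleton.elim _ _
  haveI : NeZero (p ^ (k + 1)) := ⟨pow_ne_zero _ hp.out.ne_zero⟩
  haveI : NeZero (p ^ k) := ⟨pow_ne_zero _ hp.out.ne_zero⟩
  obtain ⟨-, -, -, -, -, -, hω, hH2, -, -, -, -, -, hhom, -, hker⟩ := hHst p K hG J av α h₀ hHS
  obtain ⟨-, hsur, -, -, hrG, -, hloc⟩ := hRgo p K hG J av α h₀ hHS
  have hh : HomP p (hS p av α D) := hhom D hD
  try rw [eK] at hQψ
  try rw [eK] at hc
  -- the local point
  have hQι : ∀ (v : AbsoluteValue K ℝ) (ι' : Kgs K →ₐ[K] Kvs v),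
      IsQ p W k (pmap (fr p W k) ι' Q) := fun v ι' =>
    (hVSr p hp2 K W hW (Kgs K) k Q hQ).2.2.2 K (Kvs v) ι'
  have hPP : ∀ σ, hP p (1 : Kgs K) D σ = hS p av α D (rG p av α σ) := fun σ => (hrG D hD σ).symm
  -- factorization
  have hfac : ∀ i, ∃ c' : GS p av α → ZMod p → ZMod (p ^ k),
      Coc (fun g (m : ZMod p → ZMod (p ^ k)) l => ((ψ g).val : ZMod (p ^ k)) *
        m (l - hS p av α D g)) c' ∧ ∀ σ, c i σ = c' (rG p av α σ) := by
    intro i
    refine hFac p K hG J av α h₀ hHS (ZMod p → ZMod (p ^ k)) (k * p) ?_ _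
      (vs_act (omS p av α) (hS p av α D) hh k hk ψ hψl hψ1 hψm hψω) (c i) ⟨(hc i).loc, ?_⟩ ?_
    · rw [Nat.card_eq_fintype_card, Fintype.card_fun, ZMod.card, ZMod.card, pow_mul]
    · intro σ τ
      funext l
      rw [(hc i).mul, hPP]
      rfl
    · intro v hv hvn
      refine ⟨IsSepClosed.lift, fun g hg => ?_⟩
      set ι' : Kgs K →ₐ[K] Kvs v := IsSepClosed.lift with hι'
      have eV : (fun a b => Subtype.instDecidableEq a b : DecidableEq (Kvs v)) =
        fun a b => Classical.propDecidable (a = b) := Subsingleton.elim _ _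
      have h1 := (hc i).sel v hv ι'
      try rw [eV] at h1
      obtain ⟨X, -, hX⟩ := h1
      set Q' := pmap (fr p W k) ι' Q with hQ'def
      obtain ⟨hR, -, -, -⟩ := hVSr p hp2 K W hW (Kvs v) k Q' (hQι v ι')
      obtain ⟨-, hrr, -, -, -, -⟩ := hloc v ι'
      have h0 : ∀ g' : Gal(Kvs v/v.Completion), IsGeo p g' →
          hP p (1 : Kgs K) D (rsH (M := v.Completion) ι' g') = 0 := by
        intro g' hg'
        rw [hPP, ← hrr, (hOnr p K hG J av α h₀ hHS v hv hvn ι').2.2 g' hg']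
        exact vs_h1 hh
      have h2 : ∀ (g' : Gal(Kvs v/v.Completion)), IsGeo p g' → ∀ l,
          ((c i (rsH (M := v.Completion) ι' g') l).val) • (p • Q') =
            pmap (fr p W k) (g' : Kvs v →ₐ[v.Completion] Kvs v) (X l) - X l := by
        intro g' hg' l
        have := hX g' l
        rw [h0 g' hg', sub_zero, map_nsmul] at this
        exact this
      funext l
      have h3 := hUN v hv hvn (X l) (fun g' hg' =>
        vs_a hp2 W hW k hIt (g' : Kvs v →ₐ[v.Completion] Kvs v) (p • Q') (X l) (X l) hR.1 _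
          (h2 g' hg' l)) g hg
      have h4 := h2 g hg l
      rw [h3, sub_self] at h4
      exact (ZMod.val_eq_zero _).1 (vs_b hp2 W hW k hIt (p • Q') hR _ (ZMod.val_lt _) h4)
  choose c' hc' hcc using hfac
  have hcs : ∀ i g, ∑ l, c' i g l = 0 := by
    intro i g
    obtain ⟨σ, rfl⟩ := hsur g
    rw [← hcc]
    exact (hc i).sum σ
  haveI : Nonempty J := hHS.nem
  refine hVSb p hp2 (GS p av α) J (DS p av α ι) (omS p av α) (hS p av α D) hω hh ?_ k ψ hψl hψ1 hψm
    hψω Λ π φ hLam hfin n c' (fun i => (hc' i).loc) hcs (fun i g g' l => congrFun ((hc' i).mul g g') l)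
    ?_ ?_
  · by_contra hcon
    push Not at hcon
    exact hDn ((hker D hD).1 hcon)
  · intro i j
    have eV : (fun a b => Subtype.instDecidableEq a b : DecidableEq (Kvs (av j))) =
      fun a b => Classical.propDecidable (a = b) := Subsingleton.elim _ _
    have h1 := (hc i).sel (av j) (hHS.pls.ntr j) (ι j)
    try rw [eV] at h1
    obtain ⟨X, hXs, hX⟩ := h1
    set Q' := pmap (fr p W k) (ι j) Q with hQ'def
    obtain ⟨hR, hord, -, -⟩ := hVSr p hp2 K W hW (Kvs (av j)) k Q' (hQι (av j) (ι j))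
    obtain ⟨-, hrr, -, -, hrh, -⟩ := hloc (av j) (ι j)
    have hX' : ∀ (g : Gal(Kvs (av j)/(av j).Completion)) (l : ZMod p),
        ((c' i (rOm p av α (ι j) g) l).val) • (p • Q') =
          pmap (fr p W k) (g : Kvs (av j) →ₐ[(av j).Completion] Kvs (av j))
            (X (l - hS p av α D (rOm p av α (ι j) g))) - X l := by
      intro g l
      have := hX g l
      rw [hPP, hcc, ← hrr, map_nsmul] at this
      exact this
    obtain ⟨-, hV, -, -, -, -, -⟩ := hIt p hp2 K W hW (Kvs (av j))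
    let vn : Pt p W k (Kvs (av j)) →+ Pt p W 0 (Kvs (av j)) := AddMonoidHom.mk' (Vn p W k) (hV k)
    have hLOj := hLO j
    try rw [eV] at hLOj
    have h2 := hLOj (fun l => Vn p W k (X l)) (by
      show ∑ l, vn (X l) = 0
      rw [← map_sum, hXs, map_zero]) (fun g => by
      funext l
      show pmap (fr p W 0) (g : Kvs (av j) →ₐ[(av j).Completion] Kvs (av j))
        (Vn p W k (X (l - hP p (1 : Kvs (av j)) (algebraMap K (av j).Completion D) g))) = _
      rw [← hrh D hD]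
      exact vs_a hp2 W hW k hIt (g : Kvs (av j) →ₐ[(av j).Completion] Kvs (av j)) (p • Q') (X l)
        (X (l - hS p av α D (rOm p av α (ι j) g))) hR.1 _ (hX' g l))
    obtain ⟨m, u, hus, hu, he⟩ := h2
    obtain ⟨z, hz, hXz⟩ := vs_c hp2 W hW k hIt hVSr Q' (hQι (av j) (ι j)) X u hXs hus m he
    refine ⟨z, hz, ?_⟩
    rintro _ ⟨g, rfl⟩ l
    refine vs_d W k (g : Kvs (av j) →ₐ[(av j).Completion] Kvs (av j)) Q' _ (X l) _ (u l) hord _ _ _ _
      (hX' g l) (hXz _) (hXz l) ?_ ?_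
    · have := congrFun (hu g) l
      rw [← hrh D hD] at this
      exact this
    · obtain ⟨-, hrst, -, -⟩ := hRes p K (Kgs K) (av j).Completion (Kvs (av j)) (ι j)
      rw [hQ'def, vs_sq (fr p W k) (ι j) ((rsH (M := (av j).Completion) (ι j) g : Gal(Kgs K/K)) :
        Kgs K →ₐ[K] Kgs K) (g : Kvs (av j) →ₐ[(av j).Completion] Kvs (av j)) (fun x => hrst g x) Q,
        hQψ, map_nsmul, hrr]
  · rintro i j hij ⟨m, hm, hm2⟩
    refine hci i j hij ⟨m, hm, fun σ l => ?_⟩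
    rw [hcc, hcc, hPP]
    exact hm2 (rG p av α σ) l

end main

end Pool.Agent.MP72P
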