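import Pool.Agent.Lib.MP_72e2e6_nt.P3.E2.Spec

/-!
# MP_72e2e6_nt, theorem T3p, the case `p = 2`, part E: the count on the side of `V`, abstract part
-/

namespace Pool.Agent.MP72P

open scoped Classical

private theorem vsb_val {Λ : Type} [CommRing Λ] (N : ℕ) (hN : (N : Λ) = 0) (a b : ℕ)
    (h : (a : ZMod N) = b) : (a : Λ) = b := by
  have h1 : a ≡ b [MOD N] := (ZMod.natCast_eq_natCast_iff a b N).1 h
  obtain ⟨t, ht⟩ := Nat.modEq_iff_dvd.1 h1
  have h2 := congrArg (Int.cast : ℤ → Λ) ht
  push_cast at h2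
  rw [hN, zero_mul] at h2
  exact (sub_eq_zero.1 h2).symm

private theorem vsb_shift {p : ℕ} [Fact p.Prime] {A : Type} [CommRing A] (v : ZMod p → A) (a : A)
    (c : ZMod p) (hv : ∑ l, v l = 0) : ∑ l, a * v (l - c) = 0 := by
  rw [← Finset.mul_sum]
  have : ∑ l, v (l - c) = ∑ l, v l := Equiv.sum_comp (Equiv.subRight c) v
  rw [this, hv, mul_zero]

theorem tVSbT (h1 : S_Lrb) (h2 : S_Kap) (h4 : S_Vs2) : S_VSbT := by
  intro p hp hp2 G _ _ _ S _ D ω h hω hh hne k ψ hψl hψ1 hψm hψω Λ _ π φ hL hfin n c hcl hcs hcm hcD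
    hci
  obtain ⟨κ, κadd, κinj, κshf, κp, κsur, κloc⟩ := h2 p k Λ π φ hL
  obtain ⟨hfinΛ, -, ⟨-, hztadd⟩, -, -, hrs, -⟩ := h1 p _ Λ π hL.lr
  have hn1 : 1 ≤ (k + 1) * (p - 1) := by
    have : 1 ≤ p - 1 := by omega
    nlinarith
  obtain ⟨radd, -, -, rzero, -, -⟩ := hrs hn1
  -- `π = 2`
  have hπ : π = (p : Λ) := by
    have h5 := hL.lr.phi
    rw [hp2, Finset.sum_range_succ, Finset.sum_range_one, pow_zero, pow_one] at h5
    rw [hp2]
    push_cast
    linear_combination -h5
  haveI : NeZero (p ^ (k + 1)) := ⟨pow_ne_zero _ hp.out.ne_zero⟩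
  set χ : G → Λ := tw π (fun g => ((ψ g).val : Λ)) h with hχdef
  have hχ : ∀ g, χ g = ((ψ g).val : Λ) * zt π (h g) := fun g => rfl
  have hχm : ∀ a b, χ (a * b) = χ a * χ b := by
    intro a b
    rw [hχ, hχ, hχ, hh.add, hztadd]
    have := vsb_val (Λ := Λ) (p ^ (k + 1)) hL.ck (ψ (a * b)).val ((ψ a).val * (ψ b).val) (by
      push_cast
      rw [ZMod.natCast_zmod_val, ZMod.natCast_zmod_val, ZMod.natCast_zmod_val]
      exact hψm a b)
    rw [this]
    push_cast
    ring
  have hχl : ∀ x : Λ, IsLocallyConstant fun g => rL χ g x := by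
    intro x
    exact (hψl.prodMk hh.loc).comp fun q : ZMod (p ^ (k + 1)) × ZMod p =>
      ((q.1.val : Λ) * zt π q.2) * x
  have κ0 : κ 0 = 0 := by
    have := κadd 0 0 (by simp) (by simp)
    rw [add_zero] at this
    exact left_eq_add.1 this
  have κsub : ∀ v v', ∑ i, v i = 0 → ∑ i, v' i = 0 → κ (v - v') = κ v - κ v' := by
    intro v v' hv hv'
    have := κadd (v - v') v' (by simp [hv, hv']) hv'
    rw [sub_add_cancel] at this
    rw [this, add_sub_cancel_right]
  have κχ : ∀ v, ∑ i, v i = 0 → ∀ g, κ (fun l => ((ψ g).val : ZMod (p ^ k)) * v (l - h g)) =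
      χ g * κ v := fun v hv g => κshf v hv (ψ g) (h g)
  have hcoc : ∀ i, Coc (rL χ) fun g => κ (c i g) := by
    intro i
    refine ⟨(hcl i).comp κ, fun g g' => ?_⟩
    have e1 : c i (g * g') = c i g + fun l => ((ψ g).val : ZMod (p ^ k)) * c i g' (l - h g) :=
      funext fun l => hcm i g g' l
    rw [e1, κadd _ _ (hcs i g) (vsb_shift _ _ _ (hcs i g')), κχ _ (hcs i g')]
    rfl
  have hloc : ∀ i w, ∃ a, ∀ g ∈ D w, κ (c i g) = a - rL χ g a := by
    intro i w
    obtain ⟨z', hz', hz2⟩ := hcD i w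
    obtain ⟨b, hb⟩ := κloc z' hz'
    refine ⟨-b, fun g hg => ?_⟩
    rw [hb (c i g) (hcs i g) (ψ g) (h g) (hz2 g hg)]
    show _ = -b - χ g * -b
    rw [hχ]
    ring
  -- the equivalence relation
  let s : Setoid (Fin n) :=
    { r := fun i j => ∃ b : Λ, ∀ g, κ (c i g) - κ (c j g) = b - χ g * b
      iseqv := by
        refine ⟨fun i => ⟨0, fun g => by simp⟩, ?_, ?_⟩
        · rintro i j ⟨b, hb⟩
          refine ⟨-b, fun g => ?_⟩
          linear_combination -(hb g)
        · rintro i j l ⟨b, hb⟩ ⟨b', hb'⟩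
          refine ⟨b + b', fun g => ?_⟩
          linear_combination hb g + hb' g }
  have hsr : ∀ i j : Fin n, (Quotient.mk s i = Quotient.mk s j) ↔
      ∃ b : Λ, ∀ g, κ (c i g) - κ (c j g) = b - χ g * b := fun i j => Quotient.eq
  have hout : ∀ q : Quotient s, Quotient.mk s q.out = q := fun q => Quotient.out_eq q
  have hinj : Function.Injective fun q : Quotient s => fun g => κ (c q.out g) := by
    intro q q' hqq
    rw [← hout q, ← hout q', hsr]
    refine ⟨0, fun g => ?_⟩
    have := congrFun hqq g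
    simp only at this
    rw [this]
    simp
  obtain ⟨-, hcount⟩ := h4 G S D Λ (rL χ) (fun g x y => mul_add _ _ _)
    (fun g g' x => by
      show χ (g * g') * x = χ g * (χ g' * x)
      rw [hχm]
      ring) hχl hfin (Set.range fun q : Quotient s => fun g => κ (c q.out g)) (by
      rintro _ ⟨q, rfl⟩
      exact ⟨hcoc _, fun w => hloc _ w⟩) (by
      rintro _ ⟨q, rfl⟩ _ ⟨q', rfl⟩ hb
      have : q = q' := by
        rw [← hout q, ← hout q', hsr]
        exact hb
      rw [this])
  have hncard : (Set.range fun q : Quotient s => fun g => κ (c q.out g)).ncard =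
      Fintype.card (Quotient s) := by
    rw [← Set.image_univ, Set.ncard_image_of_injective _ hinj, Set.ncard_univ, Nat.card_eq_fintype_card]
  rw [hncard, hL.lr.card] at hcount
  have hfib : ∀ q : Quotient s, (Finset.univ.filter fun i : Fin n => Quotient.mk s i = q).card ≤ p := by
    intro q
    set F := Finset.univ.filter fun i : Fin n => Quotient.mk s i = q with hF
    let e : Fin F.card ≃ F := F.equivFin.symm
    have hex : ∀ i : Fin F.card, ∃ b : Λ, ∀ g, κ (c (e i) g) - κ (c q.out g) = b - χ g * b := by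
      intro i
      rw [← hsr, hout]
      exact (Finset.mem_filter.1 (e i).2).2
    choose b hb using hex
    have hbi : ∀ i j, i ≠ j → ¬ ∃ y, b i - b j = p * y := by
      intro i j hij hy
      obtain ⟨y, hy⟩ := hy
      obtain ⟨m, hm, hm2⟩ := κsur y
      refine hci (e i) (e j) (fun h' => hij (e.injective (Subtype.ext h'))) ⟨-m, by simp [hm], fun g l => ?_⟩
      have hzero : (c (e i) g - c (e j) g) - (m - fun l => ((ψ g).val : ZMod (p ^ k)) * m (l - h g)) = 0 := by
        have hs1 : ∑ l, (c (e i) g - c (e j) g) l = 0 := by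
          simp only [Pi.sub_apply, Finset.sum_sub_distrib, hcs, sub_self]
        have hs2 : ∑ l, (m - fun l => ((ψ g).val : ZMod (p ^ k)) * m (l - h g)) l = 0 := by
          simp only [Pi.sub_apply, Finset.sum_sub_distrib, hm, vsb_shift m _ _ hm, sub_self]
        refine κinj _ ?_ ?_
        · simp only [Pi.sub_apply, Finset.sum_sub_distrib] at hs1 hs2 ⊢
          rw [hs1, hs2, sub_zero]
        · rw [κsub _ _ hs1 hs2, κsub _ _ (hcs _ _) (hcs _ _), κsub _ _ hm (vsb_shift m _ _ hm), κχ m hm,
            hm2]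
          linear_combination hb i g - hb j g + hy - χ g * hy
      have := congrFun hzero l
      simp only [Pi.sub_apply, Pi.zero_apply, Pi.neg_apply] at this ⊢
      linear_combination this
    have hinjr : Function.Injective fun i : Fin F.card => rs (p := p) π (b i) := by
      intro i j hij
      by_contra hne
      refine hbi i j hne ?_
      have h6 := radd (b i - b j) (b j)
      have h6' : rs (p := p) π (b i) = rs π (b j) := hij
      rw [sub_add_cancel, h6'] at h6
      have h7 : rs (p := p) π (b i - b j) = 0 := by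
        have h9 : 0 + rs (p := p) π (b j) = rs π (b i - b j) + rs π (b j) := by
          rw [zero_add]
          exact h6
        exact (add_right_cancel h9).symm
      obtain ⟨y, hy⟩ := (rzero _).1 h7
      exact ⟨y, by rw [hy, ← hπ]⟩
    have h8 := Fintype.card_le_of_injective _ hinjr
    rwa [Fintype.card_fin, ZMod.card] at h8
  have hn : n ≤ p * Fintype.card (Quotient s) := by
    have := Finset.card_le_mul_card_image (f := fun i : Fin n => Quotient.mk s i) Finset.univ p
      (fun q _ => hfib q)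
    rw [Finset.card_univ, Fintype.card_fin] at this
    exact this.trans (Nat.mul_le_mul_left _ (Finset.card_le_univ _))
  calc n * p ^ ((k + 1) * (p - 1)) ≤ (p * Fintype.card (Quotient s)) * p ^ ((k + 1) * (p - 1)) :=
        Nat.mul_le_mul_right _ hn
    _ = p * (Fintype.card (Quotient s) * p ^ ((k + 1) * (p - 1))) := by ring
    _ ≤ _ := Nat.mul_le_mul_left _ hcount

end Pool.Agent.MP72P
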