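import Pool.Agent.Lib.MP_72e2e6_nt.P3.E2.Spec

/-!
# MP_72e2e6_nt, theorem T3p, the case `p = 2`, part E: the point `p Q`
-/

namespace Pool.Agent.MP72P

open WeierstrassCurve
open Pool.Agent.MP72W (pmap)
open Pool.Agent.MP72V

open scoped Classical

private theorem vsr_two (p : ℕ) (hp2 : p = 2) (K : Type) [Field K] [CharP K p] :
    (2 : K) = 0 := by
  subst hp2
  exact_mod_cast CharP.cast_eq_zero K 2

theorem tVSrT (h1 : S_BasT) (_h2 : S_FrT) (_h3 : S_VhT) (h4 : S_ItT) : S_VSrT := by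
  intro p hp hp2 K _ _ W hW L _ _ k Q hQ
  obtain ⟨hF, hV, hVF, hFV, hFi, hnat, -, hR8, -, -⟩ := h4 p hp2 K W hW L
  let vn : Pt p W k L →+ Pt p W 0 L := AddMonoidHom.mk' (Vn p W k) (hV k)
  let fn : Pt p W 0 L →+ Pt p W k L := AddMonoidHom.mk' (Fn p W k) (hF k)
  have hvn : ∀ X, Vn p W k X = vn X := fun _ => rfl
  have hfn : ∀ X, Fn p W k X = fn X := fun _ => rfl
  have hk1 : p ^ (k + 1) • Q = 0 := by
    rw [pow_succ', mul_smul, ← hFV, hfn, ← map_nsmul, hQ.2, map_zero]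
  have hk0 : ∀ n ≤ k, p ^ n • Q ≠ 0 := by
    intro n hn h
    have h2 : p ^ k • Q = 0 := by
      obtain ⟨m, rfl⟩ := Nat.exists_eq_add_of_le hn
      rw [pow_add, mul_comm, mul_smul, h, smul_zero]
    rw [← hFV] at h2
    refine hQ.1 (hFi k _ _ ?_)
    rw [h2, hfn, map_zero]
  have hord : addOrderOf Q = p ^ (k + 1) := addOrderOf_eq_prime_pow (hk0 k le_rfl) hk1
  have hR : IsR p W k (p • Q) := by
    refine ⟨?_, fun n hn h => ?_⟩
    · rw [hvn, map_nsmul, ← hvn]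
      exact hQ.2
    · rw [← mul_smul, ← pow_succ] at h
      exact hk0 (n + 1) hn h
  haveI : NeZero (p ^ (k + 1)) := ⟨pow_ne_zero _ hp.out.ne_zero⟩
  refine ⟨hR, hord, ?_, ?_⟩
  · intro X m hX
    have h0 : Vn p W k (X - m • Q) = 0 := by
      rw [hvn, map_sub, map_zsmul, ← hvn, ← hvn, hX, sub_self]
    obtain ⟨n, hn⟩ := ((hR8 k (p • Q) hR).2 _).1 h0
    refine ⟨((m + n * p : ℤ) : ZMod (p ^ (k + 1))), ?_, (n : ZMod (p ^ (k + 1))), ?_⟩
    · have hX' : X = (m + n * p : ℤ) • Q := by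
        rw [sub_eq_iff_eq_add] at hn
        rw [hn, add_smul, mul_smul, natCast_zsmul, natCast_zsmul, add_comm]
      rw [hX', ← natCast_zsmul, zsmul_eq_zsmul_iff_modEq, hord]
      refine ((ZMod.intCast_eq_intCast_iff _ _ _).1 ?_)
      rw [Int.cast_natCast, ZMod.natCast_zmod_val]
    · push_cast
      ring
  · intro S M _ _ _ _ _ _ _ _ f
    have hinj : Function.Injective (pmap (fr p W 0) f) :=
      ((h1.1 K (vsr_two p hp2 K) (fr p W 0) ((h1.2 K p W hW).1 0).1 L).2.2.2.2.2 S M f).2.1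
    refine ⟨?_, ?_⟩
    · rw [← (hnat k S M f).2]
      intro h
      exact hQ.1 (hinj (by rw [h, map_zero]))
    · rw [← (hnat k S M f).2, ← map_nsmul, hQ.2, map_zero]

end Pool.Agent.MP72P
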